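import Pool.Agent.H910R3.BP.Orc
import Pool.Agent.H620R2.Gauge.A1

/-!
# Simple facts on algorithms (TaskAlg of project H910-BPPPATH; helper875)
-/

set_option autoImplicit false

namespace Pool.Agent.H910R3.BP.Alg

open Finset Pool.Agent.NPC Pool.Agent.H620R2.Gauge Pool.Agent.H910R3.BP

theorem agree_mono {m m' : ℕ} (h : m ≤ m') {G G' : ℕ → List Bool → Option Bool}
    (hG : Agree m' G G') : Agree m G G' := fun i w hw => hG i w (hw.trans_le h)

theorem orc_agree {m : ℕ} {G G' : ℕ → List Bool → Option Bool} (hG : Agree m G G')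
    {q : List Bool} (hq : q.length < m) : orc G q = orc G' q := by
  have h1 : (cellW q).length < m := by
    unfold cellW
    rw [List.length_drop]
    omega
  unfold orc
  rw [hG (lead q) (cellW q) h1]

theorem count_local (M : NAlg) (z : List Bool) (v : Bool) : ∀ (n : ℕ) (a : List Bool), ∃ m,
    ∀ G G', Agree m G G' → M.count (orc G) z v n a = M.count (orc G') z v n a := by
  intro n
  induction n with
  | zero => intro a; exact ⟨0, fun G G' _ => by simp only [NAlg.count]⟩
  | succ n ih =>
    intro a
    obtain ⟨m1, h1⟩ := ih (a ++ [false])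
    obtain ⟨m2, h2⟩ := ih (a ++ [true])
    rcases hD : M.D (pairBits z a) with _ | ⟨c, q⟩
    · exact ⟨0, fun G G' _ => by simp only [NAlg.count, hD]⟩
    · cases c with
      | true => exact ⟨0, fun G G' _ => by simp only [NAlg.count, hD]⟩
      | false =>
        rcases q with _ | ⟨d, q⟩
        · refine ⟨max m1 m2, fun G G' hG => ?_⟩
          simp only [NAlg.count, hD]
          rw [h1 G G' (agree_mono (le_max_left _ _) hG), h2 G G' (agree_mono (le_max_right _ _) hG)]
        · refine ⟨max (max m1 m2) (q.length + 1), fun G G' hG => ?_⟩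
          simp only [NAlg.count, hD]
          have hq : orc G q = orc G' q :=
            orc_agree hG (lt_of_lt_of_le (Nat.lt_succ_self _) (le_max_right _ _))
          rw [hq]
          cases orc G' q with
          | false =>
            exact h1 G G' (agree_mono ((le_max_left _ _).trans (le_max_left _ _)) hG)
          | true =>
            exact h2 G G' (agree_mono ((le_max_right _ _).trans (le_max_left _ _)) hG)

/-- Simple facts on algorithms. -/
theorem taskAlg : TaskAlg := by
  refine ⟨fun M z => ?_, fun f x => ?_, fun f x A => ?_, fun f => f.out_length⟩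
  · obtain ⟨m1, h1⟩ := count_local M z true (M.p.eval z.length) []
    obtain ⟨m2, h2⟩ := count_local M z false (M.p.eval z.length) []
    exact ⟨max m1 m2, fun G G' hG => ⟨h1 G G' (agree_mono (le_max_left _ _) hG),
      h2 G G' (agree_mono (le_max_right _ _) hG)⟩⟩
  · obtain ⟨qb, hqb⟩ := f.out_local
    refine ⟨qb.eval x.length + 1, fun G G' hG => ?_⟩
    obtain ⟨Q, -, hQ, hA⟩ := hqb (orc G') x
    exact hA (orc G) fun q hq => orc_agree hG (Nat.lt_succ_of_le (hQ q hq))
  · obtain ⟨qb, hqb⟩ := f.out_local
    obtain ⟨Q, hQc, -, hA⟩ := hqb A x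
    exact ⟨Q, hQc, hA⟩

end Pool.Agent.H910R3.BP.Alg
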