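import Pool.Agent.H910R3.BP.Stmts

/-!
# Amplification task
-/

set_option autoImplicit false

namespace Pool.Agent.H910R3.BP.Amp

open Finset

variable {I T : Type} [Fintype I] [DecidableEq I] [Fintype T] [DecidableEq T]

/-- the amplified verdicts -/
def L' (L : Bool → T → Cfg I → Bool) : Bool → (Fin 4096 × (Fin 5 → T)) → Cfg I → Bool :=
  fun u p y => decide (∀ i, L u (p.2 i) y = true)

/-- the amplified query sets -/
def D' (D : T → Finset I) : (Fin 4096 × (Fin 5 → T)) → Finset I :=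
  fun p => univ.biUnion fun i => D (p.2 i)

theorem cnt_L' (L : Bool → T → Cfg I → Bool) (u : Bool) (y : Cfg I) :
    cnt (L' L) u y = 4096 * (cnt L u y) ^ 5 := by
  unfold cnt
  have h : (univ.filter fun p : Fin 4096 × (Fin 5 → T) => L' L u p y = true) =
      (univ : Finset (Fin 4096)) ×ˢ
        (Fintype.piFinset fun _ : Fin 5 => univ.filter fun a : T => L u a y = true) := by
    ext p
    simp [L', Fintype.mem_piFinset]
  rw [h, card_product, Fintype.card_piFinset]
  simp

theorem gap_of (L : Bool → T → Cfg I → Bool) (u : Bool) (y : Cfg I)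
    (h : 3 * cnt L (!u) y < cnt L u y) : Gap (L' L) u y := by
  unfold Gap
  rw [cnt_L', cnt_L']
  have h1 : (3 * cnt L (!u) y) ^ 5 ≤ (cnt L u y) ^ 5 := Nat.pow_le_pow_left h.le 5
  have h2 : 1 ≤ cnt L u y := by omega
  have h3 : 1 ≤ (cnt L u y) ^ 5 := Nat.one_le_pow _ _ h2
  refine ⟨?_, by omega⟩
  have h4 : (3 * cnt L (!u) y) ^ 5 = 243 * (cnt L (!u) y) ^ 5 := by ring
  rw [h4] at h1
  omega

theorem loc' {D : T → Finset I} {L : Bool → T → Cfg I → Bool} (h : Loc D L) :
    Loc (D' D) (L' L) := by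
  intro u p y y' hy
  unfold L'
  congr 1
  apply propext
  refine forall_congr' fun i => ?_
  rw [h u (p.2 i) y y' fun j hj => hy j (mem_biUnion.2 ⟨i, mem_univ _, hj⟩)]

theorem card_D' {D : T → Finset I} {s : ℕ} (h : ∀ a, (D a).card ≤ s)
    (p : Fin 4096 × (Fin 5 → T)) : (D' D p).card ≤ 5 * s := by
  unfold D'
  refine card_biUnion_le.trans ?_
  refine (sum_le_sum fun i _ => h (p.2 i)).trans ?_
  simp

theorem taskAmp : TaskAmp := by
  rintro ⟨C, k, H⟩
  refine ⟨C * 17 ^ k, k, ?_⟩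
  intro I T _ _ _ _ D L Z s hs hL hD hZ hT hI
  by_contra hcon
  push Not at hcon
  refine H I (Fin 4096 × (Fin 5 → T)) (D' D) (L' L) Z (17 * s) (by omega) (loc' hL)
    (fun a => (card_D' hD a).trans (by omega)) (by omega) ?_ ?_ ?_
  · have h1 : Fintype.card (Fin 4096 × (Fin 5 → T)) = 4096 * (Fintype.card T) ^ 5 := by
      rw [Fintype.card_prod, Fintype.card_fun]
      simp
    rw [h1]
    calc 4096 * (Fintype.card T) ^ 5 ≤ 2 ^ 12 * (2 ^ s) ^ 5 :=
          Nat.mul_le_mul (by norm_num) (Nat.pow_le_pow_left hT 5)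
      _ = 2 ^ (12 + s * 5) := by rw [← pow_mul, ← pow_add]
      _ ≤ 2 ^ (17 * s) := Nat.pow_le_pow_right (by norm_num) (by omega)
  · calc C * (17 * s) ^ k = C * 17 ^ k * s ^ k := by rw [mul_pow]; ring
      _ ≤ Fintype.card I := hI
  · intro y hy
    obtain ⟨h1, h2, h3⟩ := hcon y hy
    refine ⟨?_, ?_, ?_⟩
    · rcases h1 with h1 | h1
      · exact Or.inl (gap_of L true y h1)
      · exact Or.inr (gap_of L false y h1)
    · intro ha hb
      exact gap_of L true y (h2 ha hb)
    · intro ha hb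
      exact gap_of L false y (h3 ha hb)

end Pool.Agent.H910R3.BP.Amp
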