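import Pool.Agent.H910R3.BP.Stmts

/-!
# Comparison of two product measures
-/

set_option autoImplicit false

namespace Pool.Agent.H910R3.BP.Compare

open Finset

section

variable {I T : Type} [Fintype I] [DecidableEq I] [Fintype T]

theorem prod_le {μ μ' : I → Option Bool → ℝ} {β : ℝ} (hβ : 1 ≤ β) (h0 : ∀ i a, 0 ≤ μ i a)
    (h0' : ∀ i a, 0 ≤ μ' i a) (hle : ∀ i a, μ i a ≤ β * μ' i a) (W : Finset I) (v : Cfg I)
    {c : ℕ} (hc : W.card ≤ c) :
    ∏ i ∈ W, μ i (v i) ≤ β ^ c * ∏ i ∈ W, μ' i (v i) := by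
  have h1 : ∏ i ∈ W, μ i (v i) ≤ ∏ i ∈ W, (β * μ' i (v i)) :=
    prod_le_prod (fun i _ => h0 i _) (fun i _ => hle i _)
  have h2 : ∏ i ∈ W, (β * μ' i (v i)) = β ^ W.card * ∏ i ∈ W, μ' i (v i) := by
    rw [prod_mul_distrib, prod_const]
  have h3 : β ^ W.card ≤ β ^ c := pow_le_pow_right₀ hβ hc
  have h4 : 0 ≤ ∏ i ∈ W, μ' i (v i) := prod_nonneg fun i _ => h0' i _
  calc ∏ i ∈ W, μ i (v i) ≤ β ^ W.card * ∏ i ∈ W, μ' i (v i) := by rw [← h2]; exact h1
    _ ≤ β ^ c * ∏ i ∈ W, μ' i (v i) := mul_le_mul_of_nonneg_right h3 h4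

theorem Ex_pair_le {μ μ' : I → Option Bool → ℝ} {β : ℝ} (hβ : 1 ≤ β) (h0 : ∀ i a, 0 ≤ μ i a)
    (h0' : ∀ i a, 0 ≤ μ' i a) (h1 : ∀ i, ∑ a, μ i a = 1) (h1' : ∀ i, ∑ a, μ' i a = 1)
    (hle : ∀ i a, μ i a ≤ β * μ' i a) (W W' : Finset I) (v v' : Cfg I)
    {c : ℕ} (hc : W.card ≤ c) (hc' : W'.card ≤ c) :
    Ex μ (fun y => (if Cyl W v y then 1 else 0) * (if Cyl W' v' y then 1 else 0)) ≤
      β ^ (2 * c) *
        Ex μ' (fun y => (if Cyl W v y then 1 else 0) * (if Cyl W' v' y then 1 else 0)) := by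
  by_cases hex : ∃ y0 : Cfg I, Cyl W v y0 ∧ Cyl W' v' y0
  · obtain ⟨y0, hy, hy'⟩ := hex
    have e : (fun y : Cfg I => (if Cyl W v y then (1 : ℝ) else 0) *
        (if Cyl W' v' y then 1 else 0)) = fun y => if Cyl (W ∪ W') y0 y then 1 else 0 := by
      funext y
      by_cases h : Cyl (W ∪ W') y0 y
      · have ha : Cyl W v y := fun i hi => by
          rw [h i (mem_union_left _ hi), hy i hi]
        have hb : Cyl W' v' y := fun i hi => by
          rw [h i (mem_union_right _ hi), hy' i hi]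
        rw [if_pos ha, if_pos hb, if_pos h, one_mul]
      · rw [if_neg h]
        by_cases ha : Cyl W v y
        · by_cases hb : Cyl W' v' y
          · exfalso
            apply h
            intro i hi
            rcases mem_union.1 hi with hi | hi
            · rw [ha i hi, hy i hi]
            · rw [hb i hi, hy' i hi]
          · rw [if_neg hb, mul_zero]
        · rw [if_neg ha, zero_mul]
    rw [e, Ex_cyl h1, Ex_cyl h1']
    refine prod_le hβ h0 h0' hle _ _ ?_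
    calc (W ∪ W').card ≤ W.card + W'.card := card_union_le _ _
      _ ≤ 2 * c := by omega
  · have e : (fun y : Cfg I => (if Cyl W v y then (1 : ℝ) else 0) *
        (if Cyl W' v' y then 1 else 0)) = fun _ => 0 := by
      funext y
      by_cases ha : Cyl W v y
      · by_cases hb : Cyl W' v' y
        · exact absurd ⟨y, ha, hb⟩ hex
        · rw [if_neg hb, mul_zero]
      · rw [if_neg ha, zero_mul]
    rw [e, Ex_const h1, Ex_const h1', mul_zero]

theorem Ex_sq (D : T → Finset I) (μ : I → Option Bool → ℝ) (w : T × Cfg I → ℝ) :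
    Ex μ (fun y => (Uw D w y) ^ 2) = ∑ ρ, ∑ ρ', w ρ * w ρ' *
      Ex μ (fun y => (if Cyl (D ρ.1) ρ.2 y then 1 else 0) *
        (if Cyl (D ρ'.1) ρ'.2 y then 1 else 0)) := by
  have e : (fun y => (Uw D w y) ^ 2) = fun y => ∑ ρ, ∑ ρ', w ρ * w ρ' *
      ((if Cyl (D ρ.1) ρ.2 y then 1 else 0) * (if Cyl (D ρ'.1) ρ'.2 y then 1 else 0)) := by
    funext y
    rw [sq, Uw, Finset.sum_mul_sum]
    exact sum_congr rfl fun ρ _ => sum_congr rfl fun ρ' _ => by ring
  rw [e, Ex_sum]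
  refine sum_congr rfl fun ρ _ => ?_
  rw [Ex_sum]
  refine sum_congr rfl fun ρ' _ => ?_
  rw [← Ex_smul]

end

theorem taskCompare : TaskCompare := by
  intro I T _ _ _ _ D μ μ' β c w hβ h0 h0' h1 h1' hle hc hw
  constructor
  · unfold mass
    rw [mul_sum]
    refine sum_le_sum fun ρ _ => ?_
    have := prod_le hβ h0 h0' hle (D ρ.1) ρ.2 (hc ρ.1)
    calc w ρ * Pm D μ ρ ≤ w ρ * (β ^ c * Pm D μ' ρ) := mul_le_mul_of_nonneg_left this (hw ρ)
      _ = β ^ c * (w ρ * Pm D μ' ρ) := by ring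
  · rw [Ex_sq, Ex_sq, mul_sum]
    refine sum_le_sum fun ρ _ => ?_
    rw [mul_sum]
    refine sum_le_sum fun ρ' _ => ?_
    have := Ex_pair_le hβ h0 h0' h1 h1' hle (D ρ.1) (D ρ'.1) ρ.2 ρ'.2 (hc ρ.1) (hc ρ'.1)
    calc _ ≤ w ρ * w ρ' * (β ^ (2 * c) *
        Ex μ' (fun y => (if Cyl (D ρ.1) ρ.2 y then 1 else 0) *
          (if Cyl (D ρ'.1) ρ'.2 y then 1 else 0))) :=
          mul_le_mul_of_nonneg_left this (mul_nonneg (hw ρ) (hw ρ'))
      _ = _ := by ring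

end Pool.Agent.H910R3.BP.Compare
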