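import Pool.Agent.H910R3.BP.Main

set_option autoImplicit false

namespace Pool.Agent.H910R3.BP

open Finset

section

variable {I T : Type} [Fintype I] [DecidableEq I] [Fintype T] [DecidableEq T]

/-- If outside of `S` there is no `some b`, and at least `4 |S| + 1` cells are `some !b`. -/
theorem nd_of_end {S : Finset I} {y : Cfg I} {b : Bool} (h1 : ∀ i, i ∉ S → y i ≠ some b)
    (h2 : 4 * S.card + 1 ≤ (univ.filter fun i => i ∉ S ∧ y i = some !b).card) :
    4 * nd b y ≤ nd (!b) y ∧ 1 ≤ nd (!b) y := by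
  have h3 : nd b y ≤ S.card := by
    unfold nd
    apply card_le_card
    intro i hi
    rw [mem_filter] at hi
    by_contra hc
    exact h1 i hc hi.2
  have h4 : (univ.filter fun i => i ∉ S ∧ y i = some !b).card ≤ nd (!b) y := by
    unfold nd
    apply card_le_card
    intro i hi
    rw [mem_filter] at hi ⊢
    exact ⟨hi.1, hi.2.2⟩
  omega

theorem mem_PP {g j : ℕ} {u : Bool} (h : j ≤ g) : (j, u) ∈ PP g := by
  unfold PP
  rw [mem_product, mem_range]
  exact ⟨by simpa using Nat.lt_succ_of_le h, mem_univ _⟩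

open Classical in
theorem contra (K : Tasks) (P : Par) (D : T → Finset I) (L : Bool → T → Cfg I → Bool)
    (hL : Loc D L) (hD : ∀ a, (D a).card ≤ P.s) (hT : Fintype.card T ≤ 2 ^ P.s) (Z : Finset I)
    (hZ : Z.card ≤ P.s)
    (h0 : (Fintype.card I : ℝ) * bg P.τ (P.t 0) (some true) ≤ 1 / 100)
    (h0' : ∀ S : Finset I, S.card ≤ P.s + P.nmax * (2 * P.s + 1) →
      8 * (S.card : ℝ) + 12 ≤ ((Fintype.card I : ℝ) - S.card) * bg P.τ (P.t 0) (some false))
    (h1 : (Fintype.card I : ℝ) * bg P.τ (P.t P.g) (some false) ≤ 1 / 100)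
    (h1' : ∀ S : Finset I, S.card ≤ P.s + P.nmax * (2 * P.s + 1) →
      8 * (S.card : ℝ) + 12 ≤ ((Fintype.card I : ℝ) - S.card) * bg P.τ (P.t P.g) (some true)) :
    ¬ ∀ y : Cfg I, (∀ i ∈ Z, y i = none) →
      (Gap L true y ∨ Gap L false y) ∧
      (4 * nd false y ≤ nd true y → 1 ≤ nd true y → Gap L true y) ∧
      (4 * nd true y ≤ nd false y → 1 ≤ nd false y → Gap L false y) := by
  intro hG
  obtain ⟨S, x, M, hZS, hxZ, hcard, htail, hlow⟩ := facts K P D L hL hD hT Z
  have hcard' : S.card ≤ P.s + P.nmax * (2 * P.s + 1) := by omega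
  -- the configurations
  have hY : ∀ j, ∃ y : Cfg I, j ≤ P.g → (∀ i ∈ S, y i = x i) ∧
      (∀ u, U L u y < 16 * (M (j, u) + 1)) ∧
      (j + 1 ≤ P.g → 100 ≤ M (j + 1, true) → M (j + 1, true) / 4 ≤ U L true y) ∧
      (∀ k, k + 1 = j → 100 ≤ M (k, false) → M (k, false) / 4 ≤ U L false y) ∧
      (j = 0 → (∀ i, i ∉ S → y i ≠ some true) ∧
        4 * S.card + 1 ≤ (univ.filter fun i => i ∉ S ∧ y i = some !true).card) ∧
      (j = P.g → (∀ i, i ∉ S → y i ≠ some false) ∧
        4 * S.card + 1 ≤ (univ.filter fun i => i ∉ S ∧ y i = some !false).card) := by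
    intro j
    by_cases hj : j ≤ P.g
    swap
    · exact ⟨x, fun h => absurd h hj⟩
    have hm0 := P.m0 S x j
    have hs1 := M0_sum P.τ (P.t j) S x
    have hz : Ex (M0 P.τ (P.t j) S x) (fun _ => (0 : ℝ)) = 0 := by
      rw [Ex_const hs1]
    set B : Fin 5 → Cfg I → Prop := ![
      fun y => 16 * (M (j, true) + 1) ≤ U L true y,
      fun y => 16 * (M (j, false) + 1) ≤ U L false y,
      fun y => j + 1 ≤ P.g ∧ 100 ≤ M (j + 1, true) ∧ U L true y < M (j + 1, true) / 4,
      fun y => ∃ k, k + 1 = j ∧ 100 ≤ M (k, false) ∧ U L false y < M (k, false) / 4,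
      fun y => (j = 0 ∧ ¬ ((∀ i, i ∉ S → y i ≠ some true) ∧
        4 * S.card + 1 ≤ (univ.filter fun i => i ∉ S ∧ y i = some !true).card)) ∨
        (j = P.g ∧ ¬ ((∀ i, i ∉ S → y i ≠ some false) ∧
        4 * S.card + 1 ≤ (univ.filter fun i => i ∉ S ∧ y i = some !false).card))] with hB
    have e0 : Ex (M0 P.τ (P.t j) S x) (fun y => if B 0 y then 1 else 0) < 1 / 8 := by
      refine lt_of_le_of_lt (Ex_mono hm0 fun y => ?_) (htail (j, true) (mem_PP hj)).2
      by_cases h : B 0 y
      · rw [if_pos h, if_pos (show 16 * (M (j, true) + 1) ≤ U L true y from h)]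
      · rw [if_neg h]
        split_ifs <;> norm_num
    have e1 : Ex (M0 P.τ (P.t j) S x) (fun y => if B 1 y then 1 else 0) < 1 / 8 := by
      refine lt_of_le_of_lt (Ex_mono hm0 fun y => ?_) (htail (j, false) (mem_PP hj)).2
      by_cases h : B 1 y
      · rw [if_pos h, if_pos (show 16 * (M (j, false) + 1) ≤ U L false y from h)]
      · rw [if_neg h]
        split_ifs <;> norm_num
    have e2 : Ex (M0 P.τ (P.t j) S x) (fun y => if B 2 y then 1 else 0) ≤ 1 / 5 := by
      by_cases hc : j + 1 ≤ P.g ∧ 100 ≤ M (j + 1, true)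
      · refine le_trans (Ex_mono hm0 fun y => ?_)
          (hlow (j + 1, true) (mem_PP hc.1) hc.2 j (Or.inl rfl))
        by_cases h : B 2 y
        · rw [if_pos h, if_pos h.2.2]
        · rw [if_neg h]
          split_ifs <;> norm_num
      · refine le_trans (Ex_mono (G := fun _ => 0) hm0 fun y => ?_) (by rw [hz]; norm_num)
        rw [if_neg]
        intro h
        exact hc ⟨h.1, h.2.1⟩
    have e3 : Ex (M0 P.τ (P.t j) S x) (fun y => if B 3 y then 1 else 0) ≤ 1 / 5 := by
      by_cases hc : ∃ k, k + 1 = j ∧ 100 ≤ M (k, false)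
      · obtain ⟨k, hk, hM⟩ := hc
        refine le_trans (Ex_mono hm0 fun y => ?_)
          (hlow (k, false) (mem_PP (by omega)) hM j (Or.inr hk.symm))
        by_cases h : B 3 y
        · obtain ⟨k', hk', _, h3⟩ := h
          have : k' = k := by omega
          subst this
          rw [if_pos (show B 3 y from ⟨k', hk', hM, h3⟩), if_pos h3]
        · rw [if_neg h]
          split_ifs <;> norm_num
      · refine le_trans (Ex_mono (G := fun _ => 0) hm0 fun y => ?_) (by rw [hz]; norm_num)
        rw [if_neg]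
        rintro ⟨k, h1, h2, _⟩
        exact hc ⟨k, h1, h2⟩
    have e4 : Ex (M0 P.τ (P.t j) S x) (fun y => if B 4 y then 1 else 0) ≤ 1 / 20 := by
      by_cases hj0 : j = 0
      · have hjg : j ≠ P.g := by have := P.hg; omega
        have := K.fin I P.τ (P.t 0) S x true P.τ0 P.τ1 (P.t0 0) (P.t1 0) h0 (h0' S hcard')
        rw [hj0]
        rw [hj0] at hm0
        refine le_trans (Ex_mono hm0 fun y => ?_) this
        by_cases h : (∀ i, i ∉ S → y i ≠ some true) ∧
          4 * S.card + 1 ≤ (univ.filter fun i => i ∉ S ∧ y i = some !true).card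
        · have hn : ¬ B 4 y := by
            rintro (h' | h')
            · exact h'.2 h
            · exact hjg h'.1
          rw [if_neg hn]
          split_ifs <;> norm_num
        · rw [if_neg h]
          split_ifs <;> norm_num
      · by_cases hjg : j = P.g
        · have := K.fin I P.τ (P.t P.g) S x false P.τ0 P.τ1 (P.t0 _) (P.t1 _) h1 (h1' S hcard')
          rw [hjg]
          rw [hjg] at hm0
          refine le_trans (Ex_mono hm0 fun y => ?_) this
          by_cases h : (∀ i, i ∉ S → y i ≠ some false) ∧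
            4 * S.card + 1 ≤ (univ.filter fun i => i ∉ S ∧ y i = some !false).card
          · have hn : ¬ B 4 y := by
              rintro (h' | h')
              · exact hj0 h'.1
              · exact h'.2 h
            rw [if_neg hn]
            split_ifs <;> norm_num
          · rw [if_neg h]
            split_ifs <;> norm_num
        · refine le_trans (Ex_mono (G := fun _ => 0) hm0 fun y => ?_) (by rw [hz]; norm_num)
          rw [if_neg]
          rintro (h' | h')
          · exact hj0 h'.1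
          · exact hjg h'.1
    obtain ⟨y, hy1, hy2⟩ := exists_good hm0 hs1 B (by
      rw [Fin.sum_univ_five]
      linarith)
    refine ⟨y, fun _ => ⟨wt_pos_eq hy1, ?_, ?_, ?_, ?_, ?_⟩⟩
    · intro u
      cases u
      · have := hy2 1
        simpa [hB] using this
      · have := hy2 0
        simpa [hB] using this
    · intro h2 h3
      by_contra hc
      push Not at hc
      exact hy2 2 ⟨h2, h3, hc⟩
    · intro k h2 h3
      by_contra hc
      push Not at hc
      exact hy2 3 ⟨k, h2, h3, hc⟩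
    · intro h2
      by_contra hc
      exact hy2 4 (Or.inl ⟨h2, hc⟩)
    · intro h2
      by_contra hc
      exact hy2 4 (Or.inr ⟨h2, hc⟩)
  choose Y hY using hY
  have hYZ : ∀ j, j ≤ P.g → ∀ i ∈ Z, Y j i = none := fun j hj i hi => by
    rw [(hY j hj).1 i (hZS hi), hxZ i hi]
  have hY0 : Gap L false (Y 0) := by
    obtain ⟨h2, h3⟩ := (hY 0 (Nat.zero_le _)).2.2.2.2.1 rfl
    obtain ⟨h4, h5⟩ := nd_of_end h2 h3
    exact (hG (Y 0) (hYZ 0 (Nat.zero_le _))).2.2 h4 h5
  have hYg : Gap L true (Y P.g) := by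
    obtain ⟨h2, h3⟩ := (hY P.g le_rfl).2.2.2.2.2 rfl
    obtain ⟨h4, h5⟩ := nd_of_end h2 h3
    exact (hG (Y P.g) (hYZ P.g le_rfl)).2.1 h4 h5
  have hexcl : ∀ y, Gap L true y → Gap L false y → False := by
    intro y h2 h3
    unfold Gap at h2 h3
    simp only [Bool.not_true, Bool.not_false] at h2 h3
    omega
  have hstep : ∃ j, j < P.g ∧ Gap L false (Y j) ∧ Gap L true (Y (j + 1)) := by
    by_contra hc
    push Not at hc
    have hall : ∀ j, j ≤ P.g → Gap L false (Y j) := by
      intro j
      induction j with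
      | zero => exact fun _ => hY0
      | succ j ih =>
        intro hj
        have h2 := hc j (by omega) (ih (by omega))
        rcases (hG (Y (j + 1)) (hYZ _ hj)).1 with h3 | h3
        · exact absurd h3 h2
        · exact h3
    exact hexcl _ hYg (hall P.g le_rfl)
  obtain ⟨j, hj, hf, ht⟩ := hstep
  have hc1 : ∀ u y, (cnt L u y : ℝ) = U L u y := fun u y => (U_eq_cnt L u y).symm
  unfold Gap at hf ht
  simp only [Bool.not_true, Bool.not_false] at hf ht
  have a1 : 243 * U L true (Y j) ≤ U L false (Y j) := by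
    rw [← hc1, ← hc1]; exact_mod_cast hf.1
  have a2 : 4096 ≤ U L false (Y j) := by
    rw [← hc1]; exact_mod_cast hf.2
  have b1 : 243 * U L false (Y (j + 1)) ≤ U L true (Y (j + 1)) := by
    rw [← hc1, ← hc1]; exact_mod_cast ht.1
  have b2 : 4096 ≤ U L true (Y (j + 1)) := by
    rw [← hc1]; exact_mod_cast ht.2
  have c1 := (hY j hj.le).2.1 false
  have c2 := (hY (j + 1) hj).2.1 true
  have c3 := (hY j hj.le).2.2.1 hj (by linarith)
  have c4 := (hY (j + 1) hj).2.2.2.1 j rfl (by linarith)
  linarith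

end

end Pool.Agent.H910R3.BP
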