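import Pool.Agent.H910R3.BP.Orc

/-!
# Counting the computation paths of the algorithm for region `i`
-/

set_option autoImplicit false

namespace Pool.Agent.H910R3.BP.Count

open Finset Pool.Agent.NPC Pool.Agent.H620R2.Gauge Pool.Agent.H910R3.BP

variable {M : NAlg} {A : Oracle} {x : List Bool} {i : ℕ}

theorem count_succ (hD : ∀ a, M.D (pairBits x a) = dact i x a) (v : Bool) (k : ℕ) (a : List Bool) :
    M.count A x v (k + 1) a = match dact i x a with
      | [] => if v then 0 else 1
      | true :: _ => if v then 1 else 0
      | [false] => M.count A x v k (a ++ [false]) + M.count A x v k (a ++ [true])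
      | false :: _ :: q => M.count A x v k (a ++ [A q]) := by
  rw [NAlg.count, hD]
  generalize dact i x a = d
  rcases d with _ | ⟨_ | _, _ | ⟨_, _⟩⟩ <;> rfl

/-- the verdict of the last phase -/
theorem phase_end (hD : ∀ a, M.D (pairBits x a) = dact i x a) (v : Bool) (k : ℕ) (a : List Bool)
    (ha : 2 * x.length + 4 ≤ a.length) (h1 : a.getD x.length false = true) :
    M.count A x v (k + 1) a = if a.getD (x.length + 1) false = v then 1 else 0 := by
  have e : dact i x a = if a.getD (x.length + 1) false = true then [true] else [] := by
    unfold dact
    rw [if_neg (by omega), if_neg (by omega), if_neg (by rw [h1]; simp), if_neg (by omega),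
      if_neg (by omega)]
  rw [count_succ hD, e]
  cases h : a.getD (x.length + 1) false <;> cases v <;> simp

theorem phase_branch (hD : ∀ a, M.D (pairBits x a) = dact i x a) (v : Bool) (m : ℕ) :
    ∀ (k : ℕ) (a : List Bool), x.length + 2 ≤ a.length → a.length + m = 2 * x.length + 4 →
      a.getD x.length false = true → m + 1 ≤ k →
      M.count A x v k a = if a.getD (x.length + 1) false = v then 2 ^ m else 0 := by
  induction m with
  | zero =>
    intro k a h1 h2 h3 h4
    obtain ⟨k, rfl⟩ : ∃ k', k = k' + 1 := ⟨k - 1, by omega⟩
    rw [phase_end hD v k a (by omega) h3, pow_zero]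
  | succ m ih =>
    intro k a h1 h2 h3 h4
    obtain ⟨k, rfl⟩ : ∃ k', k = k' + 1 := ⟨k - 1, by omega⟩
    have e : dact i x a = [false] := by
      unfold dact
      rw [if_neg (by omega), if_neg (by omega), if_neg (by rw [h3]; simp), if_neg (by omega),
        if_pos (by omega)]
    have g : ∀ (b : Bool) (l : ℕ), l < a.length → (a ++ [b]).getD l false = a.getD l false := by
      intro b l hl
      rw [List.getD_append _ _ _ _ hl]
    rw [count_succ hD, e]
    simp only
    rw [ih k (a ++ [false]) (by simp; omega) (by simp; omega) (by rw [g _ _ (by omega), h3])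
        (by omega),
      ih k (a ++ [true]) (by simp; omega) (by simp; omega) (by rw [g _ _ (by omega), h3])
        (by omega), g _ _ (by omega), g _ _ (by omega)]
    split_ifs
    · rw [pow_succ]; ring
    · rfl

/-- the contribution of the cell `w` -/
def f (A : Oracle) (i n : ℕ) (v : Bool) (w : List Bool) : ℕ :=
  if A (qry i true w) = true then (if A (qry i false w) = v then 2 ^ (n + 2) else 0)
  else (if v then 0 else 1)

theorem phase_cell (hD : ∀ a, M.D (pairBits x a) = dact i x a) (v : Bool) (k : ℕ) (a : List Bool)
    (ha : a.length = x.length) (hk : x.length + 5 ≤ k) :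
    M.count A x v k a = f A i x.length v a := by
  obtain ⟨k, rfl⟩ : ∃ k', k = k' + 1 := ⟨k - 1, by omega⟩
  have e : dact i x a = false :: false :: qry i true a := by
    unfold dact
    rw [if_neg (by omega), if_pos ha, ← ha, List.take_length]
  rw [count_succ hD, e]
  simp only
  obtain ⟨k, rfl⟩ : ∃ k', k = k' + 1 := ⟨k - 1, by omega⟩
  have l1 : (a ++ [A (qry i true a)]).length = x.length + 1 := by simp [ha]
  have g1 : (a ++ [A (qry i true a)]).getD x.length false = A (qry i true a) := by
    rw [← ha, List.getD_append_right _ _ _ _ (le_refl _)]; simp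
  unfold f
  cases hA : A (qry i true a) with
  | false =>
    rw [hA] at g1 l1
    have e2 : dact i x (a ++ [false]) = [] := by
      unfold dact
      rw [if_neg (by omega), if_neg (by omega), if_pos g1]
    rw [count_succ hD, e2]
    simp
  | true =>
    rw [hA] at g1 l1
    have e2 : dact i x (a ++ [true]) = false :: false :: qry i false a := by
      unfold dact
      rw [if_neg (by omega), if_neg (by omega), if_neg (by rw [g1]; simp), if_pos l1,
        ← ha, List.take_left']
      rfl
    rw [count_succ hD, e2]
    simp only
    have g2 : ∀ b : Bool, (a ++ [true] ++ [b]).getD x.length false = true := by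
      intro b
      rw [List.getD_append _ _ _ _ (by rw [l1]; omega), g1]
    have g3 : ∀ b : Bool, (a ++ [true] ++ [b]).getD (x.length + 1) false = b := by
      intro b
      rw [← l1, List.getD_append_right _ _ _ _ (le_refl _)]; simp
    rw [phase_branch hD v (x.length + 2) k _ (by simp [ha]) (by simp [ha]; omega) (g2 _)
      (by omega), g3]
    simp

/-- the sum over the cells of length `m` -/
theorem sum_cell_succ (m : ℕ) (F : List Bool → ℕ) :
    ∑ c : Cell (m + 1), F c.1 = (∑ c : Cell m, F (false :: c.1)) + ∑ c : Cell m, F (true :: c.1) := by
  let e : Cell (m + 1) ≃ Bool × Cell m :=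
    { toFun := fun c => (c.head, c.tail)
      invFun := fun p => List.Vector.cons p.1 p.2
      left_inv := fun c => List.Vector.cons_head_tail c
      right_inv := fun p => by simp }
  rw [← Equiv.sum_comp e.symm, Fintype.sum_prod_type, Fintype.sum_bool, add_comm]
  rfl

theorem phase_guess (hD : ∀ a, M.D (pairBits x a) = dact i x a) (v : Bool) (m : ℕ) :
    ∀ (k : ℕ) (a : List Bool), a.length + m = x.length → m + x.length + 5 ≤ k →
      M.count A x v k a = ∑ c : Cell m, f A i x.length v (a ++ c.1) := by
  induction m with
  | zero =>
    intro k a h1 h2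
    rw [phase_cell hD v k a (by omega) (by omega)]
    have : (Finset.univ : Finset (Cell 0)) = {List.Vector.nil} := by
      ext c; simp [List.Vector.eq_nil c]
    rw [this, Finset.sum_singleton]
    simp [List.Vector.nil]
  | succ m ih =>
    intro k a h1 h2
    obtain ⟨k, rfl⟩ : ∃ k', k = k' + 1 := ⟨k - 1, by omega⟩
    have e : dact i x a = [false] := by
      unfold dact
      rw [if_pos (by omega)]
    rw [count_succ hD, e]
    simp only
    rw [ih k (a ++ [false]) (by simp; omega) (by omega),
      ih k (a ++ [true]) (by simp; omega) (by omega),
      sum_cell_succ m (fun w => f A i x.length v (a ++ w))]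
    simp

theorem lead_rep (j : ℕ) (b : Bool) (w : List Bool) :
    lead (List.replicate j true ++ false :: b :: w) = j := by
  induction j with
  | zero => simp [lead]
  | succ j ih => rw [List.replicate_succ, List.cons_append, lead, ih]

theorem orc_qry_true (G : ℕ → List Bool → Option Bool) (i : ℕ) (w : List Bool) :
    orc G (qry i true w) = (G i w).isSome := by
  unfold orc bitOf cellW qry
  rw [lead_rep]
  have h1 : (List.replicate i true ++ false :: true :: w).drop (i + 1) = true :: w := by
    rw [← List.drop_drop, List.drop_left' (by simp)]; rfl
  have h2 : (List.replicate i true ++ false :: true :: w).drop (i + 2) = w := by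
    rw [← List.drop_drop, List.drop_left' (by simp)]; rfl
  rw [h1, h2]; simp

theorem orc_qry_false (G : ℕ → List Bool → Option Bool) (i : ℕ) (w : List Bool) :
    orc G (qry i false w) = (G i w == some true) := by
  unfold orc bitOf cellW qry
  rw [lead_rep]
  have h1 : (List.replicate i true ++ false :: false :: w).drop (i + 1) = false :: w := by
    rw [← List.drop_drop, List.drop_left' (by simp)]; rfl
  have h2 : (List.replicate i true ++ false :: false :: w).drop (i + 2) = w := by
    rw [← List.drop_drop, List.drop_left' (by simp)]; rfl
  rw [h1, h2]; simp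

theorem f_orc (G : ℕ → List Bool → Option Bool) (i n : ℕ) (v : Bool) (w : List Bool) :
    f (orc G) i n v w = (if G i w = some v then 2 ^ (n + 2) else 0) +
      (if v then 0 else (if G i w = none then 1 else 0)) := by
  unfold f
  rw [orc_qry_true, orc_qry_false]
  rcases h : G i w with _ | b
  · cases v <;> simp
  · cases b <;> cases v <;> simp

theorem sum_f (G : ℕ → List Bool → Option Bool) (i n N : ℕ) (v : Bool) :
    ∑ c : Cell n, f (orc G) i N v c.1 = nd v (reg G i n) * 2 ^ (N + 2) +
      (if v then 0 else (univ.filter fun c : Cell n => reg G i n c = none).card) := by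
  simp only [f_orc, Finset.sum_add_distrib]
  congr 1
  · unfold nd reg
    rw [Finset.sum_ite, Finset.sum_const_zero, add_zero, Finset.sum_const, smul_eq_mul]
  · cases v
    · simp only [Bool.false_eq_true, if_false]
      rw [Finset.card_filter]
      refine Finset.sum_congr rfl fun c _ => ?_
      unfold reg
      by_cases h : G i c.1 = none
      · rw [if_pos h]
      · rw [if_neg h]
    · simp


theorem card_split {n : ℕ} (y : Cfg (Cell n)) :
    nd true y + nd false y + (univ.filter fun c : Cell n => y c = none).card = 2 ^ n := by
  have h : (univ : Finset (Cell n)).card = 2 ^ n := by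
    rw [Finset.card_univ, card_vector, Fintype.card_bool]
  rw [← h]
  unfold nd
  rw [← Finset.card_union_of_disjoint, ← Finset.card_union_of_disjoint]
  · congr 1
    ext c
    rcases hc : y c with _ | _ | _ <;> simp [hc]
  · rw [Finset.disjoint_left]
    intro c hc hc'
    simp only [Finset.mem_union, Finset.mem_filter, Finset.mem_univ, true_and] at hc hc'
    rw [hc'] at hc
    simp at hc
  · rw [Finset.disjoint_left]
    intro c hc hc'
    simp only [Finset.mem_filter, Finset.mem_univ, true_and] at hc hc'
    rw [hc'] at hc
    simp at hc

theorem taskCount : TaskCount := by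
  intro i M G x hD hN
  have key : ∀ v : Bool, M.count (orc G) x v (M.p.eval x.length) [] =
      nd v (reg G i x.length) * 2 ^ (x.length + 2) +
      (if v then 0 else (univ.filter fun c : Cell x.length => reg G i x.length c = none).card) := by
    intro v
    rw [phase_guess hD v x.length _ [] (by simp) (by omega)]
    simp only [List.nil_append]
    exact sum_f G i x.length x.length v
  have hc := card_split (reg G i x.length)
  refine ⟨?_, ?_, by omega⟩
  · unfold NAlg.acc
    rw [key true]; simp
  · unfold NAlg.rej
    rw [key false]
    simp only [Bool.false_eq_true, if_false]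
    omega

end Pool.Agent.H910R3.BP.Count
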