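import Pool.Agent.H910R3.BP.Stmts

/-!
# Endpoints: union bound and exponential moment
-/

set_option autoImplicit false

namespace Pool.Agent.H910R3.BP.End

open Finset Pool.Agent.H910R3.BP

theorem exp_neg_six : Real.exp (-6) ≤ 1 / 100 := by
  have h1 : (2.7182818283 : ℝ) < Real.exp 1 := Real.exp_one_gt_d9
  have h2 : Real.exp 6 = Real.exp 1 ^ 6 := by
    rw [← Real.exp_nat_mul]; norm_num
  have h3 : (100 : ℝ) ≤ Real.exp 6 := by
    rw [h2]
    calc (100 : ℝ) ≤ (2.7182818283 : ℝ) ^ 6 := by norm_num
      _ ≤ Real.exp 1 ^ 6 := by gcongr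
  rw [Real.exp_neg, inv_eq_one_div]
  exact one_div_le_one_div_of_le (by norm_num) h3

theorem taskEnd : TaskEnd := by
  classical
  intro I _ _ τ t S x b hτ0 hτ1 ht0 ht1 h1 h2
  have hμ0 : ∀ i a, 0 ≤ M0 τ t S x i a := M0_nonneg hτ0.le hτ1.le ht0.le ht1.le S x
  have hμ1 : ∀ i, ∑ a, M0 τ t S x i a = 1 := M0_sum τ t S x
  have hr0 : 0 ≤ bg τ t (some b) := bg_nonneg hτ0.le hτ1.le ht0.le ht1.le _
  have hq0 : 0 ≤ bg τ t (some !b) := bg_nonneg hτ0.le hτ1.le ht0.le ht1.le _
  have hq1 : bg τ t (some !b) ≤ 1 := by
    rw [← bg_sum τ t]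
    exact single_le_sum (fun a _ => bg_nonneg hτ0.le hτ1.le ht0.le ht1.le a) (mem_univ _)
  have hScard : S.card ≤ Fintype.card I := card_le_univ S
  have hcompl : (Sᶜ.card : ℝ) = (Fintype.card I : ℝ) - S.card := by
    rw [card_compl, Nat.cast_sub hScard]
  set q : ℝ := bg τ t (some !b) with hq
  set r : ℝ := bg τ t (some b) with hr
  let g : I → Option Bool → ℝ := fun i a => if i ∉ S ∧ a = some !b then 1 / 2 else 1
  have hgpos : ∀ i a, 0 ≤ g i a := by
    intro i a
    simp only [g]
    split_ifs <;> norm_num
  refine le_trans (Ex_mono hμ0 (G := fun y =>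
    (∑ i ∈ Sᶜ, (if Cyl {i} (fun _ => some b) y then (1 : ℝ) else 0)) +
      2 ^ (4 * S.card) * ∏ i, g i (y i)) ?_) ?_
  · intro y
    have hg0 : 0 ≤ (2 : ℝ) ^ (4 * S.card) * ∏ i, g i (y i) :=
      mul_nonneg (by positivity) (prod_nonneg fun i _ => hgpos i (y i))
    have hs0 : 0 ≤ ∑ i ∈ Sᶜ, (if Cyl {i} (fun _ => some b) y then (1 : ℝ) else 0) :=
      sum_nonneg fun i _ => by split_ifs <;> norm_num
    split_ifs with h
    · linarith
    · rw [not_and_or] at h
      rcases h with h | h
      · push Not at h
        obtain ⟨i, hi, hb⟩ := h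
        have h3 : (1 : ℝ) ≤ ∑ i ∈ Sᶜ, (if Cyl {i} (fun _ => some b) y then (1 : ℝ) else 0) := by
          have h4 : (if Cyl {i} (fun _ => some b) y then (1 : ℝ) else 0) = 1 := by
            rw [if_pos]
            intro j hj
            rw [mem_singleton] at hj
            rw [hj]
            exact hb
          refine h4.ge.trans ?_
          exact single_le_sum
            (f := fun i => (if Cyl {i} (fun _ => some b) y then (1 : ℝ) else 0))
            (fun j _ => by split_ifs <;> norm_num) (mem_compl.2 hi)
        linarith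
      · push Not at h
        have h3 : ∏ i, g i (y i) = (1 / 2) ^ (univ.filter fun i => i ∉ S ∧ y i = some !b).card := by
          simp only [g]
          rw [Finset.prod_ite, prod_const, prod_const_one, mul_one]
        have h4 : (1 : ℝ) ≤ 2 ^ (4 * S.card) * ∏ i, g i (y i) := by
          rw [h3]
          have h5 : (univ.filter fun i => i ∉ S ∧ y i = some !b).card ≤ 4 * S.card := by
            have := h
            simp only [Nat.lt_succ_iff] at this
            convert this
          have h6 : ((1 : ℝ) / 2) ^ (4 * S.card) ≤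
              (1 / 2) ^ (univ.filter fun i => i ∉ S ∧ y i = some !b).card :=
            pow_le_pow_of_le_one (by norm_num) (by norm_num) h5
          calc (1 : ℝ) = 2 ^ (4 * S.card) * (1 / 2) ^ (4 * S.card) := by
                rw [← mul_pow]; norm_num
            _ ≤ _ := mul_le_mul_of_nonneg_left h6 (by positivity)
        linarith
  · rw [Ex_add, Ex_sum, Ex_smul, Ex_prod]
    have h3 : ∑ k ∈ Sᶜ, Ex (M0 τ t S x) (fun y => if Cyl {k} (fun _ => some b) y then 1 else 0) ≤
        1 / 100 := by
      have h4 : ∀ k ∈ Sᶜ, Ex (M0 τ t S x)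
          (fun y => if Cyl {k} (fun _ => some b) y then 1 else 0) = r := by
        intro k hk
        rw [Ex_cyl hμ1, prod_singleton]
        simp only [M0, if_neg (mem_compl.1 hk)]
        rfl
      rw [sum_congr rfl h4, sum_const, nsmul_eq_mul]
      refine le_trans (mul_le_mul_of_nonneg_right ?_ hr0) h1
      exact_mod_cast card_le_univ Sᶜ
    have h4 : ∏ i, ∑ a, M0 τ t S x i a * g i a = (1 - q / 2) ^ Sᶜ.card := by
      rw [← prod_subset (subset_univ Sᶜ)]
      · rw [← prod_const]
        refine prod_congr rfl fun i hi => ?_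
        have hi' := mem_compl.1 hi
        rw [Fintype.sum_option, Fintype.sum_bool]
        have hs := bg_sum τ t
        rw [Fintype.sum_option, Fintype.sum_bool] at hs
        simp only [M0, g, hi', not_false_eq_true, true_and, reduceCtorEq, if_false,
          Option.some.injEq, mul_one]
        rw [hq]
        cases b
        · simp
          linarith
        · simp
          linarith
      · intro i _ hi
        have hi' : i ∈ S := by simpa using hi
        have h5 : ∀ a, g i a = 1 := by
          intro a
          simp only [g]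
          rw [if_neg]
          rintro ⟨h, -⟩
          exact h hi'
        simp only [h5, mul_one]
        exact hμ1 i
    rw [h4]
    have h5 : (1 - q / 2) ^ Sᶜ.card ≤ Real.exp (-(4 * S.card + 6)) := by
      calc (1 - q / 2) ^ Sᶜ.card ≤ (Real.exp (-(q / 2))) ^ Sᶜ.card := by
            refine pow_le_pow_left₀ (by linarith) ?_ _
            have := Real.add_one_le_exp (-(q / 2))
            linarith
        _ = Real.exp (-(q / 2) * Sᶜ.card) := by
            rw [← Real.exp_nat_mul, mul_comm]
        _ ≤ Real.exp (-(4 * S.card + 6)) := by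
            apply Real.exp_le_exp.2
            rw [hcompl]
            nlinarith [h2]
    have h6 : (2 : ℝ) ^ (4 * S.card) ≤ Real.exp (4 * S.card) := by
      have h7 : (2 : ℝ) ≤ Real.exp 1 := by
        have := Real.add_one_le_exp (1 : ℝ)
        linarith
      calc (2 : ℝ) ^ (4 * S.card) ≤ (Real.exp 1) ^ (4 * S.card) := by gcongr
        _ = Real.exp (4 * S.card) := by
            rw [← Real.exp_nat_mul]
            congr 1
            push_cast
            ring
    have h7 : (2 : ℝ) ^ (4 * S.card) * (1 - q / 2) ^ Sᶜ.card ≤ 1 / 100 := by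
      calc (2 : ℝ) ^ (4 * S.card) * (1 - q / 2) ^ Sᶜ.card ≤
          Real.exp (4 * S.card) * Real.exp (-(4 * S.card + 6)) := by
            refine mul_le_mul h6 h5 ?_ (Real.exp_pos _).le
            exact pow_nonneg (by linarith) _
        _ = Real.exp (-6) := by
            rw [← Real.exp_add]
            congr 1
            ring
        _ ≤ 1 / 100 := exp_neg_six
    linarith

end Pool.Agent.H910R3.BP.End
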