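import Pool.Agent.H910R3.BP.Stmts

/-!
# TaskHeavy: the number of heavy cells and the loss when the paths with a needle in `F` are removed
-/

set_option autoImplicit false

namespace Pool.Agent.H910R3.BP.Heavy

open Finset Pool.Agent.H910R3.BP

theorem Pm_nonneg {I T : Type} [Fintype I] [DecidableEq I] [Fintype T] (D : T → Finset I)
    {μ : I → Option Bool → ℝ} (h : ∀ i a, 0 ≤ μ i a) (ρ : T × Cfg I) : 0 ≤ Pm D μ ρ :=
  prod_nonneg fun i _ => h i _

theorem res_pos {I T : Type} {w : T × Cfg I → ℝ} {q : T × Cfg I → Prop} {ρ : T × Cfg I} (h : q ρ) :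
    res w q ρ = w ρ := by
  unfold res; rw [if_pos h]

theorem res_neg {I T : Type} {w : T × Cfg I → ℝ} {q : T × Cfg I → Prop} {ρ : T × Cfg I} (h : ¬ q ρ) :
    res w q ρ = 0 := by
  unfold res; rw [if_neg h]

theorem res_nonneg {I T : Type} {w : T × Cfg I → ℝ} (q : T × Cfg I → Prop) {ρ : T × Cfg I} (h : 0 ≤ w ρ) :
    0 ≤ res w q ρ := by
  by_cases hq : q ρ
  · rw [res_pos hq]; exact h
  · rw [res_neg hq]

theorem taskHeavy : TaskHeavy := by
  classical
  intro I T _ _ _ _ D μ η F w c hμ hη hc hw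
  have hPm := Pm_nonneg D hμ
  constructor
  · intro hm
    have h1 : ∑ i, EM D μ w i ≤ c * mass D μ w := by
      unfold EM mass
      rw [sum_comm, mul_sum]
      apply sum_le_sum
      intro ρ _
      have h2 : ∀ i, res w (fun ρ => i ∈ D ρ.1 ∧ ρ.2 i = none) ρ * Pm D μ ρ
          ≤ (if i ∈ D ρ.1 then w ρ * Pm D μ ρ else 0) := by
        intro i
        have h3 : 0 ≤ w ρ * Pm D μ ρ := mul_nonneg (hw ρ) (hPm ρ)
        by_cases hi : i ∈ D ρ.1
        · rw [if_pos hi]
          by_cases h4 : ρ.2 i = none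
          · rw [res_pos (q := fun ρ => i ∈ D ρ.1 ∧ ρ.2 i = none) ⟨hi, h4⟩]
          · rw [res_neg (q := fun ρ => i ∈ D ρ.1 ∧ ρ.2 i = none) (fun h => h4 h.2), zero_mul]
            exact h3
        · rw [if_neg hi, res_neg (q := fun ρ => i ∈ D ρ.1 ∧ ρ.2 i = none) (fun h => hi h.1), zero_mul]
      refine (sum_le_sum fun i _ => h2 i).trans ?_
      rw [← sum_filter, sum_const, nsmul_eq_mul]
      apply mul_le_mul_of_nonneg_right _ (mul_nonneg (hw ρ) (hPm ρ))
      have h5 : (univ.filter fun i => i ∈ D ρ.1) = D ρ.1 := by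
        ext i; simp
      rw [h5]
      exact_mod_cast hc ρ.1
    have h0 : ∀ i, 0 ≤ EM D μ w i := fun i =>
      sum_nonneg fun ρ _ => mul_nonneg (res_nonneg _ (hw ρ)) (hPm ρ)
    have h6 : ((univ.filter fun i => η * mass D μ w ≤ EM D μ w i).card : ℝ) * (η * mass D μ w)
        ≤ ∑ i, EM D μ w i := by
      calc ((univ.filter fun i => η * mass D μ w ≤ EM D μ w i).card : ℝ) * (η * mass D μ w)
          = ∑ i ∈ univ.filter fun i => η * mass D μ w ≤ EM D μ w i, η * mass D μ w := by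
            rw [sum_const, nsmul_eq_mul]
        _ ≤ ∑ i ∈ univ.filter fun i => η * mass D μ w ≤ EM D μ w i, EM D μ w i :=
            sum_le_sum fun i hi => (mem_filter.mp hi).2
        _ ≤ ∑ i, EM D μ w i := sum_le_sum_of_subset_of_nonneg (filter_subset _ _) fun i _ _ => h0 i
    have h7 : (η * ((univ.filter fun i => η * mass D μ w ≤ EM D μ w i).card : ℝ)) * mass D μ w
        ≤ c * mass D μ w := by
      calc (η * ((univ.filter fun i => η * mass D μ w ≤ EM D μ w i).card : ℝ)) * mass D μ w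
          = ((univ.filter fun i => η * mass D μ w ≤ EM D μ w i).card : ℝ) * (η * mass D μ w) := by ring
        _ ≤ _ := h6.trans h1
    have h8 := le_of_mul_le_mul_right h7 hm
    convert h8 using 3
  · rw [sub_le_iff_le_add]
    unfold NH mass
    rw [sum_comm, ← sum_add_distrib]
    apply sum_le_sum
    intro ρ _
    have h4 : ∀ i, 0 ≤ res w (fun ρ => i ∈ D ρ.1 ∧ ρ.2 i ≠ none) ρ * Pm D μ ρ := fun i =>
      mul_nonneg (res_nonneg _ (hw ρ)) (hPm ρ)
    by_cases hq : ∀ i ∈ F, i ∈ D ρ.1 → ρ.2 i = none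
    · rw [res_pos (q := fun ρ => ∀ i ∈ F, i ∈ D ρ.1 → ρ.2 i = none) hq]
      have := sum_nonneg fun i (_ : i ∈ F) => h4 i
      linarith
    · rw [res_neg (q := fun ρ => ∀ i ∈ F, i ∈ D ρ.1 → ρ.2 i = none) hq, zero_mul, zero_add]
      push Not at hq
      obtain ⟨i, hiF, hiD, hne⟩ := hq
      have h5 := single_le_sum (f := fun i => res w (fun ρ => i ∈ D ρ.1 ∧ ρ.2 i ≠ none) ρ * Pm D μ ρ)
        (fun i _ => h4 i) hiF
      rw [res_pos (q := fun ρ => i ∈ D ρ.1 ∧ ρ.2 i ≠ none) ⟨hiD, hne⟩] at h5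
      exact h5

end Pool.Agent.H910R3.BP.Heavy
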