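import Pool.Agent.H910R3.BP.Orc

/-!
# Computation paths as transcripts (TaskLeaf)
-/

set_option autoImplicit false

namespace Pool.Agent.H910R3.BP.Leaf

open Finset Pool.Agent.NPC Pool.Agent.H620R2.Gauge

/-- The lists of length at most `n`. -/
def lists : ℕ → Finset (List Bool)
  | 0 => {[]}
  | n + 1 => insert [] (((lists n).image (List.cons true)) ∪ ((lists n).image (List.cons false)))

theorem card_lists (n : ℕ) : (lists n).card + 1 ≤ 2 ^ (n + 1) := by
  induction n with
  | zero => simp [lists]
  | succ n ih =>
    have h1 : (lists (n + 1)).card ≤ ((lists n).card + (lists n).card) + 1 := by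
      rw [lists]
      refine (card_insert_le _ _).trans ?_
      refine Nat.add_le_add_right ?_ 1
      refine (card_union_le _ _).trans ?_
      exact Nat.add_le_add card_image_le card_image_le
    have h2 : 2 ^ (n + 1 + 1) = 2 * 2 ^ (n + 1) := by ring
    omega

theorem card_step (n : ℕ) (P : List Bool → Prop) [DecidablePred P] :
    ((lists (n + 1)).filter P).card = (if P [] then 1 else 0) +
      ((lists n).filter (fun s => P (true :: s))).card +
      ((lists n).filter (fun s => P (false :: s))).card := by
  have e : (lists (n + 1)).filter P = (if P [] then {[]} else ∅) ∪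
      ((((lists n).filter (fun s => P (true :: s))).image (List.cons true)) ∪
      (((lists n).filter (fun s => P (false :: s))).image (List.cons false))) := by
    ext s
    rcases s with _ | ⟨b, s⟩
    · by_cases h : P [] <;> simp [lists, h]
    · by_cases h : P [] <;> cases b <;> simp [lists, h]
  rw [e, card_union_of_disjoint, card_union_of_disjoint, card_image_of_injective,
    card_image_of_injective]
  · by_cases h : P [] <;> simp [h, add_assoc]
  · exact List.cons_injective
  · exact List.cons_injective
  · rw [disjoint_left]
    intro s h1 h2
    simp only [mem_image, mem_filter] at h1 h2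
    obtain ⟨s1, _, rfl⟩ := h1
    obtain ⟨s2, _, h2⟩ := h2
    simp at h2
  · rw [disjoint_left]
    intro s h1 h2
    simp only [mem_union, mem_image, mem_filter] at h1 h2
    by_cases h : P []
    · simp only [h, if_true, mem_singleton] at h1
      subst h1
      rcases h2 with ⟨_, _, h2⟩ | ⟨_, _, h2⟩ <;> simp at h2
    · simp [h] at h1

/-- `s` is the remaining part of the history of a complete path with verdict `v`. -/
def leaf (M : NAlg) (A : Oracle) (z : List Bool) (v : Bool) : ℕ → List Bool → List Bool → Bool
  | 0, _, s => s.isEmpty && !v
  | n + 1, a, s =>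
    match M.D (pairBits z a) with
    | [] => s.isEmpty && !v
    | true :: _ => s.isEmpty && v
    | [false] =>
      match s with
      | [] => false
      | b :: s' => leaf M A z v n (a ++ [b]) s'
    | false :: _ :: q =>
      match s with
      | [] => false
      | b :: s' => (b == A q) && leaf M A z v n (a ++ [b]) s'

/-- The questions asked along `s`. -/
def qs (M : NAlg) (z : List Bool) : ℕ → List Bool → List Bool → Finset (List Bool)
  | 0, _, _ => ∅
  | n + 1, a, s =>
    match M.D (pairBits z a) with
    | [] => ∅
    | true :: _ => ∅
    | [false] =>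
      match s with
      | [] => ∅
      | b :: s' => qs M z n (a ++ [b]) s'
    | false :: _ :: q =>
      match s with
      | [] => ∅
      | b :: s' => insert q (qs M z n (a ++ [b]) s')

theorem card_qs (M : NAlg) (z : List Bool) (n : ℕ) : ∀ a s, (qs M z n a s).card ≤ n := by
  induction n with
  | zero => intro a s; simp [qs]
  | succ n ih =>
    intro a s
    unfold qs
    split
    · simp
    · simp
    · split
      · simp
      · exact (ih _ _).trans (Nat.le_succ n)
    · split
      · simp
      · exact (card_insert_le _ _).trans (Nat.add_le_add_right (ih _ _) 1)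

theorem leaf_congr (M : NAlg) (A A' : Oracle) (z : List Bool) (v : Bool) (n : ℕ) :
    ∀ a s, (∀ q ∈ qs M z n a s, A q = A' q) → leaf M A z v n a s = leaf M A' z v n a s := by
  induction n with
  | zero => intro a s _; simp [leaf]
  | succ n ih =>
    intro a s h
    unfold leaf
    unfold qs at h
    split
    · rfl
    · rfl
    · rename_i hD
      rw [hD] at h
      rcases s with _ | ⟨b, s⟩
      · rfl
      · exact ih _ _ h
    · rename_i c q hD
      rw [hD] at h
      rcases s with _ | ⟨b, s⟩
      · rfl
      · simp only [] at h ⊢
        rw [h q (mem_insert_self _ _), ih _ _ fun q' hq' => h q' (mem_insert_of_mem hq')]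

theorem filter_nil (n : ℕ) (v : Bool) :
    ((lists n).filter (fun s => (s.isEmpty && v) = true)).card = if v then 1 else 0 := by
  cases n with
  | zero => cases v <;> simp [lists, filter_singleton]
  | succ n =>
    rw [card_step]
    cases v <;> simp

theorem count_eq (M : NAlg) (A : Oracle) (z : List Bool) (v : Bool) (n : ℕ) :
    ∀ a, M.count A z v n a = ((lists n).filter (fun s => leaf M A z v n a s = true)).card := by
  induction n with
  | zero =>
    intro a
    have e : ((lists 0).filter (fun s => leaf M A z v 0 a s = true)) =
        ((lists 0).filter (fun s => (s.isEmpty && !v) = true)) :=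
      filter_congr fun s _ => Iff.rfl
    rw [e, filter_nil 0 (!v)]
    cases v <;> rfl
  | succ n ih =>
    intro a
    rcases hD : M.D (pairBits z a) with _ | ⟨b, _ | ⟨c, q⟩⟩
    · have e : ((lists (n + 1)).filter (fun s => leaf M A z v (n + 1) a s = true)) =
          ((lists (n + 1)).filter (fun s => (s.isEmpty && !v) = true)) :=
        filter_congr fun s _ => by simp only [leaf, hD]
      rw [e, filter_nil (n + 1) (!v), NAlg.count, hD]
      cases v <;> rfl
    · cases b
      · rw [card_step, NAlg.count, hD]
        simp only [leaf, hD]
        rw [ih, ih, if_neg Bool.false_ne_true, zero_add, add_comm]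
      · have e : ((lists (n + 1)).filter (fun s => leaf M A z v (n + 1) a s = true)) =
            ((lists (n + 1)).filter (fun s => (s.isEmpty && v) = true)) :=
          filter_congr fun s _ => by simp only [leaf, hD]
        rw [e, filter_nil (n + 1) v, NAlg.count, hD]
    · cases b
      · rw [card_step, NAlg.count, hD]
        simp only [leaf, hD]
        rw [ih, if_neg Bool.false_ne_true, zero_add]
        cases h : A q <;> simp
      · have e : ((lists (n + 1)).filter (fun s => leaf M A z v (n + 1) a s = true)) =
            ((lists (n + 1)).filter (fun s => (s.isEmpty && v) = true)) :=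
          filter_congr fun s _ => by simp only [leaf, hD]
        rw [e, filter_nil (n + 1) v, NAlg.count, hD]

theorem taskLeaf : TaskLeaf := by
  intro M G i n z
  set R := M.p.eval z.length with hR
  refine ⟨{s // s ∈ lists R}, inferInstance, inferInstance,
    fun s => univ.filter fun c : Cell n => ∃ q ∈ qs M z R [] s.1, lead q = i ∧ cellW q = c.1,
    fun u s y => leaf M (orc (upd G i n y)) z u R [] s.1, ?_, ?_, ?_, ?_⟩
  · intro u s y y' h
    refine leaf_congr M _ _ z u R [] s.1 fun q hq => ?_
    have e : upd G i n y (lead q) (cellW q) = upd G i n y' (lead q) (cellW q) := by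
      unfold upd
      by_cases hc : lead q = i ∧ (cellW q).length = n
      · rw [dif_pos hc, dif_pos hc]
        exact h ⟨cellW q, hc.2⟩ (mem_filter.2 ⟨mem_univ _, q, hq, hc.1, rfl⟩)
      · rw [dif_neg hc, dif_neg hc]
    unfold orc
    rw [e]
  · intro s
    refine le_trans ?_ (card_qs M z R [] s.1)
    refine le_trans ?_ (card_image_le (s := qs M z R [] s.1) (f := cellW))
    refine card_le_card_of_injOn (fun c : Cell n => c.1) ?_ ?_
    · intro c hc
      obtain ⟨q, hq, _, hc⟩ := (mem_filter.1 (mem_coe.1 hc)).2
      exact mem_coe.2 (mem_image.2 ⟨q, hq, hc⟩)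
    · intro c _ c' _ h
      exact Subtype.ext h
  · have := card_lists R
    rw [Fintype.card_coe]
    omega
  · intro y
    have key : ∀ u, cnt (T := {s // s ∈ lists R})
        (fun u s (y : Cfg (Cell n)) => leaf M (orc (upd G i n y)) z u R [] s.1) u y =
        M.count (orc (upd G i n y)) z u R [] := by
      intro u
      rw [count_eq]
      unfold cnt
      rw [← card_map ⟨Subtype.val, Subtype.val_injective⟩]
      congr 1
      ext s
      simp only [mem_map, mem_filter, mem_univ, true_and, Function.Embedding.coeFn_mk,
        Subtype.exists, exists_and_left, exists_prop, exists_eq_right_right]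
      exact and_comm
    exact ⟨key true, key false⟩

end Pool.Agent.H910R3.BP.Leaf
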