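import Pool.Agent.H910R3.BP.Orc

/-!
# The construction of the oracle in stages
-/

set_option autoImplicit false

namespace Pool.Agent.H910R3.BP.Limit

open Finset Pool.Agent.NPC Pool.Agent.H620R2.Gauge Pool.Agent.H910R3.BP

theorem Agree.refl' (m : ℕ) (G : ℕ → List Bool → Option Bool) : Agree m G G :=
  fun _ _ _ => rfl

theorem Agree.trans' {m m' : ℕ} {G G' G'' : ℕ → List Bool → Option Bool} (hm : m ≤ m')
    (h1 : Agree m G G') (h2 : Agree m' G' G'') : Agree m G G'' :=
  fun i w hw => (h1 i w hw).trans (h2 i w (lt_of_lt_of_le hw hm))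

theorem upd_of_ne {G : ℕ → List Bool → Option Bool} {i n : ℕ} {y : Cfg (Cell n)} {i' : ℕ}
    {w : List Bool} (h : ¬ (i' = i ∧ w.length = n)) : upd G i n y i' w = G i' w := by
  unfold upd
  rw [dif_neg h]

theorem upd_self {G : ℕ → List Bool → Option Bool} {i n : ℕ} {y : Cfg (Cell n)}
    {w : List Bool} (h : w.length = n) : upd G i n y i w = y ⟨w, h⟩ := by
  unfold upd
  rw [dif_pos ⟨rfl, h⟩]

theorem agree_upd {G : ℕ → List Bool → Option Bool} {i n m : ℕ} {y : Cfg (Cell n)}
    (h : m ≤ n) : Agree m G (upd G i n y) := by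
  intro j w hw
  rw [upd_of_ne]
  rintro ⟨-, h2⟩
  omega

/-- The states of the construction. -/
structure St (g : ℕ → NAlg) : Type where
  G : ℕ → List Bool → Option Bool
  m : ℕ
  empty : ∀ j w, m ≤ w.length → G j w = none
  forced : ∀ i n, (∀ w : List Bool, w.length = n → G i w = none) ∨
    ∃ z, ∀ G', Agree m G G' → Bad (g i) G' i n z

/-- What a new state has to fulfil at stage `(i, j)`. -/
def Treated (g : ℕ → NAlg) (h : ℕ → Alg) (i j : ℕ) (s : St g) : Prop :=
  ∃ n, (∀ G', Agree s.m s.G G' → (h j).out (orc G') (List.replicate n false) = none) ∨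
      ∃ z, ∀ G', Agree s.m s.G G' →
        (h j).out (orc G') (List.replicate n false) = some z ∧ Bad (g i) G' i n z

theorem step (hS : TaskStage) (hC : Core) (g : ℕ → NAlg) (h : ℕ → Alg) (i j : ℕ) (s : St g) :
    ∃ s' : St g, s.m < s'.m ∧ Agree s.m s.G s'.G ∧ Treated g h i j s' := by
  obtain ⟨n, m', y, h1, h2, h3, h4⟩ := hS hC (g i) (h j) i s.m s.G s.empty
  refine ⟨⟨upd s.G i n y, m', ?_, ?_⟩, ?_, ?_, ?_⟩
  · intro k w hw
    rw [upd_of_ne (by rintro ⟨-, h⟩; omega)]
    exact s.empty k w (by omega)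
  · intro i' n'
    by_cases hin : i' = i ∧ n' = n
    · obtain ⟨rfl, rfl⟩ := hin
      rcases h3 with h3 | h3
      · left
        intro w hw
        rw [upd_self hw, h3]
      · exact Or.inr h3
    · rcases s.forced i' n' with h5 | ⟨z, h5⟩
      · left
        intro w hw
        rw [upd_of_ne (by rintro ⟨h6, h7⟩; exact hin ⟨h6, by omega⟩)]
        exact h5 w hw
      · right
        refine ⟨z, fun G' hG' => h5 G' ?_⟩
        exact Agree.trans' (by omega) (agree_upd h1) hG'
  · exact lt_of_le_of_lt h1 h2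
  · exact agree_upd h1
  · exact ⟨n, h4⟩

theorem taskLimit : TaskLimit := by
  intro hS hC g h
  choose nx hnx1 hnx2 hnx3 using fun (i j : ℕ) (s : St g) => step hS hC g h i j s
  let s0 : St g := ⟨fun _ _ => none, 0, fun _ _ _ => rfl, fun _ _ => Or.inl fun _ _ => rfl⟩
  let st : ℕ → St g := fun k => Nat.rec s0 (fun k s => nx (Nat.unpair k).1 (Nat.unpair k).2 s) k
  have hst : ∀ k, st (k + 1) = nx (Nat.unpair k).1 (Nat.unpair k).2 (st k) := fun k => rfl
  have hm1 : ∀ k, (st k).m < (st (k + 1)).m := fun k => by rw [hst]; exact hnx1 _ _ _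
  have hm : ∀ k, k ≤ (st k).m := by
    intro k
    induction k with
    | zero => exact Nat.zero_le _
    | succ k ih => have := hm1 k; omega
  have hag : ∀ k l, Agree (st k).m (st k).G (st (k + l)).G ∧ (st k).m ≤ (st (k + l)).m := by
    intro k l
    induction l with
    | zero => exact ⟨Agree.refl' _ _, le_rfl⟩
    | succ l ih =>
      refine ⟨Agree.trans' ih.2 ih.1 ?_, ?_⟩
      · rw [← add_assoc, hst]
        exact hnx2 _ _ _
      · have := hm1 (k + l)
        rw [← add_assoc]
        exact ih.2.trans this.le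
  let Gi : ℕ → List Bool → Option Bool := fun i w => (st (w.length + 1)).G i w
  have hGi : ∀ k, Agree (st k).m (st k).G Gi := by
    intro k i w hw
    change (st k).G i w = (st (w.length + 1)).G i w
    rcases le_total k (w.length + 1) with hk | hk
    · obtain ⟨l, hl⟩ := Nat.exists_eq_add_of_le hk
      rw [hl]
      exact (hag k l).1 i w hw
    · obtain ⟨l, hl⟩ := Nat.exists_eq_add_of_le hk
      have := (hag (w.length + 1) l).1 i w (by have := hm (w.length + 1); omega)
      rw [← hl] at this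
      exact this.symm
  refine ⟨Gi, ?_, ?_⟩
  · intro i n
    rcases (st (n + 1)).forced i n with h5 | ⟨z, h5⟩
    · left
      intro w hw
      rw [← hGi (n + 1) i w (by have := hm (n + 1); omega)]
      exact h5 w hw
    · exact Or.inr ⟨z, h5 Gi (hGi (n + 1))⟩
  · intro i j
    have := hnx3 i j (st (Nat.pair i j))
    have h6 : nx i j (st (Nat.pair i j)) = st (Nat.pair i j + 1) := by
      rw [hst, Nat.unpair_pair]
    rw [h6] at this
    obtain ⟨n, hn⟩ := this
    refine ⟨n, ?_⟩
    rcases hn with hn | ⟨z, hn⟩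
    · exact Or.inl (hn Gi (hGi (Nat.pair i j + 1)))
    · exact Or.inr ⟨z, hn Gi (hGi (Nat.pair i j + 1))⟩

end Pool.Agent.H910R3.BP.Limit
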