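import Pool.Agent.H910R3.BP.Stmts

/-!
# Chebyshev lower tail
-/

set_option autoImplicit false

namespace Pool.Agent.H910R3.BP.Low

open Finset Pool.Agent.H910R3.BP

open Classical in
theorem taskLow : TaskLow := by
  intro I _ _ μ X M hμ hs hM h1 h2
  have hkey : Ex μ (fun y => (9 / 16 * M ^ 2) * (if X y < M / 4 then 1 else 0)) ≤
      Ex μ (fun y => M ^ 2 + ((-2 * M) * X y + (X y) ^ 2)) := by
    apply Ex_mono hμ
    intro y
    split_ifs with h
    · nlinarith
    · nlinarith [sq_nonneg (M - X y)]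
  rw [Ex_smul, Ex_add μ (fun _ => M ^ 2) (fun y => (-2 * M) * X y + (X y) ^ 2),
    Ex_add μ (fun y => (-2 * M) * X y) (fun y => (X y) ^ 2), Ex_smul, Ex_const hs] at hkey
  have hM2 : 0 < M ^ 2 := by positivity
  have h3 : -2 * M * Ex μ X ≤ -2 * (98 / 100) * M ^ 2 := by nlinarith
  have h4 : 9 / 16 * M ^ 2 * Ex μ (fun y => if X y < M / 4 then 1 else 0) ≤ 9 / 100 * M ^ 2 := by
    refine le_trans hkey ?_
    linarith
  by_contra hc
  push Not at hc
  have h5 : 9 / 16 * M ^ 2 * (1 / 5) < 9 / 16 * M ^ 2 * Ex μ (fun y => if X y < M / 4 then 1 else 0) :=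
    mul_lt_mul_of_pos_left hc (by positivity)
  linarith

end Pool.Agent.H910R3.BP.Low
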