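import Pool.Agent.H910R3.BP.Stmts

/-!
# TaskPersist: keep the paths which avoid the newly planted cells
-/

set_option autoImplicit false

namespace Pool.Agent.H910R3.BP.Persist

open Finset Pool.Agent.H910R3.BP

theorem taskPersist : TaskPersist := by
  classical
  intro I T _ _ _ _ D L τ t ν η lam u S S' x x' w d hτ0 hτ1 ht0 ht1 hν hη hlam0 hlam1 hd hSS hxx hcard hw hNH hEM
  have hμ : ∀ i a, 0 ≤ M0 τ t S x i a := M0_nonneg hτ0.le hτ1.le ht0.le ht1.le S x
  have hPm : ∀ ρ : T × Cfg I, 0 ≤ Pm D (M0 τ t S x) ρ := fun ρ => prod_nonneg fun i _ => hμ i _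
  have hwn := hw.nonneg
  have hterm : ∀ ρ : T × Cfg I, 0 ≤ w ρ * Pm D (M0 τ t S x) ρ := fun ρ => mul_nonneg (hwn ρ) (hPm ρ)
  set w' := res w (fun ρ => Disjoint (D ρ.1) (S' \ S)) with hw'
  have hPm' : ∀ ρ : T × Cfg I, Disjoint (D ρ.1) (S' \ S) → Pm D (M0 τ t S' x') ρ = Pm D (M0 τ t S x) ρ := by
    intro ρ hρ
    unfold Pm
    apply prod_congr rfl
    intro i hi
    have h1 : i ∉ S' \ S := Finset.disjoint_left.mp hρ hi
    unfold M0
    by_cases hS : i ∈ S
    · rw [if_pos hS, if_pos (hSS hS), hxx i hS]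
    · have : i ∉ S' := fun h => h1 (mem_sdiff.mpr ⟨h, hS⟩)
      rw [if_neg hS, if_neg this]
  have hmass' : mass D (M0 τ t S' x') w' = ∑ ρ : T × Cfg I, (if Disjoint (D ρ.1) (S' \ S) then w ρ * Pm D (M0 τ t S x) ρ else 0) := by
    unfold mass
    apply sum_congr rfl
    intro ρ _
    rw [hw']
    unfold res
    by_cases h : Disjoint (D ρ.1) (S' \ S)
    · rw [if_pos h, if_pos h, hPm' ρ h]
    · rw [if_neg h, if_neg h, zero_mul]
  have hm0 : 0 ≤ mass D (M0 τ t S x) w := sum_nonneg fun ρ _ => hterm ρ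
  -- the loss
  have hloss : mass D (M0 τ t S x) w ≤ mass D (M0 τ t S' x') w' +
      ∑ i ∈ S' \ S, (EM D (M0 τ t S x) w i + NH D (M0 τ t S x) w i) := by
    rw [hmass']
    have h1 : ∀ i, EM D (M0 τ t S x) w i + NH D (M0 τ t S x) w i
        = ∑ ρ : T × Cfg I, (if i ∈ D ρ.1 then w ρ * Pm D (M0 τ t S x) ρ else 0) := by
      intro i
      unfold EM NH mass res
      rw [← sum_add_distrib]
      apply sum_congr rfl
      intro ρ _
      by_cases hi : i ∈ D ρ.1
      · by_cases h4 : ρ.2 i = none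
        · simp [hi, h4]
        · simp [hi, h4]
      · simp [hi]
    simp_rw [h1]
    rw [sum_comm, ← sum_add_distrib]
    unfold mass
    apply sum_le_sum
    intro ρ _
    have h2 : ∀ i, 0 ≤ (if i ∈ D ρ.1 then w ρ * Pm D (M0 τ t S x) ρ else 0) := by
      intro i
      split_ifs
      · exact hterm ρ
      · exact le_rfl
    by_cases h : Disjoint (D ρ.1) (S' \ S)
    · rw [if_pos h]
      have := sum_nonneg fun i (_ : i ∈ S' \ S) => h2 i
      linarith
    · rw [if_neg h, zero_add]
      rw [Finset.not_disjoint_iff] at h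
      obtain ⟨i, hiD, hiS⟩ := h
      have h5 := single_le_sum (f := fun i => (if i ∈ D ρ.1 then w ρ * Pm D (M0 τ t S x) ρ else 0))
        (fun i _ => h2 i) hiS
      simp only [hiD, if_true] at h5
      exact h5
  have hsum : ∑ i ∈ S' \ S, (EM D (M0 τ t S x) w i + NH D (M0 τ t S x) w i) ≤ lam * mass D (M0 τ t S x) w := by
    calc ∑ i ∈ S' \ S, (EM D (M0 τ t S x) w i + NH D (M0 τ t S x) w i)
        ≤ ∑ i ∈ S' \ S, (η + ν) * mass D (M0 τ t S x) w := by
          apply sum_le_sum
          intro i hi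
          have h1 := hEM i hi
          have h2 := hNH i (mem_sdiff.mp hi).2
          linarith
      _ = ((S' \ S).card : ℝ) * ((η + ν) * mass D (M0 τ t S x) w) := by rw [sum_const, nsmul_eq_mul]
      _ ≤ (d : ℝ) * ((η + ν) * mass D (M0 τ t S x) w) := by
          apply mul_le_mul_of_nonneg_right (by exact_mod_cast hcard)
          exact mul_nonneg (by linarith) hm0
      _ = ((d : ℝ) * (η + ν)) * mass D (M0 τ t S x) w := by ring
      _ ≤ lam * mass D (M0 τ t S x) w := mul_le_mul_of_nonneg_right hd hm0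
  have hmain : (1 - lam) * mass D (M0 τ t S x) w ≤ mass D (M0 τ t S' x') w' := by linarith
  refine ⟨w', ⟨?_, ?_, ?_, ?_⟩, hmain, ?_⟩
  · intro ρ
    rw [hw']; unfold res
    split_ifs
    · exact hwn ρ
    · exact le_rfl
  · intro ρ
    rw [hw']; unfold res
    split_ifs
    · exact hw.le_one ρ
    · exact zero_le_one
  · intro ρ hρ
    apply hw.off ρ
    intro h0
    apply hρ
    rw [hw']; unfold res
    rw [h0]; simp
  · intro ρ hρ
    apply hw.leaf ρ
    intro h0
    apply hρ
    rw [hw']; unfold res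
    rw [h0]; simp
  · intro i hi
    have hiS : i ∉ S := fun h => hi (hSS h)
    have h1 : NH D (M0 τ t S' x') w' i ≤ NH D (M0 τ t S x) w i := by
      unfold NH mass
      apply sum_le_sum
      intro ρ _
      unfold res
      by_cases hq : i ∈ D ρ.1 ∧ ρ.2 i ≠ none
      · rw [if_pos hq, if_pos hq, hw']
        unfold res
        by_cases h : Disjoint (D ρ.1) (S' \ S)
        · rw [if_pos h, hPm' ρ h]
        · rw [if_neg h, zero_mul]
          exact hterm ρ
      · rw [if_neg hq, if_neg hq, zero_mul, zero_mul]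
    have h2 := hNH i hiS
    have hm' : 0 ≤ mass D (M0 τ t S' x') w' := by
      have : 0 ≤ (1 - lam) * mass D (M0 τ t S x) w := mul_nonneg (by linarith) hm0
      linarith
    have h3 : mass D (M0 τ t S x) w ≤ (1 + 2 * lam) * mass D (M0 τ t S' x') w' := by
      have h4 : (1 + 2 * lam) * ((1 - lam) * mass D (M0 τ t S x) w) ≤ (1 + 2 * lam) * mass D (M0 τ t S' x') w' :=
        mul_le_mul_of_nonneg_left hmain (by linarith)
      have h5 : mass D (M0 τ t S x) w ≤ (1 + 2 * lam) * ((1 - lam) * mass D (M0 τ t S x) w) := by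
        have h6 : 1 ≤ (1 + 2 * lam) * (1 - lam) := by nlinarith
        calc mass D (M0 τ t S x) w = 1 * mass D (M0 τ t S x) w := (one_mul _).symm
          _ ≤ ((1 + 2 * lam) * (1 - lam)) * mass D (M0 τ t S x) w := mul_le_mul_of_nonneg_right h6 hm0
          _ = _ := by ring
      linarith
    calc NH D (M0 τ t S' x') w' i ≤ ν * mass D (M0 τ t S x) w := h1.trans h2
      _ ≤ ν * ((1 + 2 * lam) * mass D (M0 τ t S' x') w') := mul_le_mul_of_nonneg_left h3 hν
      _ = _ := by ring

end Pool.Agent.H910R3.BP.Persist
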