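import Pool.Agent.H910R3.BP.Orc
import Pool.Agent.NPC.Num
import Pool.Agent.NPC.Dec
import Pool.Agent.H622R2.CoNP

/-!
# The action function is computable in polynomial time
-/

set_option autoImplicit false

namespace Pool.Agent.H910R3.BP.Poly

open Pool.Agent.NPC Pool.Agent.H622R2 Pool.Agent.H910R3.BP

theorem take_eq {α : Type} (l : List α) (n : ℕ) :
    (l.zip (List.replicate n ())).map Prod.fst = l.take n := by
  induction l generalizing n with
  | nil => simp
  | cons a l ih =>
    cases n with
    | zero => simp
    | succ n => simp [List.replicate_succ, ih]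

theorem poly_take {α β : Type} [TEnc α] [TEnc β] {l : α → List β} {n : α → ℕ}
    (hl : NPC.Poly l) (hn : NPC.Poly n) : NPC.Poly (fun a => (l a).take (n a)) := by
  have h : UPoly (fun a => Min.min (n a) (l a).length) :=
    UPoly.of_le (NPC.Poly.min hn (NPC.Poly.length hl)) (UPoly.length hl)
      (fun a => min_le_right _ _)
  refine (NPC.Poly.map (F := fun _ p => p.1) (NPC.Poly.zip hl h)
    (NPC.Poly.fst (NPC.Poly.snd NPC.Poly.id))).congr ?_
  intro a
  change ((l a).zip (List.replicate (Min.min (n a) (l a).length) ())).map Prod.fst = _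
  rw [take_eq]
  rcases le_total (n a) (l a).length with h1 | h1
  · rw [min_eq_left h1]
  · rw [min_eq_right h1, List.take_length, List.take_of_length_le h1]

theorem taskPoly : TaskPoly := by
  intro i
  refine ⟨fun s => dact i (unpair s).1 (unpair s).2, ?_, fun x a => by
    show dact i (unpair (pairBits x a)).1 (unpair (pairBits x a)).2 = _
    rw [unpair_pairBits]⟩
  apply polyTime_of_poly_list
  have hx : NPC.Poly (fun s : List Bool => (unpair s).1) := NPC.Poly.fst poly_unpair
  have ha : NPC.Poly (fun s : List Bool => (unpair s).2) := NPC.Poly.snd poly_unpair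
  have hxl : NPC.Poly (fun s : List Bool => (unpair s).1.length) := NPC.Poly.length hx
  have hal : NPC.Poly (fun s : List Bool => (unpair s).2.length) := NPC.Poly.length ha
  have hxl1 : NPC.Poly (fun s : List Bool => (unpair s).1.length + 1) := NPC.Poly.succ hxl
  have hf : NPC.Poly (fun _ : List Bool => false) := NPC.Poly.const _
  have hq : ∀ b : Bool, NPC.Poly (fun s : List Bool =>
      (false :: false :: qry i b ((unpair s).2.take (unpair s).1.length) : List Bool)) := by
    intro b
    refine NPC.Poly.cons hf (NPC.Poly.cons hf ?_)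
    exact NPC.Poly.append (NPC.Poly.const (List.replicate i true))
      (NPC.Poly.cons hf (NPC.Poly.cons (NPC.Poly.const b) (poly_take ha hxl)))
  unfold dact
  refine NPC.Poly.ite (NPC.Poly.decide_lt hal hxl) (NPC.Poly.const _) ?_
  refine NPC.Poly.ite (NPC.Poly.decide_eq hal hxl) (hq true) ?_
  refine NPC.Poly.ite (NPC.Poly.decide_eq (NPC.Poly.getD ha hxl hf) hf) (NPC.Poly.const _) ?_
  refine NPC.Poly.ite (NPC.Poly.decide_eq hal hxl1) (hq false) ?_
  refine NPC.Poly.ite (NPC.Poly.decide_lt hal
    (NPC.Poly.add (NPC.Poly.mul (NPC.Poly.const 2) hxl) (NPC.Poly.const 4)))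
    (NPC.Poly.const _) ?_
  exact NPC.Poly.ite (NPC.Poly.decide_eq (NPC.Poly.getD ha hxl1 hf) (NPC.Poly.const true))
    (NPC.Poly.const _) (NPC.Poly.const _)

end Pool.Agent.H910R3.BP.Poly
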