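import Pool.Agent.H910R3.BP.Stmts

/-!
# Task Second (second moment bound)
-/

set_option autoImplicit false

namespace Pool.Agent.H910R3.BP.Second

open Finset Pool.Agent.H910R3.BP

section

variable {I T : Type} [Fintype I] [DecidableEq I] [Fintype T]

/-- The mass is the expectation of `Uw`. -/
theorem Ex_Uw (D : T → Finset I) {μ : I → Option Bool → ℝ} (h : ∀ i, ∑ a, μ i a = 1)
    (w : T × Cfg I → ℝ) : Ex μ (fun y => Uw D w y) = mass D μ w := by
  unfold Uw mass
  rw [Ex_sum]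
  refine sum_congr rfl fun ρ _ => ?_
  rw [Ex_smul μ (w ρ) (fun y => if Cyl (D ρ.1) ρ.2 y then 1 else 0), Ex_cyl h]
  rfl

theorem Uw_nonneg (D : T → Finset I) {w : T × Cfg I → ℝ} (h : ∀ ρ, 0 ≤ w ρ) (y : Cfg I) :
    0 ≤ Uw D w y := by
  unfold Uw
  refine sum_nonneg fun ρ _ => mul_nonneg (h ρ) ?_
  split_ifs
  · exact zero_le_one
  · exact le_rfl

/-- Planting identity, pointwise. -/
theorem plant (τ t : ℝ) (S W : Finset I) (x x' v : Cfg I)
    (hW : ∀ i ∈ W, x' i = v i) (hS : ∀ i ∈ S, i ∉ W → x' i = x i) (y : Cfg I) :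
    wt (M0 τ t S x) y * (if Cyl W v y then 1 else 0) =
      (∏ i ∈ W, M0 τ t S x i (v i)) * wt (M0 τ t (S ∪ W) x') y := by
  unfold wt
  have hoff : ∀ i, i ∉ W → M0 τ t (S ∪ W) x' i (y i) = M0 τ t S x i (y i) := by
    intro i hi
    unfold M0
    by_cases hs : i ∈ S
    · rw [if_pos (mem_union_left _ hs), if_pos hs, hS i hs hi]
    · rw [if_neg hs, if_neg (by simp [hs, hi])]
  by_cases hc : Cyl W v y
  · rw [if_pos hc, mul_one]
    rw [← Finset.prod_mul_prod_compl W (fun i => M0 τ t S x i (y i)),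
      ← Finset.prod_mul_prod_compl W (fun i => M0 τ t (S ∪ W) x' i (y i))]
    have h1 : ∏ i ∈ W, M0 τ t (S ∪ W) x' i (y i) = 1 := by
      refine prod_eq_one fun i hi => ?_
      unfold M0
      rw [if_pos (mem_union_right _ hi), hW i hi, if_pos (hc i hi)]
    have h2 : ∏ i ∈ Wᶜ, M0 τ t (S ∪ W) x' i (y i) = ∏ i ∈ Wᶜ, M0 τ t S x i (y i) :=
      prod_congr rfl fun i hi => hoff i (by simpa using hi)
    have h3 : ∏ i ∈ W, M0 τ t S x i (y i) = ∏ i ∈ W, M0 τ t S x i (v i) :=
      prod_congr rfl fun i hi => by rw [hc i hi]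
    rw [h1, h2, h3, one_mul]
  · rw [if_neg hc, mul_zero]
    unfold Cyl at hc
    push Not at hc
    obtain ⟨i, hi, hne⟩ := hc
    have : ∏ i, M0 τ t (S ∪ W) x' i (y i) = 0 := by
      refine prod_eq_zero (mem_univ i) ?_
      unfold M0
      rw [if_pos (mem_union_right _ hi), hW i hi, if_neg hne]
    rw [this, mul_zero]

end

theorem taskSecond : TaskSecond := by
  intro I T _ _ _ _ D L τ t B u S F x w c h0 h1 h2 h3 hB hc hSF hw hF hplant
  set μ := M0 τ t S x with hμ
  have hμ0 : ∀ i a, 0 ≤ μ i a := fun i a => M0_nonneg h0.le h1.le h2.le h3.le S x i a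
  have hμ1 : ∀ i, ∑ a, μ i a = 1 := fun i => M0_sum τ t S x i
  have hU0 : ∀ y, 0 ≤ Uw D w y := Uw_nonneg D hw.nonneg
  have hpow : 0 ≤ (1 - τ) ^ c := pow_nonneg (by linarith) c
  -- expansion of the second moment
  have hexp : Ex μ (fun y => (Uw D w y) ^ 2) =
      ∑ ρ : T × Cfg I, w ρ * Ex μ (fun y => (if Cyl (D ρ.1) ρ.2 y then 1 else 0) * Uw D w y) := by
    have : (fun y => (Uw D w y) ^ 2) = fun y => ∑ ρ : T × Cfg I,
        w ρ * ((if Cyl (D ρ.1) ρ.2 y then 1 else 0) * Uw D w y) := by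
      funext y
      rw [pow_two]
      nth_rewrite 1 [Uw]
      rw [sum_mul]
      exact sum_congr rfl fun ρ _ => by ring
    rw [this, Ex_sum]
    exact sum_congr rfl fun ρ _ => Ex_smul μ (w ρ) _
  -- one path
  have hone : ∀ ρ, w ρ ≠ 0 →
      (1 - τ) ^ c * Ex μ (fun y => (if Cyl (D ρ.1) ρ.2 y then 1 else 0) * Uw D w y) ≤
        B * Pm D μ ρ := by
    intro ρ hρ
    by_cases hP : Pm D μ ρ = 0
    · have hcyl : Ex μ (fun y => if Cyl (D ρ.1) ρ.2 y then 1 else 0) = 0 := by
        rw [Ex_cyl hμ1]; exact hP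
      have hz : ∀ y, wt μ y * (if Cyl (D ρ.1) ρ.2 y then 1 else 0) = 0 := by
        intro y
        have hnn : ∀ y ∈ (univ : Finset (Cfg I)),
            0 ≤ wt μ y * (if Cyl (D ρ.1) ρ.2 y then (1:ℝ) else 0) := by
          intro y _
          refine mul_nonneg (wt_nonneg hμ0 y) ?_
          split_ifs
          · exact zero_le_one
          · exact le_rfl
        exact (sum_eq_zero_iff_of_nonneg hnn).1 hcyl y (mem_univ y)
      have hE : Ex μ (fun y => (if Cyl (D ρ.1) ρ.2 y then 1 else 0) * Uw D w y) = 0 := by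
        unfold Ex
        refine sum_eq_zero fun y _ => ?_
        rw [← mul_assoc, hz y, zero_mul]
      rw [hE, hP, mul_zero, mul_zero]
    · have hm := hplant ρ hρ hP
      set W := D ρ.1 \ F with hWdef
      have hWsub : W ⊆ D ρ.1 := sdiff_subset
      -- the planted expectation
      have hpl : Ex μ (fun y => (if Cyl W ρ.2 y then 1 else 0) * Uw D w y) =
          (∏ i ∈ W, μ i (ρ.2 i)) * mass D (M0 τ t (S ∪ W) (ov D x ρ)) w := by
        rw [← Ex_Uw D (fun i => M0_sum τ t (S ∪ W) (ov D x ρ) i) w]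
        unfold Ex
        rw [mul_sum]
        refine sum_congr rfl fun y _ => ?_
        rw [← mul_assoc, ← mul_assoc]
        congr 1
        refine plant τ t S W x (ov D x ρ) ρ.2 ?_ ?_ y
        · intro i hi
          unfold ov
          rw [if_pos (hWsub hi)]
        · intro i hiS hiW
          unfold ov
          rw [if_neg]
          intro hiD
          have : i ∈ F := by
            by_contra hiF
            exact hiW (mem_sdiff.2 ⟨hiD, hiF⟩)
          exact (Finset.disjoint_left.1 hSF hiS) this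
      have hle : Ex μ (fun y => (if Cyl (D ρ.1) ρ.2 y then 1 else 0) * Uw D w y) ≤
          Ex μ (fun y => (if Cyl W ρ.2 y then 1 else 0) * Uw D w y) := by
        refine Ex_mono hμ0 fun y => mul_le_mul_of_nonneg_right ?_ (hU0 y)
        by_cases hcy : Cyl (D ρ.1) ρ.2 y
        · have : Cyl W ρ.2 y := fun i hi => hcy i (hWsub hi)
          rw [if_pos hcy, if_pos this]
        · rw [if_neg hcy]
          split_ifs
          · exact zero_le_one
          · exact le_rfl
      have hPW : 0 ≤ ∏ i ∈ W, μ i (ρ.2 i) := prod_nonneg fun i _ => hμ0 i _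
      -- the probability of the path
      have hPm : Pm D μ ρ = (∏ i ∈ W, μ i (ρ.2 i)) * (1 - τ) ^ (D ρ.1 ∩ F).card := by
        unfold Pm
        rw [hWdef, ← Finset.prod_sdiff (Finset.inter_subset_left : D ρ.1 ∩ F ⊆ D ρ.1),
          Finset.sdiff_inter_self_left]
        congr 1
        rw [← prod_const]
        refine prod_congr rfl fun i hi => ?_
        rw [mem_inter] at hi
        rw [hF ρ hρ i hi.2 hi.1, hμ]
        unfold M0
        rw [if_neg (fun hS => (Finset.disjoint_left.1 hSF hS) hi.2)]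
        rfl
      have hpow2 : (1 - τ) ^ c ≤ (1 - τ) ^ (D ρ.1 ∩ F).card :=
        pow_le_pow_of_le_one (by linarith) (by linarith)
          ((card_le_card inter_subset_left).trans (hc ρ.1))
      calc (1 - τ) ^ c * Ex μ (fun y => (if Cyl (D ρ.1) ρ.2 y then 1 else 0) * Uw D w y)
          ≤ (1 - τ) ^ c * ((∏ i ∈ W, μ i (ρ.2 i)) * mass D (M0 τ t (S ∪ W) (ov D x ρ)) w) := by
            rw [← hpl]; exact mul_le_mul_of_nonneg_left hle hpow
        _ ≤ (1 - τ) ^ c * ((∏ i ∈ W, μ i (ρ.2 i)) * B) :=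
            mul_le_mul_of_nonneg_left (mul_le_mul_of_nonneg_left hm hPW) hpow
        _ = (B * ∏ i ∈ W, μ i (ρ.2 i)) * (1 - τ) ^ c := by ring
        _ ≤ (B * ∏ i ∈ W, μ i (ρ.2 i)) * (1 - τ) ^ (D ρ.1 ∩ F).card :=
            mul_le_mul_of_nonneg_left hpow2 (mul_nonneg hB hPW)
        _ = B * Pm D μ ρ := by rw [hPm]; ring
  rw [hexp]
  unfold mass
  rw [mul_sum, mul_sum]
  refine sum_le_sum fun ρ _ => ?_
  by_cases hρ : w ρ = 0
  · rw [hρ]; simp
  · have := mul_le_mul_of_nonneg_left (hone ρ hρ) (hw.nonneg ρ)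
    calc (1 - τ) ^ c * (w ρ * Ex μ (fun y => (if Cyl (D ρ.1) ρ.2 y then 1 else 0) * Uw D w y))
        = w ρ * ((1 - τ) ^ c *
          Ex μ (fun y => (if Cyl (D ρ.1) ρ.2 y then 1 else 0) * Uw D w y)) := by ring
      _ ≤ w ρ * (B * Pm D μ ρ) := this
      _ = B * (w ρ * Pm D μ ρ) := by ring

end Pool.Agent.H910R3.BP.Second
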