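import Pool.Agent.H910R3.BP.Stmts

/-!
# Spreading
-/

set_option autoImplicit false
set_option linter.unusedSectionVars false

namespace Pool.Agent.H910R3.BP.Spread

open Finset

section

variable {I T : Type} [Fintype I] [DecidableEq I] [Fintype T]

theorem mass_eq_Ex (D : T → Finset I) {μ : I → Option Bool → ℝ} (h : ∀ i, ∑ a, μ i a = 1)
    (w : T × Cfg I → ℝ) : mass D μ w = Ex μ (Uw D w) := by
  unfold mass
  have h1 : Ex μ (Uw D w) =
      ∑ ρ : T × Cfg I, Ex μ (fun y => w ρ * (if Cyl (D ρ.1) ρ.2 y then 1 else 0)) := by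
    rw [← Ex_sum]
    rfl
  rw [h1]
  refine sum_congr rfl fun ρ _ => ?_
  rw [Ex_smul, Ex_cyl h]
  rfl

theorem Uw_le {D : T → Finset I} {L : Bool → T → Cfg I → Bool} {u : Bool} {w : T × Cfg I → ℝ}
    (hw : IsCore D L u w) (y : Cfg I) : Uw D w y ≤ Fintype.card T := by
  unfold Uw
  rw [Fintype.sum_prod_type]
  have h1 : ∀ a : T, ∑ v : Cfg I, w (a, v) * (if Cyl (D a) v y then (1 : ℝ) else 0) ≤ 1 := by
    intro a
    set v0 : Cfg I := fun i => if i ∈ D a then y i else none with hv0
    have h2 : ∑ v : Cfg I, w (a, v) * (if Cyl (D a) v y then (1 : ℝ) else 0) =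
        w (a, v0) * (if Cyl (D a) v0 y then (1 : ℝ) else 0) := by
      refine Finset.sum_eq_single v0 ?_ ?_
      · intro v _ hv
        by_cases h0 : w (a, v) = 0
        · rw [h0, zero_mul]
        · by_cases hc : Cyl (D a) v y
          · exfalso
            apply hv
            funext i
            rw [hv0]
            by_cases hi : i ∈ D a
            · simp only [hi, if_true]
              exact (hc i hi).symm
            · simp only [hi, if_false]
              exact hw.off (a, v) h0 i hi
          · rw [if_neg hc, mul_zero]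
      · intro hn
        exact absurd (mem_univ _) hn
    rw [h2]
    split_ifs
    · rw [mul_one]
      exact hw.le_one _
    · rw [mul_zero]
      exact zero_le_one
  calc ∑ a : T, ∑ v : Cfg I, w (a, v) * (if Cyl (D a) v y then (1 : ℝ) else 0)
      ≤ ∑ _a : T, (1 : ℝ) := sum_le_sum fun a _ => h1 a
    _ = Fintype.card T := by simp

theorem mass_le {D : T → Finset I} {L : Bool → T → Cfg I → Bool} {u : Bool} {w : T × Cfg I → ℝ}
    (hw : IsCore D L u w) {τ t : ℝ} (h0 : 0 < τ) (h1 : τ < 1) (h2 : 0 < t) (h3 : t < 1)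
    (S : Finset I) (x : Cfg I) : mass D (M0 τ t S x) w ≤ Fintype.card T := by
  rw [mass_eq_Ex D (M0_sum τ t S x) w]
  calc Ex (M0 τ t S x) (Uw D w) ≤ Ex (M0 τ t S x) (fun _ => (Fintype.card T : ℝ)) :=
        Ex_mono (M0_nonneg h0.le h1.le h2.le h3.le S x) (fun y => Uw_le hw y)
    _ = Fintype.card T := Ex_const (M0_sum τ t S x) _

theorem isCore_res {D : T → Finset I} {L : Bool → T → Cfg I → Bool} {u : Bool}
    {w : T × Cfg I → ℝ} (hw : IsCore D L u w) (q : T × Cfg I → Prop) :
    IsCore D L u (res w q) := by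
  classical
  have hne : ∀ ρ, res w q ρ ≠ 0 → w ρ ≠ 0 := by
    intro ρ hρ h0
    apply hρ
    unfold res
    rw [h0]
    simp
  refine ⟨?_, ?_, fun ρ hρ => hw.off ρ (hne ρ hρ), fun ρ hρ => hw.leaf ρ (hne ρ hρ)⟩
  · intro ρ
    unfold res
    split_ifs
    · exact hw.nonneg ρ
    · exact le_rfl
  · intro ρ
    unfold res
    split_ifs
    · exact hw.le_one ρ
    · exact zero_le_one

theorem NH_split (D : T → Finset I) (μ : I → Option Bool → ℝ) (w : T × Cfg I → ℝ) (i : I) :
    NH D μ w i = mass D μ (res w (fun ρ => i ∈ D ρ.1 ∧ ρ.2 i = some true)) +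
      mass D μ (res w (fun ρ => i ∈ D ρ.1 ∧ ρ.2 i = some false)) := by
  classical
  unfold NH mass
  rw [← sum_add_distrib]
  refine sum_congr rfl fun ρ _ => ?_
  rw [← add_mul]
  congr 1
  unfold res
  by_cases hi : i ∈ D ρ.1
  · rcases h : ρ.2 i with _ | _ | _ <;> simp [hi, h]
  · simp [hi]

theorem mass_plant (D : T → Finset I) (τ t : ℝ) (S : Finset I) (x : Cfg I) (w : T × Cfg I → ℝ)
    (i : I) (hi : i ∉ S) (b : Bool) :
    mass D (M0 τ t S x) (res w (fun ρ => i ∈ D ρ.1 ∧ ρ.2 i = some b)) =
      bg τ t (some b) * mass D (M0 τ t (insert i S) (Function.update x i (some b)))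
        (res w (fun ρ => i ∈ D ρ.1 ∧ ρ.2 i = some b)) := by
  classical
  unfold mass
  rw [mul_sum]
  refine sum_congr rfl fun ρ _ => ?_
  unfold res
  by_cases hq : i ∈ D ρ.1 ∧ ρ.2 i = some b
  · rw [if_pos hq]
    obtain ⟨hiD, hb⟩ := hq
    have h1 : Pm D (M0 τ t S x) ρ = bg τ t (some b) *
        Pm D (M0 τ t (insert i S) (Function.update x i (some b))) ρ := by
      unfold Pm
      rw [← Finset.mul_prod_erase _ _ hiD, ← Finset.mul_prod_erase _ _ hiD]
      have h2 : M0 τ t S x i (ρ.2 i) = bg τ t (some b) := by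
        unfold M0
        rw [if_neg hi, hb]
      have h3 : M0 τ t (insert i S) (Function.update x i (some b)) i (ρ.2 i) = 1 := by
        unfold M0
        rw [if_pos (Finset.mem_insert_self i S), Function.update_self, if_pos hb]
      rw [h2, h3, one_mul]
      congr 1
      refine prod_congr rfl fun j hj => ?_
      have hji : j ≠ i := (Finset.mem_erase.1 hj).1
      unfold M0
      rw [Function.update_of_ne hji]
      by_cases hjS : j ∈ S
      · rw [if_pos hjS, if_pos (Finset.mem_insert_of_mem hjS)]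
      · rw [if_neg hjS, if_neg]
        intro hmem
        rcases Finset.mem_insert.1 hmem with h | h
        · exact hji h
        · exact hjS h
    rw [h1]
    ring
  · rw [if_neg hq]
    ring

theorem bg_some_le {τ t : ℝ} (h0 : 0 < τ) (h2 : 0 < t) (h3 : t < 1) (b : Bool) :
    0 < bg τ t (some b) ∧ bg τ t (some b) ≤ τ := by
  cases b
  · simp only [bg]
    constructor
    · exact mul_pos h0 (by linarith)
    · nlinarith
  · simp only [bg]
    constructor
    · exact mul_pos h0 h2
    · nlinarith

theorem mass_nonneg {D : T → Finset I} {w : T × Cfg I → ℝ}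
    (hw : ∀ ρ, 0 ≤ w ρ) {μ : I → Option Bool → ℝ} (hμ : ∀ i a, 0 ≤ μ i a) :
    0 ≤ mass D μ w :=
  sum_nonneg fun ρ _ => mul_nonneg (hw ρ) (prod_nonneg fun i _ => hμ i _)

end

theorem taskSpread : TaskSpread := by
  intro I T _ _ _ _ D L τ t ν u F h0 h1 h2 h3 hν n
  induction n with
  | zero =>
    intro S x w hw _ hlt
    exfalso
    have := mass_le hw h0 h1 h2 h3 S x
    rw [pow_zero, one_mul] at hlt
    linarith
  | succ n ih =>
    intro S x w hw hF hlt
    by_cases hall : ∀ i, i ∉ S → NH D (M0 τ t S x) w i ≤ ν * mass D (M0 τ t S x) w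
    · refine ⟨S, x, w, Finset.Subset.refl S, fun i _ => rfl, ?_, ?_, hw, le_rfl, hall⟩
      · simp
      · intro i hi
        simp at hi
    · push Not at hall
      obtain ⟨i, hiS, hi⟩ := hall
      have hmpos : 0 < mass D (M0 τ t S x) w := by
        have hT : (0 : ℝ) ≤ Fintype.card T := Nat.cast_nonneg _
        have h4 : (0 : ℝ) < 2 ^ (n + 1) * mass D (M0 τ t S x) w := lt_of_le_of_lt hT hlt
        have h5 : (0 : ℝ) < 2 ^ (n + 1) := by positivity
        exact (mul_pos_iff_of_pos_left h5).1 h4
      have hb : ∃ b : Bool, ν / 2 * mass D (M0 τ t S x) w <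
          mass D (M0 τ t S x) (res w (fun ρ => i ∈ D ρ.1 ∧ ρ.2 i = some b)) := by
        by_contra hcon
        push Not at hcon
        have ht := hcon true
        have hf := hcon false
        rw [NH_split] at hi
        linarith
      obtain ⟨b, hb⟩ := hb
      set w1 := res w (fun ρ => i ∈ D ρ.1 ∧ ρ.2 i = some b) with hw1
      have hcore1 : IsCore D L u w1 := isCore_res hw _
      have hνpos : 0 < ν := by linarith
      have hm1pos : 0 < mass D (M0 τ t S x) w1 := lt_trans (by positivity) hb
      have hne1 : ∀ ρ, w1 ρ ≠ 0 → w ρ ≠ 0 ∧ i ∈ D ρ.1 ∧ ρ.2 i = some b := by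
        intro ρ hρ
        rw [hw1] at hρ
        unfold res at hρ
        by_cases hq : i ∈ D ρ.1 ∧ ρ.2 i = some b
        · rw [if_pos hq] at hρ
          exact ⟨hρ, hq⟩
        · rw [if_neg hq] at hρ
          exact absurd rfl hρ
      have hiF : i ∉ F := by
        intro hiF
        have hex : ∃ ρ, w1 ρ ≠ 0 := by
          by_contra hcon
          push Not at hcon
          have : mass D (M0 τ t S x) w1 = 0 := by
            unfold mass
            exact sum_eq_zero fun ρ _ => by rw [hcon ρ, zero_mul]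
          linarith
        obtain ⟨ρ, hρ⟩ := hex
        obtain ⟨hwρ, hiD, hρb⟩ := hne1 ρ hρ
        have := hF ρ hwρ i hiF hiD
        rw [this] at hρb
        exact absurd hρb (by simp)
      have hplant := mass_plant D τ t S x w i hiS b
      rw [← hw1] at hplant
      set S1 := insert i S with hS1
      set x1 := Function.update x i (some b) with hx1
      obtain ⟨hbg0, hbgτ⟩ := bg_some_le h0 h2 h3 b
      have hm1' : 0 ≤ mass D (M0 τ t S1 x1) w1 :=
        mass_nonneg hcore1.nonneg (M0_nonneg h0.le h1.le h2.le h3.le S1 x1)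
      have hgrow : 2 * mass D (M0 τ t S x) w ≤ mass D (M0 τ t S1 x1) w1 := by
        have h6 : ν / 2 * mass D (M0 τ t S x) w < τ * mass D (M0 τ t S1 x1) w1 :=
          lt_of_lt_of_le hb (hplant.le.trans (mul_le_mul_of_nonneg_right hbgτ hm1'))
        have h7 : 4 * τ * mass D (M0 τ t S x) w ≤ ν / 2 * mass D (M0 τ t S x) w :=
          mul_le_mul_of_nonneg_right (by linarith) hmpos.le
        have h8 : τ * (4 * mass D (M0 τ t S x) w) < τ * mass D (M0 τ t S1 x1) w1 := by
          calc τ * (4 * mass D (M0 τ t S x) w) = 4 * τ * mass D (M0 τ t S x) w := by ring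
            _ ≤ _ := h7
            _ < _ := h6
        have h9 := lt_of_mul_lt_mul_left h8 h0.le
        linarith
      have hlt1 : (Fintype.card T : ℝ) < 2 ^ n * mass D (M0 τ t S1 x1) w1 := by
        calc (Fintype.card T : ℝ) < 2 ^ (n + 1) * mass D (M0 τ t S x) w := hlt
          _ = 2 ^ n * (2 * mass D (M0 τ t S x) w) := by ring
          _ ≤ 2 ^ n * mass D (M0 τ t S1 x1) w1 :=
            mul_le_mul_of_nonneg_left hgrow (by positivity)
      have hF1 : ∀ ρ, w1 ρ ≠ 0 → ∀ j ∈ F, j ∈ D ρ.1 → ρ.2 j = none :=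
        fun ρ hρ => hF ρ (hne1 ρ hρ).1
      obtain ⟨S', x', w', hSS', hx', hcard, hS'F, hcore', hmass', hall'⟩ :=
        ih S1 x1 w1 hcore1 hF1 hlt1
      refine ⟨S', x', w', ?_, ?_, ?_, ?_, hcore', ?_, hall'⟩
      · exact (Finset.subset_insert i S).trans hSS'
      · intro j hj
        rw [hx' j (Finset.mem_insert_of_mem hj), hx1, Function.update_of_ne]
        rintro rfl
        exact hiS hj
      · have hsub : S' \ S ⊆ insert i (S' \ S1) := by
          intro j hj
          rw [Finset.mem_sdiff] at hj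
          rw [Finset.mem_insert, Finset.mem_sdiff]
          by_cases hji : j = i
          · exact Or.inl hji
          · refine Or.inr ⟨hj.1, fun hmem => ?_⟩
            rcases Finset.mem_insert.1 hmem with h | h
            · exact hji h
            · exact hj.2 h
        calc (S' \ S).card ≤ (insert i (S' \ S1)).card := Finset.card_le_card hsub
          _ ≤ (S' \ S1).card + 1 := Finset.card_insert_le _ _
          _ ≤ n + 1 := by omega
      · intro j hj
        rw [Finset.mem_sdiff] at hj
        by_cases hji : j = i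
        · rw [hji]
          exact hiF
        · apply hS'F
          rw [Finset.mem_sdiff]
          refine ⟨hj.1, fun hmem => ?_⟩
          rcases Finset.mem_insert.1 hmem with h | h
          · exact hji h
          · exact hj.2 h
      · have : mass D (M0 τ t S x) w ≤ 2 * mass D (M0 τ t S x) w := by linarith
        exact this.trans (hgrow.trans hmass')

end Pool.Agent.H910R3.BP.Spread
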