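import Pool.Agent.H910R3.BP.Orc

/-!
# One stage of the construction of the oracle
-/

set_option autoImplicit false

namespace Pool.Agent.H910R3.BP.StageAsm

open Finset Pool.Agent.NPC Pool.Agent.H620R2.Gauge Pool.Agent.H910R3.BP

theorem eval_le_eval (p : Polynomial ℕ) {a b : ℕ} (h : a ≤ b) : p.eval a ≤ p.eval b := by
  rw [Polynomial.eval_eq_sum_range, Polynomial.eval_eq_sum_range]
  exact Finset.sum_le_sum fun i _ => Nat.mul_le_mul_left _ (Nat.pow_le_pow_left h i)

theorem upd_none (G : ℕ → List Bool → Option Bool) (i n m : ℕ) (hmn : m ≤ n)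
    (hG : ∀ j w, m ≤ w.length → G j w = none) : upd G i n (fun _ => none) = G := by
  funext i' w
  unfold upd
  split_ifs with h
  · exact (hG i' w (by rw [h.2]; exact hmn)).symm
  · rfl

theorem reg_upd (G : ℕ → List Bool → Option Bool) (i n : ℕ) (y : Cfg (Cell n)) :
    reg (upd G i n y) i n = y := by
  funext c
  have h : i = i ∧ c.1.length = n := ⟨rfl, c.2⟩
  show upd G i n y i c.1 = y c
  unfold upd
  rw [dif_pos h]
  rfl

theorem reg_agree (G G' : ℕ → List Bool → Option Bool) (i n m' : ℕ) (hn : n < m')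
    (h : Agree m' G G') : reg G' i n = reg G i n := by
  funext c
  exact (h i c.1 (by rw [c.2]; exact hn)).symm

theorem agree_mono {G G' : ℕ → List Bool → Option Bool} {m m' : ℕ} (h : m ≤ m')
    (hA : Agree m' G G') : Agree m G G' := fun i w hw => hA i w (lt_of_lt_of_le hw h)

theorem taskStageAsm : TaskStageAsm := by
  classical
  rintro hLeaf ⟨hA1, hA2, hA3, hA4⟩ hGrowth ⟨C, k, hC⟩ M f i m G hG
  obtain ⟨b, hb⟩ := hA4 f
  obtain ⟨n, hmn, hn⟩ := hGrowth (M.p.comp b + f.p + 1) C k m
  set x : List Bool := List.replicate n false with hx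
  have hxl : x.length = n := by rw [hx, List.length_replicate]
  obtain ⟨m2, hm2⟩ := hA2 f x
  cases hf : f.out (orc G) x with
  | none =>
    refine ⟨n, max m2 (n + 1), fun _ => none, hmn, by omega, Or.inl rfl, Or.inl ?_⟩
    intro G' hG'
    rw [upd_none G i n m hmn hG] at hG'
    rw [← hm2 G G' (agree_mono (le_max_left _ _) hG'), hf]
  | some z =>
    have hz : z.length ≤ b.eval n := by
      have := hb (orc G) x z hf
      rwa [hxl] at this
    obtain ⟨T, ftT, deT, D, L, hLoc, hD, hT, hcnt⟩ := hLeaf M G i n z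
    obtain ⟨Q, hQc, hQ⟩ := hA3 f x (orc G)
    rw [hxl] at hQc
    obtain ⟨m1, hm1⟩ := hA1 M z
    have hPe : (M.p.comp b + f.p + 1).eval n = M.p.eval (b.eval n) + f.p.eval n + 1 := by
      simp [Polynomial.eval_comp]
    have hR : M.p.eval z.length ≤ M.p.eval (b.eval n) := eval_le_eval _ hz
    let Z : Finset (Cell n) := univ.filter fun c => ∃ q ∈ Q, lead q = i ∧ cellW q = c.1
    have hZ : Z.card ≤ Q.card := by
      have h1 : (Z.image Subtype.val).card = Z.card :=
        Finset.card_image_of_injective _ Subtype.val_injective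
      have h2 : Z.image Subtype.val ⊆ Q.image cellW := by
        intro w hw
        obtain ⟨c, hc, rfl⟩ := Finset.mem_image.mp hw
        obtain ⟨q, hq, _, hq2⟩ := (Finset.mem_filter.mp hc).2
        exact Finset.mem_image.mpr ⟨q, hq, hq2⟩
      rw [← h1]
      exact (Finset.card_le_card h2).trans Finset.card_image_le
    obtain ⟨y, hy0, hyG⟩ := hC (Cell n) T D L Z ((M.p.comp b + f.p + 1).eval n)
      (by rw [hPe]; omega) hLoc (fun a => (hD a).trans (by rw [hPe]; omega))
      (by rw [hPe]; omega) (hT.trans (Nat.pow_le_pow_right (by norm_num) (by rw [hPe]; omega)))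
      (by rw [card_vector, Fintype.card_bool]; exact hn)
    have hout : f.out (orc (upd G i n y)) x = some z := by
      rw [hQ (orc (upd G i n y)) ?_, hf]
      intro q hq
      have hkey : upd G i n y (lead q) (cellW q) = G (lead q) (cellW q) := by
        unfold upd
        split_ifs with h
        · rw [hy0 ⟨cellW q, h.2⟩ (Finset.mem_filter.mpr ⟨mem_univ _, q, hq, h.1, rfl⟩),
            hG (lead q) (cellW q) (by rw [h.2]; exact hmn)]
        · rfl
      unfold orc
      rw [hkey]
    have hbad : ∀ G', Agree (max (max m1 m2) (n + 1)) (upd G i n y) G' → Bad M G' i n z := by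
      intro G' hG'
      have hr : reg G' i n = y := by
        rw [reg_agree _ _ i n _ (by omega) hG', reg_upd]
      obtain ⟨e1, e2⟩ := hm1 _ _ (agree_mono (by omega) hG' : Agree m1 (upd G i n y) G')
      obtain ⟨c1, c2⟩ := hcnt y
      unfold Bad
      rw [← e1, ← e2, ← c1, ← c2, hr]
      exact hyG
    refine ⟨n, max (max m1 m2) (n + 1), y, hmn, by omega, Or.inr ⟨z, hbad⟩, Or.inr ⟨z, ?_⟩⟩
    intro G' hG'
    refine ⟨?_, hbad G' hG'⟩
    rw [← hm2 _ _ (agree_mono (by omega) hG' : Agree m2 (upd G i n y) G'), hout]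

end Pool.Agent.H910R3.BP.StageAsm
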