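import Pool.Agent.H910R3.BP.Stmts

/-!
# Upper tail / truncation (task Tail, helper318)
-/

set_option autoImplicit false

namespace Pool.Agent.H910R3.BP.Tail

open Finset Classical

variable {I T : Type} [Fintype I] [DecidableEq I] [Fintype T] [DecidableEq T]

/-- restriction of a configuration to `W` -/
def rst (W : Finset I) (y : Cfg I) : Cfg I := fun i => if i ∈ W then y i else none

/-- `ρ` is a path with verdict `u` -/
def IsP (D : T → Finset I) (L : Bool → T → Cfg I → Bool) (u : Bool) (ρ : T × Cfg I) : Prop :=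
  (∀ i, i ∉ D ρ.1 → ρ.2 i = none) ∧ L u ρ.1 ρ.2 = true

theorem sum_paths (D : T → Finset I) (L : Bool → T → Cfg I → Bool) (u : Bool) (hL : Loc D L)
    (y : Cfg I) (g : T × Cfg I → ℝ) :
    ∑ ρ : T × Cfg I, g ρ * (if IsP D L u ρ then 1 else 0) *
      (if Cyl (D ρ.1) ρ.2 y then 1 else 0) = ∑ a, if L u a y then g (a, rst (D a) y) else 0 := by
  rw [Fintype.sum_prod_type]
  refine sum_congr rfl fun a _ => ?_
  have hloc : L u a (rst (D a) y) = L u a y := by
    apply hL
    intro i hi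
    simp only [rst, hi, if_true]
  rw [Finset.sum_eq_single (rst (D a) y)]
  · have hcyl : Cyl (D a) (rst (D a) y) y := by
      intro i hi
      simp only [rst, hi, if_true]
    have hoff : ∀ i, i ∉ D a → rst (D a) y i = none := by
      intro i hi
      simp only [rst, hi, if_false]
    by_cases h : L u a y = true
    · have h1 : IsP D L u (a, rst (D a) y) := ⟨hoff, hloc.trans h⟩
      rw [if_pos h1, if_pos h, mul_one]
      change g (a, rst (D a) y) * (if Cyl (D a) (rst (D a) y) y then 1 else 0) = _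
      rw [if_pos hcyl, mul_one]
    · have h1 : ¬ IsP D L u (a, rst (D a) y) := fun h2 => h (hloc.symm.trans h2.2)
      rw [if_neg h1, if_neg h]
      ring
  · intro v _ hv
    by_cases h1 : IsP D L u (a, v)
    · by_cases h2 : Cyl (D a) v y
      · exfalso
        apply hv
        funext i
        by_cases hi : i ∈ D a
        · simp only [rst, hi, if_true]
          exact (h2 i hi).symm
        · simp only [rst, hi, if_false]
          exact h1.1 i hi
      · change g (a, v) * _ * (if Cyl (D a) v y then 1 else 0) = 0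
        rw [if_neg h2, mul_zero]
    · rw [if_neg h1]
      ring
  · intro h
    exact absurd (mem_univ _) h

/-- the weights -/
noncomputable def ww (D : T → Finset I) (L : Bool → T → Cfg I → Bool) (u : Bool)
    (μ : I → Option Bool → ℝ) (θ : Cfg I → ℝ) (ρ : T × Cfg I) : ℝ :=
  if IsP D L u ρ then
    Ex μ (fun y => θ y * (if Cyl (D ρ.1) ρ.2 y then 1 else 0)) / Pm D μ ρ else 0

theorem Pm_eq (D : T → Finset I) {μ : I → Option Bool → ℝ} (h : ∀ i, ∑ a, μ i a = 1)
    (ρ : T × Cfg I) : Pm D μ ρ = Ex μ (fun y => if Cyl (D ρ.1) ρ.2 y then 1 else 0) := by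
  rw [Ex_cyl h]
  rfl

theorem Pm_nonneg (D : T → Finset I) {μ : I → Option Bool → ℝ} (h : ∀ i a, 0 ≤ μ i a)
    (ρ : T × Cfg I) : 0 ≤ Pm D μ ρ := prod_nonneg fun i _ => h i _

theorem num_nonneg (D : T → Finset I) {μ : I → Option Bool → ℝ} (h0 : ∀ i a, 0 ≤ μ i a)
    {θ : Cfg I → ℝ} (hθ0 : ∀ y, 0 ≤ θ y) (ρ : T × Cfg I) :
    0 ≤ Ex μ (fun y => θ y * (if Cyl (D ρ.1) ρ.2 y then 1 else 0)) := by
  refine Ex_nonneg h0 fun y => mul_nonneg (hθ0 y) ?_
  split_ifs
  · exact zero_le_one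
  · exact le_rfl

theorem num_le (D : T → Finset I) {μ : I → Option Bool → ℝ} (h0 : ∀ i a, 0 ≤ μ i a)
    (h : ∀ i, ∑ a, μ i a = 1) {θ : Cfg I → ℝ} (hθ1 : ∀ y, θ y ≤ 1) (ρ : T × Cfg I) :
    Ex μ (fun y => θ y * (if Cyl (D ρ.1) ρ.2 y then 1 else 0)) ≤ Pm D μ ρ := by
  rw [Pm_eq D h]
  refine Ex_mono h0 fun y => ?_
  split_ifs
  · rw [mul_one]; exact hθ1 y
  · rw [mul_zero]

theorem ww_mul (D : T → Finset I) (L : Bool → T → Cfg I → Bool) (u : Bool)
    {μ : I → Option Bool → ℝ} (h0 : ∀ i a, 0 ≤ μ i a)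
    (h : ∀ i, ∑ a, μ i a = 1) {θ : Cfg I → ℝ} (hθ0 : ∀ y, 0 ≤ θ y) (hθ1 : ∀ y, θ y ≤ 1)
    (ρ : T × Cfg I) :
    ww D L u μ θ ρ * Pm D μ ρ = (if IsP D L u ρ then 1 else 0) *
      Ex μ (fun y => θ y * (if Cyl (D ρ.1) ρ.2 y then 1 else 0)) := by
  unfold ww
  by_cases hp : IsP D L u ρ
  · rw [if_pos hp, if_pos hp, one_mul]
    by_cases hP : Pm D μ ρ = 0
    · have h1 := num_le D h0 h hθ1 ρ
      have h2 := num_nonneg D h0 hθ0 ρ
      rw [hP] at h1 ⊢
      rw [mul_zero]
      exact le_antisymm h2 h1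
    · rw [div_mul_cancel₀ _ hP]
  · rw [if_neg hp, if_neg hp, zero_mul, zero_mul]

/-- weighted mass as an expectation -/
theorem mass_ww (D : T → Finset I) (L : Bool → T → Cfg I → Bool) (u : Bool) (hL : Loc D L)
    {μ : I → Option Bool → ℝ} (h0 : ∀ i a, 0 ≤ μ i a)
    (h : ∀ i, ∑ a, μ i a = 1) {θ : Cfg I → ℝ} (hθ0 : ∀ y, 0 ≤ θ y) (hθ1 : ∀ y, θ y ≤ 1)
    (g : T × Cfg I → ℝ) :
    mass D μ (fun ρ => g ρ * ww D L u μ θ ρ) =
      Ex μ (fun y => θ y * ∑ a, if L u a y then g (a, rst (D a) y) else 0) := by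
  unfold mass
  have h1 : ∀ ρ : T × Cfg I, g ρ * ww D L u μ θ ρ * Pm D μ ρ =
      Ex μ (fun y => θ y * (g ρ * (if IsP D L u ρ then 1 else 0) *
        (if Cyl (D ρ.1) ρ.2 y then 1 else 0))) := by
    intro ρ
    rw [mul_assoc, ww_mul D L u h0 h hθ0 hθ1, ← mul_assoc, ← Ex_smul]
    congr 1
    funext y
    ring
  rw [sum_congr rfl fun ρ _ => h1 ρ, ← Ex_sum]
  congr 1
  funext y
  rw [← Finset.mul_sum, sum_paths D L u hL y g]

theorem isCore (D : T → Finset I) (L : Bool → T → Cfg I → Bool) (u : Bool)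
    {μ : I → Option Bool → ℝ} (h0 : ∀ i a, 0 ≤ μ i a)
    (h : ∀ i, ∑ a, μ i a = 1) {θ : Cfg I → ℝ} (hθ0 : ∀ y, 0 ≤ θ y) (hθ1 : ∀ y, θ y ≤ 1) :
    IsCore D L u (ww D L u μ θ) := by
  refine ⟨fun ρ => ?_, fun ρ => ?_, fun ρ hρ => ?_, fun ρ hρ => ?_⟩
  · unfold ww
    split_ifs
    · exact div_nonneg (num_nonneg D h0 hθ0 ρ) (Pm_nonneg D h0 ρ)
    · exact le_rfl
  · unfold ww
    split_ifs
    · exact div_le_one_of_le₀ (num_le D h0 h hθ1 ρ) (Pm_nonneg D h0 ρ)
    · exact zero_le_one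
  · by_contra hc
    apply hρ
    have hn : ¬ IsP D L u ρ := fun hp => hc hp.1
    unfold ww
    rw [if_neg hn]
  · by_contra hc
    apply hρ
    have hn : ¬ IsP D L u ρ := fun hp => hc hp.2
    unfold ww
    rw [if_neg hn]

/-- probability of a needle in a background cell -/
theorem Ex_needle (τ t : ℝ) (S : Finset I) (x : Cfg I) (i : I) (hi : i ∉ S) :
    Ex (M0 τ t S x) (fun y => if y i ≠ none then 1 else 0) = τ := by
  have h1 : ∀ y : Cfg I, (if y i ≠ none then (1 : ℝ) else 0) =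
      ∏ j, (if j = i then (if y j ≠ none then (1 : ℝ) else 0) else 1) := by
    intro y
    rw [Finset.prod_ite_eq' univ i (fun j => if y j ≠ none then (1 : ℝ) else 0),
      if_pos (mem_univ i)]
  have h2 : (fun y : Cfg I => if y i ≠ none then (1 : ℝ) else 0) =
      fun y => ∏ j, (fun (j : I) (a : Option Bool) =>
        (if j = i then (if a ≠ none then (1 : ℝ) else 0) else 1)) j (y j) := by
    funext y
    exact h1 y
  rw [h2]
  refine (Ex_prod (M0 τ t S x) (fun (j : I) (a : Option Bool) =>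
        (if j = i then (if a ≠ none then (1 : ℝ) else 0) else 1))).trans ?_
  rw [Finset.prod_eq_single i]
  · simp only [if_true, M0, hi, if_false]
    rw [Fintype.sum_option, Fintype.sum_bool]
    simp only [bg]
    simp
    ring
  · intro j _ hj
    simp only [hj, if_false, mul_one]
    exact M0_sum τ t S x j
  · intro h
    exact absurd (mem_univ i) h

theorem taskTail : TaskTail := by
  intro I T _ _ _ _ D L τ t B ε u S x hL hτ0 hτ1 ht0 ht1 hB hε hE
  set μ := M0 τ t S x with hμ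
  have h0 : ∀ i a, 0 ≤ μ i a := M0_nonneg hτ0.le hτ1.le ht0.le ht1.le S x
  have h1 : ∀ i, ∑ a, μ i a = 1 := M0_sum τ t S x
  let θ : Cfg I → ℝ := fun y => if B ≤ U L u y then B / U L u y else 0
  have hθ0 : ∀ y, 0 ≤ θ y := by
    intro y
    change 0 ≤ (if B ≤ U L u y then B / U L u y else 0)
    split_ifs with hy
    · exact div_nonneg hB.le (hB.le.trans hy)
    · exact le_rfl
  have hθ1 : ∀ y, θ y ≤ 1 := by
    intro y
    change (if B ≤ U L u y then B / U L u y else 0) ≤ 1
    split_ifs with hy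
    · exact div_le_one_of_le₀ hy (hB.le.trans hy)
    · exact zero_le_one
  have hθU : ∀ y, θ y * U L u y = B * (if B ≤ U L u y then 1 else 0) := by
    intro y
    change (if B ≤ U L u y then B / U L u y else 0) * U L u y = _
    split_ifs with hy
    · rw [div_mul_cancel₀ _ (lt_of_lt_of_le hB hy).ne', mul_one]
    · rw [zero_mul, mul_zero]
  have hmass : mass D μ (ww D L u μ θ) = B * Ex μ (fun y => if B ≤ U L u y then 1 else 0) := by
    have := mass_ww D L u hL h0 h1 hθ0 hθ1 (fun _ => 1)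
    simp only [one_mul] at this
    rw [this, ← Ex_smul]
    congr 1
    funext y
    exact hθU y
  have hmass2 : ε * B ≤ mass D μ (ww D L u μ θ) := by
    rw [hmass, mul_comm]
    exact mul_le_mul_of_nonneg_left hE hB.le
  refine ⟨ww D L u μ θ, isCore D L u h0 h1 hθ0 hθ1, hmass2, fun i hi => ?_⟩
  have hNH : NH D μ (ww D L u μ θ) i ≤ B * τ := by
    have h2 : res (ww D L u μ θ) (fun ρ => i ∈ D ρ.1 ∧ ρ.2 i ≠ none) =
        fun ρ => (if i ∈ D ρ.1 ∧ ρ.2 i ≠ none then (1 : ℝ) else 0) * ww D L u μ θ ρ := by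
      funext ρ
      unfold res
      split_ifs
      · rw [one_mul]
      · rw [zero_mul]
    unfold NH
    rw [h2, mass_ww D L u hL h0 h1 hθ0 hθ1
      (fun ρ => if i ∈ D ρ.1 ∧ ρ.2 i ≠ none then (1 : ℝ) else 0)]
    rw [← Ex_needle τ t S x i hi, ← Ex_smul]
    refine Ex_mono h0 fun y => ?_
    have h3 : (∑ a, if L u a y = true then
        (if i ∈ D (a, rst (D a) y).1 ∧ (a, rst (D a) y).2 i ≠ none then (1 : ℝ) else 0) else 0) ≤
        U L u y * (if y i ≠ none then 1 else 0) := by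
      unfold U
      rw [Finset.sum_mul]
      refine sum_le_sum fun a _ => ?_
      by_cases ha : L u a y = true
      · rw [if_pos ha, if_pos ha, one_mul]
        by_cases hc : i ∈ D (a, rst (D a) y).1 ∧ (a, rst (D a) y).2 i ≠ none
        · rw [if_pos hc]
          have hc' : y i ≠ none := by
            have h4 := hc.2
            change (if i ∈ D a then y i else none) ≠ none at h4
            rwa [if_pos hc.1] at h4
          rw [if_pos hc']
        · rw [if_neg hc]
          split_ifs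
          · exact zero_le_one
          · exact le_rfl
      · rw [if_neg ha, if_neg ha, zero_mul]
    refine (mul_le_mul_of_nonneg_left h3 (hθ0 y)).trans ?_
    rw [← mul_assoc, hθU]
    refine mul_le_mul_of_nonneg_right ?_ ?_
    · refine (mul_le_mul_of_nonneg_left ?_ hB.le).trans (mul_one B).le
      split_ifs
      · exact le_rfl
      · exact zero_le_one
    · split_ifs
      · exact zero_le_one
      · exact le_rfl
  calc ε * NH D μ (ww D L u μ θ) i ≤ ε * (B * τ) := mul_le_mul_of_nonneg_left hNH hε.le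
    _ = τ * (ε * B) := by ring
    _ ≤ τ * mass D μ (ww D L u μ θ) := mul_le_mul_of_nonneg_left hmass2 hτ0.le

end Pool.Agent.H910R3.BP.Tail
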