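import Pool.Agent.H910R3.BP.Params
import Pool.Agent.H910R3.BP.Spread
import Pool.Agent.H910R3.BP.Tail
import Pool.Agent.H910R3.BP.Second
import Pool.Agent.H910R3.BP.Compare
import Pool.Agent.H910R3.BP.End
import Pool.Agent.H910R3.BP.Persist
import Pool.Agent.H910R3.BP.Heavy
import Pool.Agent.H910R3.BP.Low
import Pool.Agent.H910R3.BP.Amp
import Pool.Agent.H910R3.BP.Poly
import Pool.Agent.H910R3.BP.Count
import Pool.Agent.H910R3.BP.Leaf
import Pool.Agent.H910R3.BP.Alg
import Pool.Agent.H910R3.BP.Growth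
import Pool.Agent.H910R3.BP.StageAsm
import Pool.Agent.H910R3.BP.Limit
import Pool.Agent.H620R2.Gauge.A1

set_option autoImplicit false

namespace Pool.Agent.H910R3.BP

open Finset Pool.Agent.NPC Pool.Agent.H620R2.Gauge

theorem core : Core :=
  Amp.taskAmp (coreGap ⟨Spread.taskSpread, Tail.taskTail, Second.taskSecond, Compare.taskCompare,
    End.taskEnd, Persist.taskPersist, Heavy.taskHeavy, Low.taskLow⟩)

theorem nalg_countable : Countable NAlg := by
  have h1 : Countable {D : List Bool → List Bool | PolyTime D} := countable_polyTime.to_subtype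
  have h2 : Countable (Polynomial ℕ) := by
    have : Function.Injective (fun p : Polynomial ℕ => (p.toFinsupp.coeff : ℕ →₀ ℕ)) := by
      intro p q h
      ext n
      exact DFunLike.congr_fun h n
    exact this.countable
  let F : NAlg → {D : List Bool → List Bool | PolyTime D} × Polynomial ℕ :=
    fun M => (⟨M.D, M.poly⟩, M.p)
  have hF : Function.Injective F := by
    intro M N h
    obtain ⟨D, hD, p⟩ := M
    obtain ⟨D', hD', p'⟩ := N
    simp only [F, Prod.mk.injEq, Subtype.mk.injEq] at h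
    obtain ⟨rfl, rfl⟩ := h
    rfl
  exact hF.countable

theorem arith1 {a b W N : ℕ} (h1 : 4 * b ≤ a) (h2 : 1 ≤ a) (hW : W = 4 * N) (hN : 0 < N) :
    3 * (a * W + (b * W + (N - a - b))) < 4 * (a * W) := by
  have h3 : 3 * b + 1 ≤ a := by omega
  have h4 : (3 * b + 1) * W ≤ a * W := Nat.mul_le_mul_right _ h3
  have h5 : (3 * b + 1) * W = 3 * (b * W) + W := by ring
  have h6 : N - a - b ≤ N := by omega
  omega

theorem arith2 {a b W N : ℕ} (h1 : 4 * a ≤ b) (h2 : 1 ≤ b) (hW : W = 4 * N) (hN : 0 < N) :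
    3 * (a * W + (b * W + (N - a - b))) < 4 * (b * W + (N - a - b)) := by
  have h3 : 3 * a + 1 ≤ b := by omega
  have h4 : (3 * a + 1) * W ≤ b * W := Nat.mul_le_mul_right _ h3
  have h5 : (3 * a + 1) * W = 3 * (a * W) + W := by ring
  omega

theorem final_len : ∃ A : Oracle, ∀ K, IsBPPpath A K →
    ∃ L, IsBPPpath A L ∧ (∀ x y : List Bool, x.length = y.length → (x ∈ L ↔ y ∈ L)) ∧
      ¬ ∃ F, IsFP A F ∧ ∀ x, x ∈ L ↔ F x ∈ K := by
  have hc1 : Countable NAlg := nalg_countable
  have hc2 : Countable Alg := inferInstance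
  have hpoly := Poly.taskPoly
  have hn1 : Nonempty NAlg := by
    obtain ⟨D, hD, _⟩ := hpoly 0
    exact ⟨⟨D, hD, 0⟩⟩
  have hn2 : Nonempty Alg := by
    obtain ⟨D, hD, _⟩ := hpoly 0
    exact ⟨⟨D, hD, 0⟩⟩
  obtain ⟨g, hg⟩ := exists_surjective_nat NAlg
  obtain ⟨h, hh⟩ := exists_surjective_nat Alg
  obtain ⟨G, hG1, hG2⟩ := Limit.taskLimit
    (StageAsm.taskStageAsm Leaf.taskLeaf Alg.taskAlg Growth.taskGrowth) core g h
  refine ⟨orc G, fun K hK => ?_⟩
  obtain ⟨M0, hM0⟩ := hK
  obtain ⟨i, rfl⟩ := hg M0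
  -- the promise
  have hprom : ∀ z, (z ∈ K → 3 * (g i).rej (orc G) z < (g i).acc (orc G) z) ∧
      (z ∉ K → 3 * (g i).acc (orc G) z < (g i).rej (orc G) z) := by
    intro z
    obtain ⟨h1, h2⟩ := hM0 z
    exact ⟨fun h => by have := h1 h; omega, fun h => by have := h2 h; omega⟩
  have hbad : ∀ n z, Bad (g i) G i n z →
      (4 * nd false (reg G i n) ≤ nd true (reg G i n) ∧ 1 ≤ nd true (reg G i n) ∧ z ∉ K) ∨
      (4 * nd true (reg G i n) ≤ nd false (reg G i n) ∧ 1 ≤ nd false (reg G i n) ∧ z ∈ K) := by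
    intro n z hb
    unfold Bad at hb
    obtain ⟨h1, h2⟩ := hprom z
    by_cases hz : z ∈ K
    · right
      have h3 := h1 hz
      by_contra hc
      apply hb
      refine ⟨Or.inl h3, fun _ _ => h3, fun h4 h5 => ?_⟩
      exact absurd ⟨h4, h5, hz⟩ hc
    · left
      have h3 := h2 hz
      by_contra hc
      apply hb
      refine ⟨Or.inr h3, fun h4 h5 => ?_, fun _ _ => h3⟩
      exact absurd ⟨h4, h5, hz⟩ hc
  refine ⟨{x | 4 * nd false (reg G i x.length) ≤ nd true (reg G i x.length) ∧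
    1 ≤ nd true (reg G i x.length)}, ?_, ?_, ?_⟩
  · obtain ⟨D, hD, hDe⟩ := hpoly i
    refine ⟨⟨D, hD, Polynomial.C 2 * Polynomial.X + Polynomial.C 5⟩, fun x => ?_⟩
    obtain ⟨h1, h2, h3⟩ := Count.taskCount i
      ⟨D, hD, Polynomial.C 2 * Polynomial.X + Polynomial.C 5⟩ G x (fun a => hDe x a) (by simp)
    rw [h1, h2]
    have hW : 2 ^ (x.length + 2) = 4 * 2 ^ x.length := by ring
    have hN : 0 < 2 ^ x.length := by positivity
    constructor
    · intro hx
      exact arith1 hx.1 hx.2 hW hN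
    · intro hx
      rcases hG1 i x.length with he | ⟨z, hz⟩
      · have e1 : ∀ u, nd u (reg G i x.length) = 0 := by
          intro u
          unfold nd reg
          rw [card_eq_zero, filter_eq_empty_iff]
          intro c _
          rw [he c.1 c.2]
          simp
        rw [e1, e1]
        simp
      · rcases hbad _ z hz with ⟨h4, h5, _⟩ | ⟨h4, h5, _⟩
        · exact absurd ⟨h4, h5⟩ hx
        · exact arith2 h4 h5 hW hN
  · intro x y hxy
    have key : ∀ m m', m = m' → ((4 * nd false (reg G i m) ≤ nd true (reg G i m) ∧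
        1 ≤ nd true (reg G i m)) ↔ (4 * nd false (reg G i m') ≤ nd true (reg G i m') ∧
        1 ≤ nd true (reg G i m'))) := by
      rintro m m' rfl
      rfl
    exact key _ _ hxy
  · rintro ⟨F, ⟨f, hf⟩, hF⟩
    obtain ⟨j, rfl⟩ := hh f
    obtain ⟨n, hn | ⟨z, hz, hb⟩⟩ := hG2 i j
    · rw [hf] at hn
      exact absurd hn (by simp)
    · rw [hf] at hz
      have hz' : F (List.replicate n false) = z := by simpa using hz
      have hx := hF (List.replicate n false)
      rw [hz'] at hx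
      have key : ∀ m, m = n → ((4 * nd false (reg G i m) ≤ nd true (reg G i m) ∧
          1 ≤ nd true (reg G i m)) ↔ z ∈ K) → ((4 * nd false (reg G i n) ≤ nd true (reg G i n) ∧
          1 ≤ nd true (reg G i n)) ↔ z ∈ K) := by
        rintro m rfl h
        exact h
      replace hx := key _ List.length_replicate hx
      rcases hbad n z hb with ⟨h4, h5, h6⟩ | ⟨h4, h5, h6⟩
      · exact h6 (hx.1 ⟨h4, h5⟩)
      · have := hx.2 h6
        omega

theorem final : Final := by
  obtain ⟨A, hA⟩ := final_len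
  refine ⟨A, fun K hK => ?_⟩
  obtain ⟨L, h1, _, h3⟩ := hA K hK
  exact ⟨L, h1, h3⟩

end Pool.Agent.H910R3.BP
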