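import Pool.Agent.H910R3.BP.Orc

/-!
# Exponential growth beats polynomials (task Growth)
-/

set_option autoImplicit false

namespace Pool.Agent.H910R3.BP.Growth

open Filter Topology

theorem poly_bound (Q : Polynomial ℕ) : ∃ A d : ℕ, ∀ n : ℕ, Q.eval n ≤ A * (n + 1) ^ d := by
  induction Q using Polynomial.induction_on' with
  | add p q hp hq =>
    obtain ⟨A, d, h⟩ := hp
    obtain ⟨B, e, h'⟩ := hq
    refine ⟨A + B, d + e, fun n => ?_⟩
    rw [Polynomial.eval_add]
    have h1 : (n + 1) ^ d ≤ (n + 1) ^ (d + e) := Nat.pow_le_pow_right (by omega) (by omega)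
    have h2 : (n + 1) ^ e ≤ (n + 1) ^ (d + e) := Nat.pow_le_pow_right (by omega) (by omega)
    calc p.eval n + q.eval n ≤ A * (n + 1) ^ d + B * (n + 1) ^ e := add_le_add (h n) (h' n)
      _ ≤ A * (n + 1) ^ (d + e) + B * (n + 1) ^ (d + e) :=
          add_le_add (Nat.mul_le_mul_left _ h1) (Nat.mul_le_mul_left _ h2)
      _ = (A + B) * (n + 1) ^ (d + e) := by ring
  | monomial k a =>
    refine ⟨a, k, fun n => ?_⟩
    rw [Polynomial.eval_monomial]
    exact Nat.mul_le_mul_left _ (Nat.pow_le_pow_left (by omega) _)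

theorem taskGrowth : TaskGrowth := by
  intro P C k m
  obtain ⟨A, d, h⟩ := poly_bound (Polynomial.C C * P ^ k)
  have ht : Tendsto (fun n : ℕ => ((n : ℝ) ^ d / (2 : ℝ) ^ n)) atTop (𝓝 0) :=
    tendsto_pow_const_div_const_pow_of_one_lt d (by norm_num)
  have ht' := ht.comp (tendsto_add_atTop_nat 1)
  have hpos : (0 : ℝ) < 1 / (2 * A + 1) := by positivity
  have hev := (ht'.eventually (gt_mem_nhds hpos)).and (eventually_ge_atTop m)
  obtain ⟨n, hn, hm⟩ := hev.exists
  refine ⟨n, hm, ?_⟩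
  have h1 := h n
  simp only [Polynomial.eval_mul, Polynomial.eval_C, Polynomial.eval_pow] at h1
  refine h1.trans ?_
  simp only [Function.comp_apply] at hn
  have h2 : (0 : ℝ) < 2 ^ (n + 1) := by positivity
  rw [div_lt_div_iff₀ h2 (by positivity)] at hn
  push_cast at hn
  have h3 : ((A * (n + 1) ^ d : ℕ) : ℝ) ≤ ((2 ^ n : ℕ) : ℝ) := by
    push_cast
    have h4 : (0 : ℝ) ≤ ((n : ℝ) + 1) ^ d := by positivity
    rw [pow_succ] at hn
    nlinarith
  exact_mod_cast h3

end Pool.Agent.H910R3.BP.Growth
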