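import Pool.Agent.H910R3.BP.Step

set_option autoImplicit false

namespace Pool.Agent.H910R3.BP

open Finset

section

variable {I T : Type} [Fintype I] [DecidableEq I] [Fintype T] [DecidableEq T]

open Classical in
theorem exists_good {μ : I → Option Bool → ℝ} (h0 : ∀ i a, 0 ≤ μ i a)
    (h1 : ∀ i, ∑ a, μ i a = 1) (B : Fin 5 → Cfg I → Prop)
    (hB : ∑ k, Ex μ (fun y => if B k y then 1 else 0) < 1) :
    ∃ y, 0 < wt μ y ∧ ∀ k, ¬ B k y := by
  by_contra hc
  push Not at hc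
  have h2 : Ex μ (fun _ => 1) ≤ Ex μ (fun y => ∑ k, if B k y then 1 else 0) := by
    unfold Ex
    refine sum_le_sum fun y _ => ?_
    rcases (wt_nonneg h0 y).eq_or_lt with h3 | h3
    · rw [← h3]; simp
    · obtain ⟨k, hk⟩ := hc y h3
      apply mul_le_mul_of_nonneg_left _ h3.le
      have h4 : (if B k y then (1 : ℝ) else 0) ≤ ∑ k, if B k y then 1 else 0 :=
        single_le_sum (f := fun k => if B k y then (1 : ℝ) else 0)
          (fun k _ => by split_ifs <;> norm_num) (mem_univ k)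
      rw [if_pos hk] at h4
      exact h4
  rw [Ex_one h1, Ex_sum univ μ (fun k y => if B k y then 1 else 0)] at h2
  linarith

theorem M0_le {τ t t' β : ℝ} (hβ : 1 ≤ β) (h : ∀ a, bg τ t a ≤ β * bg τ t' a) (S : Finset I)
    (x : Cfg I) (i : I) (a : Option Bool) : M0 τ t S x i a ≤ β * M0 τ t' S x i a := by
  unfold M0
  split_ifs
  · linarith
  · linarith
  · exact h a

theorem wt_pos_eq {τ t : ℝ} {S : Finset I} {x y : Cfg I} (h : 0 < wt (M0 τ t S x) y) :
    ∀ i ∈ S, y i = x i := by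
  intro i hi
  by_contra hne
  have : wt (M0 τ t S x) y = 0 := by
    unfold wt
    exact prod_eq_zero (mem_univ i) (by unfold M0; rw [if_pos hi, if_neg hne])
  linarith

theorem Pm_ne_eq {D : T → Finset I} {τ t : ℝ} {S : Finset I} {x : Cfg I} {ρ : T × Cfg I}
    (h : Pm D (M0 τ t S x) ρ ≠ 0) : ∀ i ∈ S, i ∈ D ρ.1 → ρ.2 i = x i := by
  intro i hi hD
  by_contra hne
  apply h
  unfold Pm
  exact prod_eq_zero hD (by unfold M0; rw [if_pos hi, if_neg hne])

end

/-- the tasks for the core -/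
structure Tasks : Prop where
  spread : TaskSpread
  tail : TaskTail
  second : TaskSecond
  compare : TaskCompare
  fin : TaskEnd
  persist : TaskPersist
  heavy : TaskHeavy
  low : TaskLow

section

variable {I T : Type} [Fintype I] [DecidableEq I] [Fintype T] [DecidableEq T]

open Classical in
/-- What we get from a maximal state. -/
theorem facts (K : Tasks) (P : Par) (D : T → Finset I) (L : Bool → T → Cfg I → Bool)
    (hL : Loc D L) (hD : ∀ a, (D a).card ≤ P.s) (hT : Fintype.card T ≤ 2 ^ P.s) (Z : Finset I) :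
    ∃ (S : Finset I) (x : Cfg I) (M : ℕ × Bool → ℝ), Z ⊆ S ∧ (∀ i ∈ Z, x i = none) ∧
      S.card ≤ Z.card + P.nmax * (2 * P.s + 1) ∧
      (∀ p ∈ PP P.g, 0 ≤ M p ∧
        Ex (M0 P.τ (P.t p.1) S x) (fun y => if 16 * (M p + 1) ≤ U L p.2 y then 1 else 0) < 1 / 8) ∧
      ∀ p ∈ PP P.g, 100 ≤ M p → ∀ j, (j + 1 = p.1 ∨ j = p.1 + 1) →
        Ex (M0 P.τ (P.t j) S x) (fun y => if U L p.2 y < M p / 4 then 1 else 0) ≤ 1 / 5 := by
  have hmax : ∃ n, (∃ S x w, State P D L Z n S x w) ∧ ¬ ∃ S x w, State P D L Z (n + 1) S x w := by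
    by_contra hc
    push Not at hc
    have hall : ∀ n, ∃ S x w, State P D L Z n S x w := by
      intro n
      induction n with
      | zero => exact ⟨_, _, _, state_zero P D L Z⟩
      | succ n ih =>
        obtain ⟨S, x, w, h⟩ := ih
        exact hc n ⟨S, x, w, h⟩
    obtain ⟨S, x, w, h⟩ := hall P.nmax
    exact absurd (state_bound P D L hL hT Z h) (lt_irrefl _)
  obtain ⟨n, ⟨S, x, w, hst⟩, hno⟩ := hmax
  have hn : n < P.nmax := state_bound P D L hL hT Z hst
  have hlam0 := P.lam0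
  have hν0 : 0 < P.ν := by linarith [P.τ0, P.τν]
  have hpw : (1 + 2 * P.lam) ^ n ≤ 2 :=
    (pow_le_pow_right₀ (by linarith) hn.le).trans P.lamn
  have hpw0 : (0 : ℝ) ≤ (1 + 2 * P.lam) ^ n := by positivity
  -- no progress
  have hnp : ∀ (S' : Finset I) (x' : Cfg I) (p0 : ℕ × Bool) (w' : T × Cfg I → ℝ),
      p0 ∈ PP P.g → S ⊆ S' → (∀ i ∈ S, x' i = x i) → (S' \ S).card ≤ 2 * P.s + 1 →
      (∀ p ∈ PP P.g, ∀ i ∈ S' \ S, EM D (M0 P.τ (P.t p.1) S x) (w p) i ≤
        P.η * ms P D S x p (w p)) → IsCore D L p0.2 w' →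
      (∀ i, i ∉ S' → NH D (M0 P.τ (P.t p0.1) S' x') w' i ≤ P.ν * ms P D S' x' p0 w') →
      ms P D S' x' p0 w' + 1 < (1 + 1 / 100) * (ms P D S x p0 (w p0) + 1) := by
    intro S' x' p0 w' h1 h2 h3 h4 h5 h6 h7
    by_contra hc
    push Not at hc
    obtain ⟨W, hW⟩ := step K.persist P D L Z hn hst S' x' p0 w' h1 h2 h3 h4 h5 h6 h7 hc
    exact hno ⟨_, _, _, hW⟩
  have hMnn : ∀ p ∈ PP P.g, 0 ≤ ms P D S x p (w p) := fun p hp =>
    ms_nonneg P S x p (hst.core p hp)
  refine ⟨S, x, fun p => ms P D S x p (w p), hst.sub, hst.emp, ?_, ?_, ?_⟩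
  · refine hst.card.trans ?_
    have : n * (2 * P.s + 1) ≤ P.nmax * (2 * P.s + 1) := Nat.mul_le_mul_right _ hn.le
    omega
  · intro p hp
    refine ⟨hMnn p hp, ?_⟩
    by_contra hc
    push Not at hc
    have hM := hMnn p hp
    obtain ⟨w', h1, h2, h3⟩ := K.tail I T D L P.τ (P.t p.1) (16 * (ms P D S x p (w p) + 1)) (1 / 8)
      p.2 S x hL P.τ0 P.τ1 (P.t0 _) (P.t1 _) (by linarith) (by norm_num) (by convert hc)
    have h4 := hnp S x p w' hp (Subset.refl _) (fun _ _ => rfl) (by simp) (by simp) h1 (by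
      intro i hi
      have h5 := h3 i hi
      have h6 : 0 ≤ ms P D S x p w' := ms_nonneg P S x p h1
      have h7 : P.τ * ms P D S x p w' ≤ P.ν / 8 * ms P D S x p w' :=
        mul_le_mul_of_nonneg_right (by linarith [P.τν]) h6
      unfold ms at h7 ⊢
      linarith)
    unfold ms at h4 h2 hM
    linarith
  -- the frequent empty cells
  set F : Finset I := univ.filter fun i => i ∉ S ∧ ∃ p ∈ PP P.g, 0 < ms P D S x p (w p) ∧
    P.η * ms P D S x p (w p) ≤ EM D (M0 P.τ (P.t p.1) S x) (w p) i with hF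
  have hFS : Disjoint S F := by
    rw [Finset.disjoint_left]
    intro i hi hi'
    rw [hF, mem_filter] at hi'
    exact hi'.2.1 hi
  have hEF : ∀ i, i ∉ S → i ∉ F → ∀ p ∈ PP P.g, EM D (M0 P.τ (P.t p.1) S x) (w p) i ≤
      P.η * ms P D S x p (w p) := by
    intro i hi hiF p hp
    rcases (hMnn p hp).eq_or_lt with h0 | h0
    · have h1 : EM D (M0 P.τ (P.t p.1) S x) (w p) i ≤ ms P D S x p (w p) :=
        mass_res_le D (P.m0 S x p.1) (hst.core p hp).nonneg _
      rw [← h0] at h1 ⊢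
      simpa using h1
    · by_contra hc
      push Not at hc
      apply hiF
      rw [hF, mem_filter]
      exact ⟨mem_univ _, hi, p, hp, h0, hc.le⟩
  have hcardF : (F.card : ℝ) ≤ (2 * (P.g + 1) : ℝ) * (P.s / P.η) := by
    have h1 : F ⊆ (PP P.g).biUnion fun p => if 0 < ms P D S x p (w p) then
        (univ.filter fun i => P.η * mass D (M0 P.τ (P.t p.1) S x) (w p) ≤
          EM D (M0 P.τ (P.t p.1) S x) (w p) i) else ∅ := by
      intro i hi
      rw [hF, mem_filter] at hi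
      obtain ⟨_, _, p, hp, h2, h3⟩ := hi
      rw [mem_biUnion]
      refine ⟨p, hp, ?_⟩
      rw [if_pos h2, mem_filter]
      exact ⟨mem_univ _, h3⟩
    have h2 := (card_le_card h1).trans card_biUnion_le
    have h3 : (F.card : ℝ) ≤ ∑ p ∈ PP P.g, (P.s / P.η : ℝ) := by
      refine le_trans (Nat.cast_le.2 h2) ?_
      rw [Nat.cast_sum]
      refine sum_le_sum fun p hp => ?_
      split_ifs with h4
      · have h5 := (K.heavy I T D (M0 P.τ (P.t p.1) S x) P.η ∅ (w p) P.s (P.m0 S x p.1) P.η0 hD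
          (hst.core p hp).nonneg).1 h4
        rw [le_div_iff₀ P.η0, mul_comm]
        exact h5
      · have := P.η0
        simp only [card_empty, Nat.cast_zero]
        positivity
    rw [sum_const, card_PP] at h3
    simpa using h3
  -- the restricted cores
  set v : ℕ × Bool → T × Cfg I → ℝ := fun p =>
    res (w p) (fun ρ => ∀ i ∈ F, i ∈ D ρ.1 → ρ.2 i = none) with hv
  have hvc : ∀ p ∈ PP P.g, IsCore D L p.2 (v p) := fun p hp => isCore_res (hst.core p hp) _
  have hvF : ∀ p, ∀ ρ, v p ρ ≠ 0 → ∀ i ∈ F, i ∈ D ρ.1 → ρ.2 i = none := by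
    intro p ρ h
    by_contra hc
    apply h
    simp only [hv, res]
    rw [if_neg hc]
  have hvm : ∀ p ∈ PP P.g, 999 / 1000 * ms P D S x p (w p) ≤ ms P D S x p (v p) := by
    intro p hp
    have h1 := (K.heavy I T D (M0 P.τ (P.t p.1) S x) P.η F (w p) P.s (P.m0 S x p.1) P.η0 hD
          (hst.core p hp).nonneg).2
    have h2 : ∑ i ∈ F, NH D (M0 P.τ (P.t p.1) S x) (w p) i ≤
        ∑ i ∈ F, P.ν * (1 + 2 * P.lam) ^ n * ms P D S x p (w p) := by
      refine sum_le_sum fun i hi => hst.spread p hp i ?_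
      rw [hF, mem_filter] at hi
      exact hi.2.1
    rw [sum_const, nsmul_eq_mul] at h2
    have h3 : (F.card : ℝ) * (P.ν * (1 + 2 * P.lam) ^ n) ≤ 1 / 1000 := by
      refine le_trans ?_ P.hΦ
      have : P.ν * (1 + 2 * P.lam) ^ n ≤ 2 * P.ν := by nlinarith
      have h0 := P.η0
      exact mul_le_mul hcardF this (mul_nonneg hν0.le hpw0) (by positivity)
    have h4 := hMnn p hp
    have h5 : (F.card : ℝ) * (P.ν * (1 + 2 * P.lam) ^ n * ms P D S x p (w p)) ≤
        1 / 1000 * ms P D S x p (w p) := by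
      rw [← mul_assoc]
      exact mul_le_mul_of_nonneg_right h3 h4
    simp only [hv]
    unfold ms at h2 h5 ⊢
    linarith
  have hvle : ∀ p ∈ PP P.g, ms P D S x p (v p) ≤ ms P D S x p (w p) := fun p hp =>
    mass_res_le D (P.m0 S x p.1) (hst.core p hp).nonneg _
  -- the second moment
  have hsec : ∀ p ∈ PP P.g, (1 - P.τ) ^ P.s * Ex (M0 P.τ (P.t p.1) S x) (fun y =>
      (Uw D (v p) y) ^ 2) ≤ (1 + 1 / 100) * (ms P D S x p (w p) + 1) * ms P D S x p (v p) := by
    intro p hp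
    have hM := hMnn p hp
    refine K.second I T D L P.τ (P.t p.1) _ p.2 S F x (v p) P.s P.τ0 P.τ1 (P.t0 _) (P.t1 _)
      (by positivity) hD hFS (hvc p hp) (hvF p) ?_
    intro ρ hρ hP
    by_contra hc
    push Not at hc
    have hbig : (Fintype.card T : ℝ) < 2 ^ (P.s + 1) *
        mass D (M0 P.τ (P.t p.1) (S ∪ (D ρ.1 \ F)) (ov D x ρ)) (v p) := by
      have h1 : (Fintype.card T : ℝ) ≤ 2 ^ P.s := by exact_mod_cast hT
      have h2 : (0 : ℝ) < 2 ^ P.s := by positivity
      have h3 : (1 : ℝ) < mass D (M0 P.τ (P.t p.1) (S ∪ (D ρ.1 \ F)) (ov D x ρ)) (v p) := by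
        linarith
      rw [pow_succ]
      nlinarith
    obtain ⟨S', x', w', h1, h2, h3, h4, h5, h6, h7⟩ := K.spread I T D L P.τ (P.t p.1) P.ν p.2 F
      P.τ0 P.τ1 (P.t0 _) (P.t1 _) P.τν (P.s + 1) (S ∪ (D ρ.1 \ F)) (ov D x ρ) (v p) (hvc p hp)
      (hvF p) hbig
    have hsub : S ⊆ S' := (subset_union_left).trans h1
    have hnew : ∀ i ∈ S' \ S, i ∉ F := by
      intro i hi
      rw [mem_sdiff] at hi
      by_cases hi' : i ∈ S ∪ (D ρ.1 \ F)
      · rw [mem_union, mem_sdiff] at hi'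
        rcases hi' with h | h
        · exact absurd h hi.2
        · exact h.2
      · exact h4 i (mem_sdiff.2 ⟨hi.1, hi'⟩)
    have h8 := hnp S' x' p w' hp hsub (by
        intro i hi
        rw [h2 i (mem_union_left _ hi)]
        unfold ov
        split_ifs with h9
        · exact Pm_ne_eq hP i hi h9
        · rfl) (by
        have h9 : S' \ S ⊆ (S' \ (S ∪ (D ρ.1 \ F))) ∪ D ρ.1 := by
          intro i hi
          rw [mem_sdiff] at hi
          rw [mem_union, mem_sdiff, mem_union, mem_sdiff]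
          by_cases h10 : i ∈ D ρ.1
          · exact Or.inr h10
          · left
            refine ⟨hi.1, ?_⟩
            rintro (h | h)
            · exact hi.2 h
            · exact h10 h.1
        have h10 := (card_le_card h9).trans (card_union_le _ _)
        have h11 := hD ρ.1
        omega) (fun q hq i hi => hEF i (mem_sdiff.1 hi).2 (hnew i hi) q hq) h5 h7
    unfold ms at h8 hc
    linarith
  -- lower tail
  intro p hp hM j hj
  simp only at hM ⊢
  have hcmp : (∀ a, bg P.τ (P.t j) a ≤ P.β * bg P.τ (P.t p.1) a) ∧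
      (∀ a, bg P.τ (P.t p.1) a ≤ P.β * bg P.τ (P.t j) a) := by
    rcases hj with hj | hj
    · rw [← hj]; exact ⟨P.up j, P.down j⟩
    · rw [hj]; exact ⟨P.down _, P.up _⟩
  have hs1 : ∀ j, ∀ i : I, ∑ a, M0 P.τ (P.t j) S x i a = 1 := fun j => M0_sum P.τ (P.t j) S x
  have hc1 := (K.compare I T D (M0 P.τ (P.t p.1) S x) (M0 P.τ (P.t j) S x) P.β P.s (v p) P.β1
    (P.m0 S x p.1) (P.m0 S x j) (hs1 _) (hs1 _) (M0_le P.β1 hcmp.2 S x) hD (hvc p hp).nonneg).1
  have hc2 := (K.compare I T D (M0 P.τ (P.t j) S x) (M0 P.τ (P.t p.1) S x) P.β P.s (v p) P.β1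
    (P.m0 S x j) (P.m0 S x p.1) (hs1 _) (hs1 _) (M0_le P.β1 hcmp.1 S x) hD (hvc p hp).nonneg).2
  have hm := hvm p hp
  have hle := hvle p hp
  have hse := hsec p hp
  set M := ms P D S x p (w p) with hMdef
  have hβs := P.βs
  have hτs := P.τs
  have hmj0 : 0 ≤ mass D (M0 P.τ (P.t j) S x) (v p) :=
    mass_nonneg D (P.m0 S x j) (hvc p hp).nonneg
  have hE0 : 0 ≤ Ex (M0 P.τ (P.t p.1) S x) (fun y => (Uw D (v p) y) ^ 2) :=
    Ex_nonneg (P.m0 S x p.1) fun y => sq_nonneg _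
  have hlow := K.low I (M0 P.τ (P.t j) S x) (Uw D (v p)) M (P.m0 S x j) (hs1 j) (by linarith) (by
      rw [Ex_Uw D (hs1 j)]
      unfold ms at hm
      have h1 : P.β ^ P.s * mass D (M0 P.τ (P.t j) S x) (v p) ≤
        1003 / 1000 * mass D (M0 P.τ (P.t j) S x) (v p) := mul_le_mul_of_nonneg_right hβs hmj0
      linarith) (by
      have h2 : P.β ^ (2 * P.s) ≤ (1003 / 1000) ^ 2 := by
        rw [mul_comm, pow_mul]
        have : 0 ≤ P.β ^ P.s := pow_nonneg (by linarith [P.β1]) _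
        exact pow_le_pow_left₀ this hβs 2
      have h3 : 999 / 1000 * Ex (M0 P.τ (P.t p.1) S x) (fun y => (Uw D (v p) y) ^ 2) ≤
          (1 + 1 / 100) * (M + 1) * M := by
        refine (mul_le_mul_of_nonneg_right hτs hE0).trans (hse.trans ?_)
        exact mul_le_mul_of_nonneg_left hle (by positivity)
      have h4 : P.β ^ (2 * P.s) * Ex (M0 P.τ (P.t p.1) S x) (fun y => (Uw D (v p) y) ^ 2) ≤
        (1003 / 1000) ^ 2 * Ex (M0 P.τ (P.t p.1) S x) (fun y => (Uw D (v p) y) ^ 2) :=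
        mul_le_mul_of_nonneg_right h2 hE0
      have h5 : (M + 1) * M ≤ 101 / 100 * M ^ 2 := by nlinarith
      have h6 : 0 ≤ M ^ 2 := sq_nonneg _
      nlinarith)
  refine le_trans ?_ hlow
  refine Ex_mono (P.m0 S x j) fun y => ?_
  have h7 := Uw_le D L hL (hvc p hp) y
  by_cases h8 : U L p.2 y < M / 4
  · rw [if_pos h8, if_pos (by linarith)]
  · rw [if_neg h8]
    split_ifs <;> norm_num

end

end Pool.Agent.H910R3.BP
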