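import Mathlib

/-!
# Product weights on configurations, planted cells, weighted families of partial assignments
-/

set_option autoImplicit false

namespace Pool.Agent.H910R3.BP

open Finset

/-- A configuration: every cell is empty or holds a needle with a label. -/
abbrev Cfg (I : Type) : Type := I → Option Bool

section

variable {I : Type} [Fintype I] [DecidableEq I]

/-- Product weight. -/
noncomputable def wt (μ : I → Option Bool → ℝ) (y : Cfg I) : ℝ := ∏ i, μ i (y i)

/-- Expectation. -/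
noncomputable def Ex (μ : I → Option Bool → ℝ) (F : Cfg I → ℝ) : ℝ := ∑ y, wt μ y * F y

/-- Background distribution of a cell. -/
noncomputable def bg (τ t : ℝ) : Option Bool → ℝ
  | none => 1 - τ
  | some true => τ * t
  | some false => τ * (1 - t)

/-- The cells in `S` are fixed to the values of `x`. -/
noncomputable def M0 (τ t : ℝ) (S : Finset I) (x : Cfg I) : I → Option Bool → ℝ :=
  fun i a => if i ∈ S then (if a = x i then 1 else 0) else bg τ t a

/-- `y` agrees with `v` on `W`. -/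
def Cyl (W : Finset I) (v y : Cfg I) : Prop := ∀ i ∈ W, y i = v i

instance (W : Finset I) (v y : Cfg I) : Decidable (Cyl W v y) := by
  unfold Cyl; infer_instance

theorem bg_nonneg {τ t : ℝ} (h0 : 0 ≤ τ) (h1 : τ ≤ 1) (h2 : 0 ≤ t) (h3 : t ≤ 1) (a : Option Bool) :
    0 ≤ bg τ t a := by
  rcases a with _ | _ | _
  · simp only [bg]; linarith
  · simp only [bg]; exact mul_nonneg h0 (by linarith)
  · simp only [bg]; exact mul_nonneg h0 h2

theorem bg_sum (τ t : ℝ) : ∑ a, bg τ t a = 1 := by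
  rw [Fintype.sum_option, Fintype.sum_bool]
  simp only [bg]
  ring

theorem M0_nonneg {τ t : ℝ} (h0 : 0 ≤ τ) (h1 : τ ≤ 1) (h2 : 0 ≤ t) (h3 : t ≤ 1) (S : Finset I)
    (x : Cfg I) (i : I) (a : Option Bool) : 0 ≤ M0 τ t S x i a := by
  unfold M0
  split_ifs
  · exact zero_le_one
  · exact le_rfl
  · exact bg_nonneg h0 h1 h2 h3 a

theorem M0_sum (τ t : ℝ) (S : Finset I) (x : Cfg I) (i : I) : ∑ a, M0 τ t S x i a = 1 := by
  unfold M0
  by_cases h : i ∈ S
  · simp [h]
  · simp only [h, if_false]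
    exact bg_sum τ t

theorem M0_le_one {τ t : ℝ} (h0 : 0 ≤ τ) (h1 : τ ≤ 1) (h2 : 0 ≤ t) (h3 : t ≤ 1) (S : Finset I)
    (x : Cfg I) (i : I) (a : Option Bool) : M0 τ t S x i a ≤ 1 := by
  rw [← M0_sum τ t S x i]
  exact single_le_sum (fun b _ => M0_nonneg h0 h1 h2 h3 S x i b) (mem_univ a)

theorem wt_nonneg {μ : I → Option Bool → ℝ} (h : ∀ i a, 0 ≤ μ i a) (y : Cfg I) : 0 ≤ wt μ y :=
  prod_nonneg fun i _ => h i (y i)

theorem Ex_mono {μ : I → Option Bool → ℝ} (h : ∀ i a, 0 ≤ μ i a) {F G : Cfg I → ℝ}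
    (hFG : ∀ y, F y ≤ G y) : Ex μ F ≤ Ex μ G :=
  sum_le_sum fun y _ => mul_le_mul_of_nonneg_left (hFG y) (wt_nonneg h y)

theorem Ex_nonneg {μ : I → Option Bool → ℝ} (h : ∀ i a, 0 ≤ μ i a) {F : Cfg I → ℝ}
    (hF : ∀ y, 0 ≤ F y) : 0 ≤ Ex μ F :=
  sum_nonneg fun y _ => mul_nonneg (wt_nonneg h y) (hF y)

theorem Ex_add (μ : I → Option Bool → ℝ) (F G : Cfg I → ℝ) :
    Ex μ (fun y => F y + G y) = Ex μ F + Ex μ G := by
  unfold Ex
  rw [← sum_add_distrib]
  exact sum_congr rfl fun y _ => by ring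

theorem Ex_smul (μ : I → Option Bool → ℝ) (c : ℝ) (F : Cfg I → ℝ) :
    Ex μ (fun y => c * F y) = c * Ex μ F := by
  unfold Ex
  rw [mul_sum]
  exact sum_congr rfl fun y _ => by ring

theorem Ex_sum {ι : Type} (s : Finset ι) (μ : I → Option Bool → ℝ) (F : ι → Cfg I → ℝ) :
    Ex μ (fun y => ∑ k ∈ s, F k y) = ∑ k ∈ s, Ex μ (F k) := by
  unfold Ex
  rw [sum_comm]
  exact sum_congr rfl fun y _ => by rw [mul_sum]

theorem Ex_prod (μ : I → Option Bool → ℝ) (f : I → Option Bool → ℝ) :
    Ex μ (fun y => ∏ i, f i (y i)) = ∏ i, ∑ a, μ i a * f i a := by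
  unfold Ex wt
  rw [prod_univ_sum, Fintype.piFinset_univ]
  exact sum_congr rfl fun y _ => by rw [← prod_mul_distrib]

theorem Ex_one {μ : I → Option Bool → ℝ} (h : ∀ i, ∑ a, μ i a = 1) :
    Ex μ (fun _ => 1) = 1 := by
  have := Ex_prod μ (fun _ _ => 1)
  simp only [prod_const_one, mul_one] at this
  rw [this]
  exact prod_eq_one fun i _ => h i

theorem Ex_const {μ : I → Option Bool → ℝ} (h : ∀ i, ∑ a, μ i a = 1) (c : ℝ) :
    Ex μ (fun _ => c) = c := by
  have := Ex_smul μ c (fun _ => 1)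
  simp only [mul_one] at this
  rw [this, Ex_one h, mul_one]

theorem Ex_cyl {μ : I → Option Bool → ℝ} (h : ∀ i, ∑ a, μ i a = 1) (W : Finset I) (v : Cfg I) :
    Ex μ (fun y => if Cyl W v y then 1 else 0) = ∏ i ∈ W, μ i (v i) := by
  have h1 : (fun y : Cfg I => if Cyl W v y then (1 : ℝ) else 0) =
      fun y => ∏ i, (if i ∈ W then (if y i = v i then 1 else 0) else 1) := by
    funext y
    split_ifs with hc
    · rw [eq_comm]
      exact prod_eq_one fun i _ => by
        split_ifs with h2 h3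
        · rfl
        · exact absurd (hc i h2) h3
        · rfl
    · unfold Cyl at hc
      push Not at hc
      obtain ⟨i, hi, hne⟩ := hc
      rw [eq_comm]
      exact prod_eq_zero (mem_univ i) (by rw [if_pos hi, if_neg hne])
  rw [h1, Ex_prod μ (fun i a => if i ∈ W then (if a = v i then 1 else 0) else 1)]
  rw [← Finset.prod_subset (Finset.subset_univ W)]
  · refine prod_congr rfl fun i hi => ?_
    rw [Finset.sum_eq_single (v i)]
    · simp [hi]
    · intro b _ hb
      simp [hi, hb]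
    · intro hn
      exact absurd (mem_univ _) hn
  · intro i _ hi
    simp only [hi, if_false, mul_one]
    exact h i

end

end Pool.Agent.H910R3.BP
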