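import Pool.Agent.H910R3.BP.Stmts
import Pool.Agent.H620R2.Gauge.Defs

/-!
# `BPP_path` relative to an oracle; definitions and tasks for the construction of the oracle
-/

set_option autoImplicit false

namespace Pool.Agent.H910R3.BP

open Finset Pool.Agent.NPC Pool.Agent.H620R2.Gauge

/-- A nondeterministic polynomial-time oracle algorithm. On input `x`, and after the answers and
the guesses `a` made so far on the computation path, `D ⟨x, a⟩` tells what comes next: the empty
string means that the path ends and rejects, `true :: _` that it ends and accepts, `[false]` that
the computation branches into two (the guessed bit is appended to `a`), and `false :: _ :: q` that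
the algorithm asks whether `q` is in the oracle (the answer is appended to `a`). The function `D`
is polynomial-time computable, and the number of rounds is bounded by the polynomial `p` in the
length of the input (a path that has not ended by then rejects). -/
structure NAlg : Type where
  /-- the next action, as a function of the input and of the answers and guesses so far -/
  D : List Bool → List Bool
  /-- it is computable in polynomial time -/
  poly : PolyTime D
  /-- the bound for the number of rounds -/
  p : Polynomial ℕ

/-- The number of the computation paths with verdict `v` (`true`: accepting, `false`: rejecting)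
which continue the history `a`, with at most `n` further rounds. -/
def NAlg.count (M : NAlg) (A : Oracle) (x : List Bool) (v : Bool) : ℕ → List Bool → ℕ
  | 0, _ => if v then 0 else 1
  | n + 1, a =>
    match M.D (pairBits x a) with
    | [] => if v then 0 else 1
    | true :: _ => if v then 1 else 0
    | [false] => M.count A x v n (a ++ [false]) + M.count A x v n (a ++ [true])
    | false :: _ :: q => M.count A x v n (a ++ [A q])

/-- The number of accepting computation paths. -/
def NAlg.acc (M : NAlg) (A : Oracle) (x : List Bool) : ℕ := M.count A x true (M.p.eval x.length) []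

/-- The number of rejecting computation paths. -/
def NAlg.rej (M : NAlg) (A : Oracle) (x : List Bool) : ℕ := M.count A x false (M.p.eval x.length) []

/-- `L` is in `BPP_path` relative to `A`: some algorithm accepts on more than 3/4 of its
computation paths if `x ∈ L`, and rejects on more than 3/4 of them if `x ∉ L`. -/
def IsBPPpath (A : Oracle) (L : Set (List Bool)) : Prop :=
  ∃ M : NAlg, ∀ x,
    (x ∈ L → 3 * (M.acc A x + M.rej A x) < 4 * M.acc A x) ∧
    (x ∉ L → 3 * (M.acc A x + M.rej A x) < 4 * M.rej A x)

/-! ### The oracle given by a labelled set of needles -/

/-- number of leading ones of `q` -/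
def lead : List Bool → ℕ
  | true :: q => lead q + 1
  | _ => 0

/-- the cell (in region `lead q`) which the query `q` is about -/
def cellW (q : List Bool) : List Bool := q.drop (lead q + 2)

/-- `true`: the query asks whether the cell holds a needle; `false`: whether it holds a needle with
label `1`. -/
def bitOf (q : List Bool) : Bool := (q.drop (lead q + 1)).headD false

/-- the query with bit `b` about the cell `w` in region `i` -/
def qry (i : ℕ) (b : Bool) (w : List Bool) : List Bool := List.replicate i true ++ false :: b :: w

/-- The oracle. -/
def orc (G : ℕ → List Bool → Option Bool) : Oracle := fun q =>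
  if bitOf q then (G (lead q) (cellW q)).isSome else (G (lead q) (cellW q) == some true)

/-- The cells of length `n`. -/
abbrev Cell (n : ℕ) : Type := List.Vector Bool n

/-- The region `i` at length `n`. -/
def reg (G : ℕ → List Bool → Option Bool) (i n : ℕ) : Cfg (Cell n) := fun c => G i c.1

/-- `G` with a new region `i` at length `n`. -/
def upd (G : ℕ → List Bool → Option Bool) (i n : ℕ) (y : Cfg (Cell n)) :
    ℕ → List Bool → Option Bool :=
  fun i' w => if h : i' = i ∧ w.length = n then y ⟨w, h.2⟩ else G i' w

/-- `G` and `G'` agree on the cells of length less than `m`. -/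
def Agree (m : ℕ) (G G' : ℕ → List Bool → Option Bool) : Prop :=
  ∀ i w, w.length < m → G i w = G' i w

/-! ### The algorithm for the language of region `i` -/

/-- The next action of the algorithm for the language of region `i` on input `x` (`n = |x|`): guess
the `n` bits of a cell `w`, ask whether it holds a needle; reject if it does not; otherwise ask for
the label, branch `n + 2` times, and answer according to the label. -/
def dact (i : ℕ) (x a : List Bool) : List Bool :=
  if a.length < x.length then [false]
  else if a.length = x.length then false :: false :: qry i true (a.take x.length)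
  else if a.getD x.length false = false then []
  else if a.length = x.length + 1 then false :: false :: qry i false (a.take x.length)
  else if a.length < 2 * x.length + 4 then [false]
  else if a.getD (x.length + 1) false = true then [true]
  else []

/-- The action function is computable in polynomial time. -/
def TaskPoly : Prop := ∀ i : ℕ, ∃ D : List Bool → List Bool, PolyTime D ∧
  ∀ x a : List Bool, D (pairBits x a) = dact i x a

/-- The counts for this algorithm: the needles with label `u` give `2 ^ (n + 2)` paths each with
verdict `u`, and the empty cells one rejecting path each. -/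
def TaskCount : Prop := ∀ (i : ℕ) (M : NAlg) (G : ℕ → List Bool → Option Bool) (x : List Bool),
  (∀ a, M.D (pairBits x a) = dact i x a) → 2 * x.length + 5 ≤ M.p.eval x.length →
  M.acc (orc G) x = nd true (reg G i x.length) * 2 ^ (x.length + 2) ∧
  M.rej (orc G) x = nd false (reg G i x.length) * 2 ^ (x.length + 2) +
    (2 ^ x.length - nd true (reg G i x.length) - nd false (reg G i x.length)) ∧
  nd true (reg G i x.length) + nd false (reg G i x.length) ≤ 2 ^ x.length

/-! ### Stages -/

/-- the promise is violated on `z`, or the answer does not fit to the region `i` at length `n` -/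
def Bad (M : NAlg) (G : ℕ → List Bool → Option Bool) (i n : ℕ) (z : List Bool) : Prop :=
  ¬ ((3 * M.rej (orc G) z < M.acc (orc G) z ∨ 3 * M.acc (orc G) z < M.rej (orc G) z) ∧
    (4 * nd false (reg G i n) ≤ nd true (reg G i n) → 1 ≤ nd true (reg G i n) →
      3 * M.rej (orc G) z < M.acc (orc G) z) ∧
    (4 * nd true (reg G i n) ≤ nd false (reg G i n) → 1 ≤ nd false (reg G i n) →
      3 * M.acc (orc G) z < M.rej (orc G) z))

/-- Transcripts: the numbers of paths of `M` on `z` when region `i` at length `n` is `y`, as numbers
of realised transcripts. (`T` = the lists of length at most `R`; `D a` = the cells of region `i`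
at length `n` asked along `a`; `L u a y`: `a` is the history of a complete path with verdict `u`.) -/
def TaskLeaf : Prop := ∀ (M : NAlg) (G : ℕ → List Bool → Option Bool) (i n : ℕ) (z : List Bool),
  ∃ (T : Type) (_ : Fintype T) (_ : DecidableEq T) (D : T → Finset (Cell n))
    (L : Bool → T → Cfg (Cell n) → Bool), Loc D L ∧
    (∀ a, (D a).card ≤ M.p.eval z.length) ∧ Fintype.card T ≤ 2 ^ (M.p.eval z.length + 1) ∧
    ∀ y : Cfg (Cell n), cnt L true y = M.acc (orc (upd G i n y)) z ∧
      cnt L false y = M.rej (orc (upd G i n y)) z

/-- Simple facts on algorithms: dependence on finitely many cells, on the questions asked, and the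
length of the output. -/
def TaskAlg : Prop :=
  (∀ (M : NAlg) (z : List Bool), ∃ m, ∀ G G', Agree m G G' →
    M.acc (orc G) z = M.acc (orc G') z ∧ M.rej (orc G) z = M.rej (orc G') z) ∧
  (∀ (f : Alg) (x : List Bool), ∃ m, ∀ G G', Agree m G G' → f.out (orc G) x = f.out (orc G') x) ∧
  (∀ (f : Alg) (x : List Bool) (A : Oracle), ∃ Q : Finset (List Bool),
    Q.card ≤ f.p.eval x.length ∧ ∀ A' : Oracle, (∀ q ∈ Q, A' q = A q) → f.out A' x = f.out A x) ∧
  (∀ f : Alg, ∃ b : Polynomial ℕ, ∀ (A : Oracle) (x z : List Bool), f.out A x = some z →
    z.length ≤ b.eval x.length)

/-- Exponential growth. -/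
def TaskGrowth : Prop := ∀ (P : Polynomial ℕ) (C k m : ℕ), ∃ n, m ≤ n ∧ C * (P.eval n) ^ k ≤ 2 ^ n

/-- One stage: `G` is empty from length `m` on; for the algorithm `M` (number `i`) and the
reduction `f` we get a new region `i` at some length `n ≥ m`, such that the outcome is forced by
the cells of length less than `m'`. -/
def TaskStage : Prop := Core → ∀ (M : NAlg) (f : Alg) (i m : ℕ) (G : ℕ → List Bool → Option Bool),
  (∀ j w, m ≤ w.length → G j w = none) →
  ∃ (n m' : ℕ) (y : Cfg (Cell n)), m ≤ n ∧ n < m' ∧
    ((y = fun _ => none) ∨ ∃ z, ∀ G', Agree m' (upd G i n y) G' → Bad M G' i n z) ∧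
    ((∀ G', Agree m' (upd G i n y) G' → f.out (orc G') (List.replicate n false) = none) ∨
      ∃ z, ∀ G', Agree m' (upd G i n y) G' →
        f.out (orc G') (List.replicate n false) = some z ∧ Bad M G' i n z)

/-- The stage from the former statements. -/
def TaskStageAsm : Prop := TaskLeaf → TaskAlg → TaskGrowth → TaskStage

/-- The construction in stages: there is a `G` such that for all `i` all nonempty regions `i` come
from bad events for the algorithm number `i`, and all pairs of an algorithm and a reduction are
treated. -/
def TaskLimit : Prop := TaskStage → Core → ∀ (g : ℕ → NAlg) (h : ℕ → Alg),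
  ∃ G : ℕ → List Bool → Option Bool,
    (∀ i n, (∀ w : List Bool, w.length = n → G i w = none) ∨ ∃ z, Bad (g i) G i n z) ∧
    ∀ i j, ∃ n, (h j).out (orc G) (List.replicate n false) = none ∨
      ∃ z, (h j).out (orc G) (List.replicate n false) = some z ∧ Bad (g i) G i n z

/-- The final statement. -/
def Final : Prop := ∃ A : Oracle, ∀ K, IsBPPpath A K →
  ∃ L, IsBPPpath A L ∧ ¬ ∃ F, IsFP A F ∧ ∀ x, x ∈ L ↔ F x ∈ K

end Pool.Agent.H910R3.BP
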