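import Pool.Agent.H910R3.BP.Contra

set_option autoImplicit false

namespace Pool.Agent.H910R3.BP

open Finset

namespace Params

/-- number of grid points -/
def gg (s : ℕ) : ℕ := 400 * s * (150 * s)

/-- number of steps -/
def nn (s : ℕ) : ℕ := 200 * (2 * (s + 1) * (gg s + 1) + 1)

/-- expected number of needles -/
noncomputable def mm (s : ℕ) : ℝ := 2 ^ 34 * (s : ℝ) ^ 4

/-- the ratio -/
noncomputable def bb (s : ℕ) : ℝ := 1 + 1 / (400 * s)

/-- the odds -/
noncomputable def oo (s j : ℕ) : ℝ := 1 / (100 * mm s) * bb s ^ j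

/-- the label probabilities -/
noncomputable def tt (s j : ℕ) : ℝ := oo s j / (1 + oo s j)

/-- loss -/
noncomputable def ll (s : ℕ) : ℝ := 1 / (4 * nn s)

/-- threshold -/
noncomputable def ee (s : ℕ) : ℝ := ll s / (4 * (2 * s + 1))

/-- spread -/
noncomputable def vv (s : ℕ) : ℝ := ee s / (4000 * (gg s + 1) * s)

variable {s : ℕ} (hs : 1 ≤ s)

include hs

theorem sR : (1 : ℝ) ≤ s := by exact_mod_cast hs

theorem gg_le : ((gg s : ℕ) : ℝ) + 1 ≤ 60001 * (s : ℝ) ^ 2 := by
  have h := sR hs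
  unfold gg
  push_cast
  nlinarith

theorem gg_pos : 1 ≤ gg s := by
  unfold gg
  have : 1 ≤ s * s := Nat.mul_pos hs hs
  nlinarith

theorem nn_le : ((nn s : ℕ) : ℝ) ≤ 48001000 * (s : ℝ) ^ 3 := by
  have h := sR hs
  have h1 := gg_le hs
  unfold nn
  push_cast
  have h2 : ((s : ℝ) + 1) * ((gg s : ℝ) + 1) ≤ (2 * s) * (60001 * (s : ℝ) ^ 2) := by
    apply mul_le_mul (by linarith) h1 (by positivity) (by positivity)
  have h3 : 1 ≤ (s : ℝ) ^ 3 := one_le_pow₀ h
  nlinarith

theorem nn_pos : (0 : ℝ) < nn s := by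
  have : 0 < nn s := by unfold nn; positivity
  exact_mod_cast this

theorem mm_pos : 1 ≤ mm s := by
  have h := sR hs
  unfold mm
  have : 1 ≤ (s : ℝ) ^ 4 := one_le_pow₀ h
  nlinarith

theorem bb_one : 1 ≤ bb s := by
  have h := sR hs
  unfold bb
  have : 0 ≤ 1 / (400 * (s : ℝ)) := by positivity
  linarith

theorem bb_pow : bb s ^ s ≤ 1003 / 1000 := by
  have h := sR hs
  have h1 : bb s ≤ Real.exp (1 / (400 * s)) := by
    unfold bb
    have := Real.add_one_le_exp (1 / (400 * (s : ℝ)))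
    linarith
  have h2 : bb s ^ s ≤ Real.exp (1 / 400) := by
    calc bb s ^ s ≤ (Real.exp (1 / (400 * s))) ^ s :=
          pow_le_pow_left₀ (by linarith [bb_one hs]) h1 s
      _ = Real.exp (s * (1 / (400 * s))) := (Real.exp_nat_mul _ _).symm
      _ = Real.exp (1 / 400) := by
        congr 1
        field_simp
  have h3 : 1 - 1 / 400 ≤ Real.exp (-(1 / 400)) := by
    have := Real.add_one_le_exp (-(1 / 400 : ℝ))
    linarith
  have h4 : Real.exp (1 / 400) * Real.exp (-(1 / 400)) = 1 := by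
    rw [← Real.exp_add]; simp
  have h5 := Real.exp_pos (1 / 400)
  nlinarith

theorem oo_pos (j : ℕ) : 0 < oo s j := by
  have h1 := mm_pos hs
  have h2 := bb_one hs
  unfold oo
  have : 0 < bb s := by linarith
  positivity

theorem oo_succ (j : ℕ) : oo s (j + 1) = bb s * oo s j := by
  unfold oo
  rw [pow_succ]
  ring

theorem tt_pos (j : ℕ) : 0 < tt s j := by
  have h := oo_pos hs j
  unfold tt
  positivity

theorem tt_lt (j : ℕ) : tt s j < 1 := by
  have h := oo_pos hs j
  unfold tt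
  rw [div_lt_one (by linarith)]
  linarith

theorem one_sub_tt (j : ℕ) : 1 - tt s j = 1 / (1 + oo s j) := by
  have h := oo_pos hs j
  unfold tt
  field_simp
  ring

theorem up1 (j : ℕ) : tt s j ≤ tt s (j + 1) := by
  have h := oo_pos hs j
  have h2 := bb_one hs
  unfold tt
  rw [oo_succ hs]
  rw [div_le_div_iff₀ (by linarith) (by nlinarith)]
  nlinarith

theorem up2 (j : ℕ) : 1 - tt s j ≤ bb s * (1 - tt s (j + 1)) := by
  have h := oo_pos hs j
  have h2 := bb_one hs
  rw [one_sub_tt hs, one_sub_tt hs, oo_succ hs, mul_one_div,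
    div_le_div_iff₀ (by linarith) (by nlinarith)]
  nlinarith

theorem down1 (j : ℕ) : tt s (j + 1) ≤ bb s * tt s j := by
  have h := oo_pos hs j
  have h2 := bb_one hs
  unfold tt
  rw [oo_succ hs, ← mul_div_assoc]
  rw [div_le_div_iff₀ (by nlinarith) (by linarith)]
  have h3 : 0 ≤ bb s * oo s j := by positivity
  have h4 : oo s j ≤ bb s * oo s j := by nlinarith
  exact mul_le_mul_of_nonneg_left (by linarith) h3

theorem down2 (j : ℕ) : 1 - tt s (j + 1) ≤ 1 - tt s j := by
  have := up1 hs j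
  linarith

theorem bb_g : (100 * mm s) ^ 2 ≤ bb s ^ gg s := by
  have h := sR hs
  have hb := bb_one hs
  have h1 : (2 : ℝ) ≤ bb s ^ (400 * s) := by
    have h2 := one_add_mul_le_pow (a := 1 / (400 * (s : ℝ)))
      (by have : 0 ≤ 1 / (400 * (s : ℝ)) := by positivity
          linarith) (400 * s)
    have h3 : 1 + ((400 * s : ℕ) : ℝ) * (1 / (400 * s)) = 2 := by
      push_cast
      field_simp
      norm_num
    rw [h3] at h2
    exact h2
  have h2 : (2 : ℝ) ^ (150 * s) ≤ bb s ^ gg s := by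
    unfold gg
    rw [pow_mul (bb s)]
    exact pow_le_pow_left₀ (by norm_num) h1 _
  have h3 : (s : ℝ) ≤ 2 ^ s := by
    have : s < 2 ^ s := Nat.lt_two_pow_self
    exact_mod_cast this.le
  have h4 : (s : ℝ) ^ 8 ≤ (2 ^ s) ^ 8 := pow_le_pow_left₀ (by linarith) h3 8
  have h5 : (2 : ℝ) ^ 82 * (2 ^ s) ^ 8 ≤ 2 ^ (150 * s) := by
    rw [← pow_mul, ← pow_add]
    apply pow_le_pow_right₀ (by norm_num)
    omega
  have h6 : (100 * mm s) ^ 2 = (100 ^ 2 * 2 ^ 68) * (s : ℝ) ^ 8 := by
    unfold mm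
    ring
  rw [h6]
  calc (100 ^ 2 * 2 ^ 68) * (s : ℝ) ^ 8 ≤ 2 ^ 82 * (2 ^ s) ^ 8 := by
        apply mul_le_mul (by norm_num) h4 (by positivity) (by positivity)
    _ ≤ 2 ^ (150 * s) := h5
    _ ≤ _ := h2

theorem oo_g : 100 * mm s ≤ oo s (gg s) := by
  have h1 := mm_pos hs
  have h2 := bb_g hs
  unfold oo
  rw [one_div, inv_mul_eq_div, le_div_iff₀ (by linarith)]
  nlinarith

theorem ll_pos : 0 < ll s := by
  have := nn_pos hs
  unfold ll
  positivity

theorem ll_le : ll s ≤ 1 / 800 := by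
  have h1 : (200 : ℝ) ≤ nn s := by
    have : 200 ≤ nn s := by unfold nn; omega
    exact_mod_cast this
  unfold ll
  rw [div_le_div_iff₀ (by linarith) (by norm_num)]
  linarith

theorem ll_pow : (1 + 2 * ll s) ^ nn s ≤ 2 := by
  have h0 := nn_pos hs
  have h1 : 1 + 2 * ll s ≤ Real.exp (2 * ll s) := by
    have := Real.add_one_le_exp (2 * ll s)
    linarith
  have h2 : (1 + 2 * ll s) ^ nn s ≤ Real.exp (1 / 2) := by
    calc (1 + 2 * ll s) ^ nn s ≤ (Real.exp (2 * ll s)) ^ nn s :=
          pow_le_pow_left₀ (by linarith [ll_pos hs]) h1 _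
      _ = Real.exp (nn s * (2 * ll s)) := (Real.exp_nat_mul _ _).symm
      _ = Real.exp (1 / 2) := by
        congr 1
        unfold ll
        field_simp
        norm_num
  have h3 : 1 - 1 / 2 ≤ Real.exp (-(1 / 2)) := by
    have := Real.add_one_le_exp (-(1 / 2 : ℝ))
    linarith
  have h4 : Real.exp (1 / 2) * Real.exp (-(1 / 2)) = 1 := by
    rw [← Real.exp_add]; simp
  have h5 := Real.exp_pos (1 / 2)
  nlinarith

theorem ll_g : 1 + 1 / 200 ≤ (1 + 1 / 100) * (1 - ll s) ^ (2 * (gg s + 1)) := by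
  have h0 := nn_pos hs
  have h1 := one_add_mul_le_pow (a := -ll s) (by linarith [ll_le hs]) (2 * (gg s + 1))
  have h2 : ((2 * (gg s + 1) : ℕ) : ℝ) * ll s ≤ 1 / 800 := by
    unfold ll
    rw [mul_one_div, div_le_div_iff₀ (by linarith) (by norm_num)]
    unfold nn
    push_cast
    have h3 := sR hs
    have h4 : (0 : ℝ) ≤ gg s := Nat.cast_nonneg _
    nlinarith
  have h3 : 1 - 1 / 800 ≤ (1 - ll s) ^ (2 * (gg s + 1)) := by
    rw [sub_eq_add_neg 1 (ll s)]
    refine le_trans ?_ h1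
    rw [mul_neg]
    linarith
  linarith

theorem ee_pos : 0 < ee s := by
  have := ll_pos hs
  unfold ee
  positivity

theorem ee_le : ee s ≤ 1 := by
  have h1 := ll_pos hs
  have h2 := ll_le hs
  have h3 := sR hs
  unfold ee
  rw [div_le_one (by positivity)]
  linarith

theorem vv_pos : 0 < vv s := by
  have h1 := ee_pos hs
  have h3 := sR hs
  unfold vv
  have : (0 : ℝ) ≤ gg s := Nat.cast_nonneg _
  positivity

theorem vv_le : vv s ≤ ee s / 4000 := by
  have h1 := ee_pos hs
  have h3 := sR hs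
  have h4 : (0 : ℝ) ≤ gg s := Nat.cast_nonneg _
  unfold vv
  apply div_le_div_of_nonneg_left h1.le (by norm_num)
  nlinarith

theorem hd' : ((2 * s + 1 : ℕ) : ℝ) * (ee s + 2 * vv s) ≤ ll s := by
  have h1 := vv_le hs
  have h2 := ee_pos hs
  have h3 : ((2 * s + 1 : ℕ) : ℝ) * (4 * ee s) = ll s := by
    unfold ee
    push_cast
    field_simp
  have h4 : (0 : ℝ) ≤ ((2 * s + 1 : ℕ) : ℝ) := Nat.cast_nonneg _
  rw [← h3]
  apply mul_le_mul_of_nonneg_left _ h4
  linarith

theorem hΦ' : (2 * (gg s + 1) : ℝ) * (s / ee s) * (2 * vv s) ≤ 1 / 1000 := by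
  have h2 := ee_pos hs
  have h3 := sR hs
  have h4 : (0 : ℝ) ≤ gg s := Nat.cast_nonneg _
  apply le_of_eq
  unfold vv
  field_simp
  norm_num

theorem hn' : ((2 : ℝ) ^ s + 1) ^ (2 * (gg s + 1)) < (1 + 1 / 200) ^ nn s := by
  have h1 : (2 : ℝ) ≤ (1 + 1 / 200) ^ 200 := by
    have := one_add_mul_le_pow (a := (1 / 200 : ℝ)) (by norm_num) 200
    norm_num at this ⊢
  have h2 : (2 : ℝ) ^ s + 1 ≤ 2 ^ (s + 1) := by
    have : (1 : ℝ) ≤ 2 ^ s := one_le_pow₀ (by norm_num)
    rw [pow_succ]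
    linarith
  calc ((2 : ℝ) ^ s + 1) ^ (2 * (gg s + 1)) ≤ (2 ^ (s + 1)) ^ (2 * (gg s + 1)) :=
        pow_le_pow_left₀ (by positivity) h2 _
    _ = 2 ^ (2 * (s + 1) * (gg s + 1)) := by
      rw [← pow_mul]
      congr 1
      ring
    _ < 2 ^ (2 * (s + 1) * (gg s + 1) + 1) := pow_lt_pow_right₀ (by norm_num) (by omega)
    _ ≤ ((1 + 1 / 200) ^ 200) ^ (2 * (s + 1) * (gg s + 1) + 1) :=
        pow_le_pow_left₀ (by norm_num) h1 _
    _ = (1 + 1 / 200) ^ nn s := by
      rw [← pow_mul]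
      rfl

theorem big {N : ℝ} (hN : 10 ^ 30 * (s : ℝ) ^ 11 ≤ N) : 8 * (mm s / N) ≤ vv s := by
  have h3 := sR hs
  have h11 : 1 ≤ (s : ℝ) ^ 11 := one_le_pow₀ h3
  have hNp : 0 < N := by linarith
  have hn := nn_pos hs
  have h4 : (0 : ℝ) ≤ gg s := Nat.cast_nonneg _
  have hv : vv s = 1 / (64000 * (gg s + 1) * s * (2 * s + 1) * nn s) := by
    unfold vv ee ll
    field_simp
    norm_num
  rw [hv, ← mul_div_assoc, div_le_div_iff₀ hNp (by positivity)]
  have h5 : 64000 * ((gg s : ℝ) + 1) * s * (2 * s + 1) * nn s ≤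
      64000 * (60001 * (s : ℝ) ^ 2) * s * (3 * s) * (48001000 * (s : ℝ) ^ 3) := by
    have h6 := gg_le hs
    have h7 := nn_le hs
    have h8 : 2 * (s : ℝ) + 1 ≤ 3 * s := by linarith
    gcongr
  calc 8 * mm s * (64000 * ((gg s : ℝ) + 1) * s * (2 * s + 1) * nn s)
      ≤ 8 * mm s * (64000 * (60001 * (s : ℝ) ^ 2) * s * (3 * s) * (48001000 * (s : ℝ) ^ 3)) := by
        apply mul_le_mul_of_nonneg_left h5
        have := mm_pos hs
        linarith
    _ = (8 * 2 ^ 34 * 64000 * 60001 * 3 * 48001000) * (s : ℝ) ^ 11 := by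
        unfold mm
        ring
    _ ≤ 10 ^ 30 * (s : ℝ) ^ 11 := by
        apply mul_le_mul_of_nonneg_right (by norm_num) (by positivity)
    _ ≤ 1 * N := by linarith

theorem smax (S : ℕ) (hS : S ≤ s + nn s * (2 * s + 1)) : (S : ℝ) ≤ 144003001 * (s : ℝ) ^ 4 := by
  have h3 := sR hs
  have h7 := nn_le hs
  have h8 : 2 * (s : ℝ) + 1 ≤ 3 * s := by linarith
  have h9 : (S : ℝ) ≤ s + nn s * (2 * s + 1) := by exact_mod_cast hS
  have h10 : (nn s : ℝ) * (2 * s + 1) ≤ (48001000 * (s : ℝ) ^ 3) * (3 * s) :=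
    mul_le_mul h7 h8 (by positivity) (by positivity)
  have h11 : (s : ℝ) ≤ (s : ℝ) ^ 4 := by
    calc (s : ℝ) = (s : ℝ) ^ 1 := (pow_one _).symm
      _ ≤ (s : ℝ) ^ 4 := pow_le_pow_right₀ h3 (by norm_num)
  nlinarith

/-- the endpoint condition: `q` is the conditional probability of the label -/
theorem endp {N q : ℝ} (hN : 10 ^ 30 * (s : ℝ) ^ 11 ≤ N) (hq : 1 / 2 ≤ q) (S : ℕ)
    (hS : S ≤ s + nn s * (2 * s + 1)) : 8 * (S : ℝ) + 12 ≤ (N - S) * (mm s / N * q) := by
  have h3 := sR hs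
  have h1 := smax hs S hS
  have h11 : (s : ℝ) ^ 4 ≤ (s : ℝ) ^ 11 := pow_le_pow_right₀ h3 (by norm_num)
  have h4 : 1 ≤ (s : ℝ) ^ 4 := one_le_pow₀ h3
  have hNp : 0 < N := by nlinarith
  have h5 : N / 2 ≤ N - S := by nlinarith
  have h6 : 0 ≤ mm s / N * q := by
    have := mm_pos hs
    positivity
  have h7 : N / 2 * (mm s / N * (1 / 2)) ≤ (N - S) * (mm s / N * q) := by
    have := mm_pos hs
    have h8 : mm s / N * (1 / 2) ≤ mm s / N * q := by
      apply mul_le_mul_of_nonneg_left hq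
      positivity
    apply mul_le_mul h5 h8 (by positivity) (by linarith)
  have h8 : N / 2 * (mm s / N * (1 / 2)) = mm s / 4 := by
    field_simp
    ring
  rw [h8] at h7
  refine le_trans ?_ h7
  unfold mm
  nlinarith

end Params

open Params in
theorem coreGap (K : Tasks) : CoreGap := by
  refine ⟨10 ^ 30, 11, ?_⟩
  intro I T _ _ _ _ D L Z s hs hL hD hZ hT hN
  have hN' : 10 ^ 30 * (s : ℝ) ^ 11 ≤ (Fintype.card I : ℝ) := by exact_mod_cast hN
  have h3 := sR hs
  have h11 : 1 ≤ (s : ℝ) ^ 11 := one_le_pow₀ h3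
  have hNp : (0 : ℝ) < Fintype.card I := by linarith
  have hmm := mm_pos hs
  have hbig := big hs hN'
  have hvv := vv_pos hs
  have hvl := vv_le hs
  have hel := ee_le hs
  have hepos := ee_pos hs
  have hτ0 : 0 < mm s / (Fintype.card I : ℝ) := by positivity
  have hsτ : (s : ℝ) * (mm s / (Fintype.card I : ℝ)) ≤ 1 / 1000 := by
    have h1 : (s : ℝ) * vv s ≤ 1 / 4000 := by
      unfold vv
      have h4 : (0 : ℝ) ≤ gg s := Nat.cast_nonneg _
      rw [← mul_div_assoc, div_le_div_iff₀ (by positivity) (by norm_num)]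
      nlinarith
    nlinarith
  have hτ1 : mm s / (Fintype.card I : ℝ) < 1 := by linarith
  let P : Par :=
    { s := s
      g := gg s
      nmax := nn s
      τ := mm s / (Fintype.card I : ℝ)
      t := tt s
      β := bb s
      ν := vv s
      η := ee s
      lam := ll s
      hs := hs
      hg := gg_pos hs
      τ0 := hτ0
      τ1 := hτ1
      t0 := tt_pos hs
      t1 := tt_lt hs
      β1 := bb_one hs
      βs := bb_pow hs
      up := by
        intro j a
        have h1 := bb_one hs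
        rcases a with _ | _ | _
        · simp only [bg]; nlinarith
        · simp only [bg]
          have := up2 hs j
          nlinarith
        · simp only [bg]
          have h2 := up1 hs j
          have h3 := tt_pos hs j
          have h4 : tt s j ≤ bb s * tt s (j + 1) := by nlinarith
          nlinarith
      down := by
        intro j a
        have h1 := bb_one hs
        rcases a with _ | _ | _
        · simp only [bg]; nlinarith
        · simp only [bg]
          have h2 := down2 hs j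
          have h3 := tt_lt hs j
          have h4 : 1 - tt s (j + 1) ≤ bb s * (1 - tt s j) := by nlinarith
          nlinarith
        · simp only [bg]
          have h2 := down1 hs j
          nlinarith
      τs := by
        have h1 := one_add_mul_le_pow (a := -(mm s / (Fintype.card I : ℝ))) (by linarith) s
        rw [sub_eq_add_neg]
        refine le_trans ?_ h1
        rw [mul_neg]
        linarith
      τν := hbig
      η0 := hepos
      lam0 := (ll_pos hs).le
      lam1 := by linarith [ll_le hs]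
      lamn := ll_pow hs
      lamp := ll_g hs
      hd := hd' hs
      hΦ := hΦ' hs
      hn := hn' hs }
  refine contra K P D L hL hD hT Z hZ ?_ ?_ ?_ ?_
  · show (Fintype.card I : ℝ) * (mm s / (Fintype.card I : ℝ) * tt s 0) ≤ 1 / 100
    have h1 : (Fintype.card I : ℝ) * (mm s / (Fintype.card I : ℝ) * tt s 0) = mm s * tt s 0 := by
      field_simp
    rw [h1]
    have h2 : tt s 0 ≤ oo s 0 := by
      have := oo_pos hs 0
      unfold tt
      rw [div_le_iff₀ (by linarith)]
      nlinarith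
    have h3 : mm s * oo s 0 = 1 / 100 := by
      unfold oo
      rw [pow_zero]
      field_simp
    nlinarith
  · intro S hS
    show 8 * (S.card : ℝ) + 12 ≤ ((Fintype.card I : ℝ) - S.card) *
      (mm s / (Fintype.card I : ℝ) * (1 - tt s 0))
    apply endp hs hN' _ _ hS
    rw [one_sub_tt hs]
    have h1 := oo_pos hs 0
    have h2 : oo s 0 ≤ 1 := by
      unfold oo
      rw [pow_zero, mul_one, div_le_one (by linarith)]
      linarith
    rw [div_le_div_iff₀ (by norm_num) (by linarith)]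
    linarith
  · show (Fintype.card I : ℝ) * (mm s / (Fintype.card I : ℝ) * (1 - tt s (gg s))) ≤ 1 / 100
    have h1 : (Fintype.card I : ℝ) * (mm s / (Fintype.card I : ℝ) * (1 - tt s (gg s))) =
        mm s * (1 - tt s (gg s)) := by
      field_simp
    rw [h1, one_sub_tt hs, mul_one_div]
    have h2 := oo_g hs
    rw [div_le_div_iff₀ (by linarith) (by norm_num)]
    linarith
  · intro S hS
    show 8 * (S.card : ℝ) + 12 ≤ ((Fintype.card I : ℝ) - S.card) *
      (mm s / (Fintype.card I : ℝ) * tt s (gg s))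
    apply endp hs hN' _ _ hS
    have h2 := oo_g hs
    unfold tt
    rw [div_le_div_iff₀ (by norm_num) (by linarith)]
    linarith

end Pool.Agent.H910R3.BP
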