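import Pool.Agent.H910R3.BP.Stmts

set_option autoImplicit false

namespace Pool.Agent.H910R3.BP

open Finset

section Basic

variable {I T : Type} [Fintype I] [DecidableEq I] [Fintype T]

theorem Pm_nonneg (D : T → Finset I) {μ : I → Option Bool → ℝ} (h : ∀ i a, 0 ≤ μ i a)
    (ρ : T × Cfg I) : 0 ≤ Pm D μ ρ := prod_nonneg fun i _ => h i _

theorem mass_nonneg (D : T → Finset I) {μ : I → Option Bool → ℝ} (h : ∀ i a, 0 ≤ μ i a)
    {w : T × Cfg I → ℝ} (hw : ∀ ρ, 0 ≤ w ρ) : 0 ≤ mass D μ w :=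
  sum_nonneg fun ρ _ => mul_nonneg (hw ρ) (Pm_nonneg D h ρ)

theorem res_nonneg {w : T × Cfg I → ℝ} (hw : ∀ ρ, 0 ≤ w ρ) (q : T × Cfg I → Prop) (ρ : T × Cfg I) :
    0 ≤ res w q ρ := by
  unfold res
  split_ifs
  · exact hw ρ
  · exact le_rfl

theorem res_le {w : T × Cfg I → ℝ} (hw : ∀ ρ, 0 ≤ w ρ) (q : T × Cfg I → Prop) (ρ : T × Cfg I) :
    res w q ρ ≤ w ρ := by
  unfold res
  split_ifs
  · exact le_rfl
  · exact hw ρ

theorem mass_res_le (D : T → Finset I) {μ : I → Option Bool → ℝ} (h : ∀ i a, 0 ≤ μ i a)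
    {w : T × Cfg I → ℝ} (hw : ∀ ρ, 0 ≤ w ρ) (q : T × Cfg I → Prop) :
    mass D μ (res w q) ≤ mass D μ w :=
  sum_le_sum fun ρ _ => mul_le_mul_of_nonneg_right (res_le hw q ρ) (Pm_nonneg D h ρ)

theorem isCore_res {D : T → Finset I} {L : Bool → T → Cfg I → Bool} {u : Bool}
    {w : T × Cfg I → ℝ} (hw : IsCore D L u w) (q : T × Cfg I → Prop) : IsCore D L u (res w q) := by
  have hne : ∀ ρ, res w q ρ ≠ 0 → w ρ ≠ 0 := by
    intro ρ h h'
    apply h
    unfold res
    split_ifs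
    · exact h'
    · rfl
  exact ⟨fun ρ => res_nonneg hw.nonneg q ρ, fun ρ => (res_le hw.nonneg q ρ).trans (hw.le_one ρ),
    fun ρ h => hw.off ρ (hne ρ h), fun ρ h => hw.leaf ρ (hne ρ h)⟩

theorem isCore_zero (D : T → Finset I) (L : Bool → T → Cfg I → Bool) (u : Bool) :
    IsCore D L u (fun _ => 0) :=
  ⟨fun _ => le_rfl, fun _ => zero_le_one, fun _ h => absurd rfl h, fun _ h => absurd rfl h⟩

theorem Ex_Uw (D : T → Finset I) {μ : I → Option Bool → ℝ} (h : ∀ i, ∑ a, μ i a = 1)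
    (w : T × Cfg I → ℝ) : Ex μ (Uw D w) = mass D μ w := by
  unfold Uw mass
  rw [Ex_sum univ μ (fun ρ y => w ρ * (if Cyl (D ρ.1) ρ.2 y then (1 : ℝ) else 0))]
  refine sum_congr rfl fun ρ _ => ?_
  rw [Ex_smul, Ex_cyl h]
  rfl

theorem Uw_nonneg (D : T → Finset I) {w : T × Cfg I → ℝ} (hw : ∀ ρ, 0 ≤ w ρ) (y : Cfg I) :
    0 ≤ Uw D w y :=
  sum_nonneg fun ρ _ => mul_nonneg (hw ρ) (by split_ifs <;> norm_num)

theorem Uw_le (D : T → Finset I) (L : Bool → T → Cfg I → Bool) (hL : Loc D L) {u : Bool}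
    {w : T × Cfg I → ℝ} (hw : IsCore D L u w) (y : Cfg I) : Uw D w y ≤ U L u y := by
  unfold Uw U
  rw [Fintype.sum_prod_type]
  refine sum_le_sum fun a _ => ?_
  set v0 : Cfg I := fun i => if i ∈ D a then y i else none with hv0
  have hz : ∀ v, v ≠ v0 → w (a, v) * (if Cyl (D a) v y then (1 : ℝ) else 0) = 0 := by
    intro v hv
    by_cases h1 : w (a, v) = 0
    · rw [h1, zero_mul]
    · rw [if_neg, mul_zero]
      intro hc
      apply hv
      funext i
      simp only [hv0]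
      split_ifs with hi
      · exact (hc i hi).symm
      · exact hw.off (a, v) h1 i hi
  rw [Finset.sum_eq_single v0 (fun v _ hv => hz v hv) (fun h => absurd (mem_univ _) h)]
  by_cases h1 : w (a, v0) = 0
  · rw [h1, zero_mul]
    split_ifs <;> norm_num
  · have h2 := hw.leaf (a, v0) h1
    have h3 : L u a y = L u a v0 := hL u a y v0 (fun i hi => by simp [hv0, hi])
    have h4 : L u a y = true := by rw [h3]; exact h2
    rw [if_pos h4]
    have h5 := hw.le_one (a, v0)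
    have h6 := hw.nonneg (a, v0)
    split_ifs <;> linarith

theorem U_le_card (L : Bool → T → Cfg I → Bool) (u : Bool) (y : Cfg I) :
    U L u y ≤ Fintype.card T := by
  unfold U
  calc ∑ a : T, (if L u a y then (1 : ℝ) else 0) ≤ ∑ a : T, (1 : ℝ) :=
        sum_le_sum fun a _ => by split_ifs <;> norm_num
    _ = Fintype.card T := by simp

theorem mass_le_card (D : T → Finset I) (L : Bool → T → Cfg I → Bool) (hL : Loc D L) {u : Bool}
    {μ : I → Option Bool → ℝ} (h0 : ∀ i a, 0 ≤ μ i a) (h : ∀ i, ∑ a, μ i a = 1)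
    {w : T × Cfg I → ℝ} (hw : IsCore D L u w) : mass D μ w ≤ Fintype.card T := by
  rw [← Ex_Uw D h w, ← Ex_const h (Fintype.card T : ℝ)]
  exact Ex_mono h0 fun y => (Uw_le D L hL hw y).trans (U_le_card L u y)

theorem U_eq_cnt (L : Bool → T → Cfg I → Bool) (u : Bool) (y : Cfg I) : U L u y = cnt L u y := by
  unfold U cnt
  rw [Finset.sum_boole]

end Basic

/-- All the parameters. -/
structure Par where
  /-- bound for the number of queries etc. -/
  s : ℕ
  /-- number of grid points minus one -/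
  g : ℕ
  /-- bound for the number of steps -/
  nmax : ℕ
  /-- needle probability -/
  τ : ℝ
  /-- label probabilities -/
  t : ℕ → ℝ
  /-- ratio -/
  β : ℝ
  /-- spread parameter -/
  ν : ℝ
  /-- threshold for the frequent empty cells -/
  η : ℝ
  /-- loss -/
  lam : ℝ
  hs : 1 ≤ s
  hg : 1 ≤ g
  τ0 : 0 < τ
  τ1 : τ < 1
  t0 : ∀ j, 0 < t j
  t1 : ∀ j, t j < 1
  β1 : 1 ≤ β
  βs : β ^ s ≤ 1003 / 1000
  up : ∀ j a, bg τ (t j) a ≤ β * bg τ (t (j + 1)) a
  down : ∀ j a, bg τ (t (j + 1)) a ≤ β * bg τ (t j) a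
  τs : 999 / 1000 ≤ (1 - τ) ^ s
  τν : 8 * τ ≤ ν
  η0 : 0 < η
  lam0 : 0 ≤ lam
  lam1 : lam ≤ 1 / 2
  lamn : (1 + 2 * lam) ^ nmax ≤ 2
  lamp : 1 + 1 / 200 ≤ (1 + 1 / 100) * (1 - lam) ^ (2 * (g + 1))
  hd : ((2 * s + 1 : ℕ) : ℝ) * (η + 2 * ν) ≤ lam
  hΦ : (2 * (g + 1) : ℝ) * (s / η) * (2 * ν) ≤ 1 / 1000
  hn : ((2 : ℝ) ^ s + 1) ^ (2 * (g + 1)) < (1 + 1 / 200) ^ nmax

section Valid

variable {I T : Type} [Fintype I] [DecidableEq I] [Fintype T]

/-- the index set -/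
def PP (g : ℕ) : Finset (ℕ × Bool) := range (g + 1) ×ˢ univ

theorem card_PP (g : ℕ) : (PP g).card = 2 * (g + 1) := by
  unfold PP
  rw [card_product, card_range]
  simp
  ring

/-- masses -/
noncomputable def ms (P : Par) (D : T → Finset I) (S : Finset I) (x : Cfg I) (p : ℕ × Bool)
    (w : T × Cfg I → ℝ) : ℝ := mass D (M0 P.τ (P.t p.1) S x) w

/-- a state after `n` steps -/
structure State (P : Par) (D : T → Finset I) (L : Bool → T → Cfg I → Bool) (Z : Finset I) (n : ℕ)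
    (S : Finset I) (x : Cfg I) (w : ℕ × Bool → T × Cfg I → ℝ) : Prop where
  sub : Z ⊆ S
  emp : ∀ i ∈ Z, x i = none
  card : S.card ≤ Z.card + n * (2 * P.s + 1)
  core : ∀ p ∈ PP P.g, IsCore D L p.2 (w p)
  spread : ∀ p ∈ PP P.g, ∀ i, i ∉ S → NH D (M0 P.τ (P.t p.1) S x) (w p) i ≤
    P.ν * (1 + 2 * P.lam) ^ n * ms P D S x p (w p)
  pot : (1 + 1 / 200 : ℝ) ^ n ≤ ∏ p ∈ PP P.g, (ms P D S x p (w p) + 1)

theorem Par.m0 (P : Par) (S : Finset I) (x : Cfg I) (j : ℕ) (i : I) (a : Option Bool) :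
    0 ≤ M0 P.τ (P.t j) S x i a :=
  M0_nonneg P.τ0.le P.τ1.le (P.t0 j).le (P.t1 j).le S x i a

theorem ms_nonneg (P : Par) {D : T → Finset I} {L : Bool → T → Cfg I → Bool} (S : Finset I)
    (x : Cfg I) (p : ℕ × Bool) {w : T × Cfg I → ℝ} {u : Bool} (hw : IsCore D L u w) :
    0 ≤ ms P D S x p w := mass_nonneg D (P.m0 S x p.1) hw.nonneg

theorem state_zero (P : Par) (D : T → Finset I) (L : Bool → T → Cfg I → Bool) (Z : Finset I) :
    State P D L Z 0 Z (fun _ => none) (fun _ _ => 0) := by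
  refine ⟨Subset.refl _, fun _ _ => rfl, by simp, fun p _ => isCore_zero D L p.2, ?_, ?_⟩
  · intro p _ i _
    have h1 : NH D (M0 P.τ (P.t p.1) Z fun _ => none) (fun _ => (0 : ℝ)) i = 0 := by
      unfold NH mass res
      simp
    have h2 : ms P D Z (fun _ => none) p (fun _ => (0 : ℝ)) = 0 := by
      unfold ms mass
      simp
    rw [h1, h2]
    simp
  · have h2 : ∀ p, ms P D Z (fun _ => none) p (fun _ => (0 : ℝ)) = 0 := by
      intro p
      unfold ms mass
      simp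
    simp [h2]

theorem state_bound (P : Par) (D : T → Finset I) (L : Bool → T → Cfg I → Bool) (hL : Loc D L)
    (hT : Fintype.card T ≤ 2 ^ P.s) (Z : Finset I)
    {n : ℕ} {S : Finset I} {x : Cfg I} {w : ℕ × Bool → T × Cfg I → ℝ}
    (h : State P D L Z n S x w) : n < P.nmax := by
  by_contra hc
  push Not at hc
  have h1 : ∏ p ∈ PP P.g, (ms P D S x p (w p) + 1) ≤ ((2 : ℝ) ^ P.s + 1) ^ (2 * (P.g + 1)) := by
    rw [← card_PP, ← prod_const]
    apply Finset.prod_le_prod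
    · intro p hp
      have := ms_nonneg P S x p (h.core p hp)
      linarith
    · intro p hp
      have h2 := mass_le_card D L hL (P.m0 S x p.1) (M0_sum P.τ (P.t p.1) S x) (h.core p hp)
      have h3 : (Fintype.card T : ℝ) ≤ 2 ^ P.s := by exact_mod_cast hT
      unfold ms
      linarith
  have h2 : (1 + 1 / 200 : ℝ) ^ P.nmax ≤ (1 + 1 / 200) ^ n := pow_le_pow_right₀ (by norm_num) hc
  have := h.pot
  have := P.hn
  linarith

theorem step (hPers : TaskPersist) {I T : Type} [Fintype I] [DecidableEq I] [Fintype T]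
    [DecidableEq T] (P : Par) (D : T → Finset I) (L : Bool → T → Cfg I → Bool)
    (Z : Finset I) {n : ℕ} (hn : n < P.nmax) {S : Finset I} {x : Cfg I}
    {w : ℕ × Bool → T × Cfg I → ℝ}
    (h : State P D L Z n S x w) (S' : Finset I) (x' : Cfg I) (p0 : ℕ × Bool)
    (w' : T × Cfg I → ℝ) (hp0 : p0 ∈ PP P.g) (hSS : S ⊆ S') (hx : ∀ i ∈ S, x' i = x i)
    (hcard : (S' \ S).card ≤ 2 * P.s + 1)
    (hE : ∀ p ∈ PP P.g, ∀ i ∈ S' \ S, EM D (M0 P.τ (P.t p.1) S x) (w p) i ≤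
      P.η * ms P D S x p (w p))
    (hw' : IsCore D L p0.2 w')
    (hsp : ∀ i, i ∉ S' → NH D (M0 P.τ (P.t p0.1) S' x') w' i ≤ P.ν * ms P D S' x' p0 w')
    (hm : (1 + 1 / 100) * (ms P D S x p0 (w p0) + 1) ≤ ms P D S' x' p0 w' + 1) :
    ∃ W, State P D L Z (n + 1) S' x' W := by
  have hlam0 := P.lam0
  have hlam1 := P.lam1
  have hν0 : 0 < P.ν := by linarith [P.τ0, P.τν]
  have hpw : (1 + 2 * P.lam) ^ n ≤ 2 :=
    (pow_le_pow_right₀ (by linarith) hn.le).trans P.lamn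
  have hpw0 : (0 : ℝ) ≤ (1 + 2 * P.lam) ^ n := by positivity
  have hpers : ∀ p, ∃ W, p ∈ PP P.g → IsCore D L p.2 W ∧
      (1 - P.lam) * ms P D S x p (w p) ≤ ms P D S' x' p W ∧
      ∀ i, i ∉ S' → NH D (M0 P.τ (P.t p.1) S' x') W i ≤
        (1 + 2 * P.lam) * (P.ν * (1 + 2 * P.lam) ^ n) * ms P D S' x' p W := by
    intro p
    by_cases hp : p ∈ PP P.g
    · obtain ⟨W, h1, h2, h3⟩ := hPers I T D L P.τ (P.t p.1) (P.ν * (1 + 2 * P.lam) ^ n) P.η P.lam
        p.2 S S' x x' (w p) (2 * P.s + 1) P.τ0 P.τ1 (P.t0 _) (P.t1 _)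
        (mul_nonneg hν0.le hpw0) P.η0.le P.lam0 P.lam1 (by
          refine le_trans ?_ P.hd
          have : P.ν * (1 + 2 * P.lam) ^ n ≤ 2 * P.ν := by nlinarith
          gcongr) hSS hx hcard (h.core p hp) (h.spread p hp) (hE p hp)
      exact ⟨W, fun _ => ⟨h1, h2, h3⟩⟩
    · exact ⟨fun _ => 0, fun hp' => absurd hp' hp⟩
  choose W hW using hpers
  refine ⟨fun p => if p = p0 then w' else W p, h.sub.trans hSS, ?_, ?_, ?_, ?_, ?_⟩
  · intro i hi
    rw [hx i (h.sub hi)]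
    exact h.emp i hi
  · have h1 : S'.card = (S' \ S).card + S.card := by
      rw [card_sdiff_add_card_eq_card hSS]
    have h2 := h.card
    have h3 : (n + 1) * (2 * P.s + 1) = n * (2 * P.s + 1) + (2 * P.s + 1) := by ring
    omega
  · intro p hp
    by_cases hpp : p = p0
    · simp only [hpp, if_true]; exact hw'
    · simp only [hpp, if_false]; exact (hW p hp).1
  · intro p hp i hi
    have hge : P.ν ≤ P.ν * (1 + 2 * P.lam) ^ (n + 1) := by
      have : (1 : ℝ) ≤ (1 + 2 * P.lam) ^ (n + 1) := one_le_pow₀ (by linarith)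
      nlinarith
    by_cases hpp : p = p0
    · subst hpp
      simp only [if_true]
      refine (hsp i hi).trans ?_
      exact mul_le_mul_of_nonneg_right hge (ms_nonneg P S' x' p hw')
    · simp only [hpp, if_false]
      refine ((hW p hp).2.2 i hi).trans (le_of_eq ?_)
      ring
  · have hmnn : ∀ p ∈ PP P.g, 0 ≤ ms P D S x p (w p) := fun p hp =>
      ms_nonneg P S x p (h.core p hp)
    have key : ∀ p ∈ PP P.g, ((if p = p0 then (1 + 1 / 100 : ℝ) else 1) * (1 - P.lam)) *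
        (ms P D S x p (w p) + 1) ≤ ms P D S' x' p (if p = p0 then w' else W p) + 1 := by
      intro p hp
      have h0 := hmnn p hp
      by_cases hpp : p = p0
      · subst hpp
        simp only [if_true]
        refine le_trans ?_ hm
        have : (1 + 1 / 100 : ℝ) * (1 - P.lam) ≤ 1 + 1 / 100 := by nlinarith
        nlinarith
      · simp only [hpp, if_false]
        have := (hW p hp).2.1
        nlinarith
    have h5 : ∏ p ∈ PP P.g, ((if p = p0 then (1 + 1 / 100 : ℝ) else 1) * (1 - P.lam)) *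
        (ms P D S x p (w p) + 1) ≤
        ∏ p ∈ PP P.g, (ms P D S' x' p (if p = p0 then w' else W p) + 1) := by
      apply Finset.prod_le_prod
      · intro p hp
        have h0 := hmnn p hp
        have : (0 : ℝ) ≤ (if p = p0 then (1 + 1 / 100 : ℝ) else 1) := by split_ifs <;> norm_num
        have h6 : (0 : ℝ) ≤ 1 - P.lam := by linarith
        positivity
      · exact key
    refine le_trans ?_ h5
    rw [prod_mul_distrib, prod_mul_distrib, prod_ite_eq' (PP P.g) p0 (fun _ => (1 + 1 / 100 : ℝ)),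
      if_pos hp0, prod_const, card_PP, pow_succ]
    have h7 := h.pot
    have h8 := P.lamp
    have h9 : (0 : ℝ) ≤ (1 + 1 / 200) ^ n := by positivity
    calc (1 + 1 / 200 : ℝ) ^ n * (1 + 1 / 200)
        ≤ (1 + 1 / 200 : ℝ) ^ n * ((1 + 1 / 100) * (1 - P.lam) ^ (2 * (P.g + 1))) := by gcongr
      _ = ((1 + 1 / 100) * (1 - P.lam) ^ (2 * (P.g + 1))) * (1 + 1 / 200 : ℝ) ^ n := by ring
      _ ≤ _ := by
        apply mul_le_mul_of_nonneg_left h7
        linarith

end Valid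

end Pool.Agent.H910R3.BP
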