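import Pool.Agent.H910R3.BP.Meas

/-!
# Definitions and tasks for the core lemma (oracle without complete sets for BPP_path)

Paths are pairs `ρ = (a, v)`: `a : T` is a transcript, `D a` the set of cells it queries, and
`v` is the partial configuration on `D a` (it is `none` outside of `D a`).
-/

set_option autoImplicit false

namespace Pool.Agent.H910R3.BP

open Finset

section Defs

variable {I T : Type} [Fintype I] [DecidableEq I] [Fintype T]

/-- Probability of the partial assignment of the path `ρ`. -/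
noncomputable def Pm (D : T → Finset I) (μ : I → Option Bool → ℝ) (ρ : T × Cfg I) : ℝ :=
  ∏ i ∈ D ρ.1, μ i (ρ.2 i)

/-- Expected weight of the realised paths. -/
noncomputable def mass (D : T → Finset I) (μ : I → Option Bool → ℝ) (w : T × Cfg I → ℝ) : ℝ :=
  ∑ ρ : T × Cfg I, w ρ * Pm D μ ρ

/-- Weight of the paths realised by `y`. -/
noncomputable def Uw (D : T → Finset I) (w : T × Cfg I → ℝ) (y : Cfg I) : ℝ :=
  ∑ ρ : T × Cfg I, w ρ * (if Cyl (D ρ.1) ρ.2 y then 1 else 0)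

open Classical in
/-- Restriction of weights. -/
noncomputable def res (w : T × Cfg I → ℝ) (q : T × Cfg I → Prop) : T × Cfg I → ℝ :=
  fun ρ => if q ρ then w ρ else 0

/-- mass of the paths with a needle in the cell `i` -/
noncomputable def NH (D : T → Finset I) (μ : I → Option Bool → ℝ) (w : T × Cfg I → ℝ) (i : I) : ℝ :=
  mass D μ (res w (fun ρ => i ∈ D ρ.1 ∧ ρ.2 i ≠ none))

/-- mass of the paths with an empty queried cell `i` -/
noncomputable def EM (D : T → Finset I) (μ : I → Option Bool → ℝ) (w : T × Cfg I → ℝ) (i : I) : ℝ :=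
  mass D μ (res w (fun ρ => i ∈ D ρ.1 ∧ ρ.2 i = none))

/-- `L u a` (transcript `a` is realised and has verdict `u`) depends on the cells in `D a` only -/
def Loc (D : T → Finset I) (L : Bool → T → Cfg I → Bool) : Prop :=
  ∀ u a (y y' : Cfg I), (∀ i ∈ D a, y i = y' i) → L u a y = L u a y'

/-- number of realised transcripts with verdict `u` -/
noncomputable def U (L : Bool → T → Cfg I → Bool) (u : Bool) (y : Cfg I) : ℝ :=
  ∑ a : T, if L u a y then 1 else 0

/-- weights in `[0,1]` supported on the paths with verdict `u` -/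
structure IsCore (D : T → Finset I) (L : Bool → T → Cfg I → Bool) (u : Bool)
    (w : T × Cfg I → ℝ) : Prop where
  nonneg : ∀ ρ, 0 ≤ w ρ
  le_one : ∀ ρ, w ρ ≤ 1
  off : ∀ ρ, w ρ ≠ 0 → ∀ i, i ∉ D ρ.1 → ρ.2 i = none
  leaf : ∀ ρ, w ρ ≠ 0 → L u ρ.1 ρ.2 = true

/-- the configuration of the path `ρ`, and `x` elsewhere -/
def ov (D : T → Finset I) (x : Cfg I) (ρ : T × Cfg I) : Cfg I :=
  fun i => if i ∈ D ρ.1 then ρ.2 i else x i

end Defs

/-- Spreading: while some cell outside `S` has needle mass more than `ν` times the mass, plant a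
needle there (with the better label) and keep the paths with this needle; the mass doubles, and it
is at most `|T|`. Induction on `n`. -/
def TaskSpread : Prop :=
  ∀ (I T : Type) [Fintype I] [DecidableEq I] [Fintype T] [DecidableEq T]
    (D : T → Finset I) (L : Bool → T → Cfg I → Bool) (τ t ν : ℝ) (u : Bool) (F : Finset I),
    0 < τ → τ < 1 → 0 < t → t < 1 → 8 * τ ≤ ν →
    ∀ (n : ℕ) (S : Finset I) (x : Cfg I) (w : T × Cfg I → ℝ),
    IsCore D L u w → (∀ ρ, w ρ ≠ 0 → ∀ i ∈ F, i ∈ D ρ.1 → ρ.2 i = none) →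
    (Fintype.card T : ℝ) < 2 ^ n * mass D (M0 τ t S x) w →
    ∃ (S' : Finset I) (x' : Cfg I) (w' : T × Cfg I → ℝ), S ⊆ S' ∧ (∀ i ∈ S, x' i = x i) ∧
      (S' \ S).card ≤ n ∧ (∀ i ∈ S' \ S, i ∉ F) ∧ IsCore D L u w' ∧
      mass D (M0 τ t S x) w ≤ mass D (M0 τ t S' x') w' ∧
      ∀ i, i ∉ S' → NH D (M0 τ t S' x') w' i ≤ ν * mass D (M0 τ t S' x') w'

open Classical in
/-- Upper tail / truncation: `w ρ = E[1_ρ θ 1_E] / P(ρ)` where `E` is the event `B ≤ U L u y` and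
`θ y = B / U L u y`. Then `mass w = E[θ 1_E U] = B Pr[E]`, and
`NH w i ≤ E[θ 1_E U 1_{y i ≠ none}] ≤ B τ`. -/
def TaskTail : Prop :=
  ∀ (I T : Type) [Fintype I] [DecidableEq I] [Fintype T] [DecidableEq T]
    (D : T → Finset I) (L : Bool → T → Cfg I → Bool) (τ t B ε : ℝ) (u : Bool)
    (S : Finset I) (x : Cfg I),
    Loc D L → 0 < τ → τ < 1 → 0 < t → t < 1 → 0 < B → 0 < ε →
    ε ≤ Ex (M0 τ t S x) (fun y => if B ≤ U L u y then 1 else 0) →
    ∃ w, IsCore D L u w ∧ ε * B ≤ mass D (M0 τ t S x) w ∧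
      ∀ i, i ∉ S → ε * NH D (M0 τ t S x) w i ≤ τ * mass D (M0 τ t S x) w

/-- Second moment: `E[U_w ^ 2] = ∑ ρ, w ρ * E[1_ρ U_w]`, and, as the cells of `F` are empty in all
paths of `w`, `(1-τ)^c * E[1_ρ U_w] ≤ (1-τ)^c * Pr[W' agrees with ρ] * (mass when W' is planted)
≤ P(ρ) * B`, with `W' = D ρ.1 \ F`. -/
def TaskSecond : Prop :=
  ∀ (I T : Type) [Fintype I] [DecidableEq I] [Fintype T] [DecidableEq T]
    (D : T → Finset I) (L : Bool → T → Cfg I → Bool) (τ t B : ℝ) (u : Bool)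
    (S F : Finset I) (x : Cfg I) (w : T × Cfg I → ℝ) (c : ℕ),
    0 < τ → τ < 1 → 0 < t → t < 1 → 0 ≤ B → (∀ a, (D a).card ≤ c) → Disjoint S F →
    IsCore D L u w → (∀ ρ, w ρ ≠ 0 → ∀ i ∈ F, i ∈ D ρ.1 → ρ.2 i = none) →
    (∀ ρ, w ρ ≠ 0 → Pm D (M0 τ t S x) ρ ≠ 0 →
      mass D (M0 τ t (S ∪ (D ρ.1 \ F)) (ov D x ρ)) w ≤ B) →
    (1 - τ) ^ c * Ex (M0 τ t S x) (fun y => (Uw D w y) ^ 2) ≤ B * mass D (M0 τ t S x) w

/-- Comparison of two product measures which differ by a factor at most `β` in every cell: all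
cylinders on at most `c` (at most `2 * c`) cells compare within `β ^ c` (`β ^ (2 * c)`). -/
def TaskCompare : Prop :=
  ∀ (I T : Type) [Fintype I] [DecidableEq I] [Fintype T] [DecidableEq T]
    (D : T → Finset I) (μ μ' : I → Option Bool → ℝ) (β : ℝ) (c : ℕ) (w : T × Cfg I → ℝ),
    1 ≤ β → (∀ i a, 0 ≤ μ i a) → (∀ i a, 0 ≤ μ' i a) →
    (∀ i, ∑ a, μ i a = 1) → (∀ i, ∑ a, μ' i a = 1) →
    (∀ i a, μ i a ≤ β * μ' i a) → (∀ a, (D a).card ≤ c) → (∀ ρ, 0 ≤ w ρ) →
    mass D μ w ≤ β ^ c * mass D μ' w ∧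
    Ex μ (fun y => (Uw D w y) ^ 2) ≤ β ^ (2 * c) * Ex μ' (fun y => (Uw D w y) ^ 2)

open Classical in
/-- Endpoints. `Pr[some cell outside S is some b] ≤ 1/100` by the union bound, and with `X` the
number of cells outside `S` that are `some !b`,
`Pr[X ≤ 4|S|] ≤ 2^(4|S|) E[2^(-X)] = 2^(4|S|) (1 - q/2)^(N-|S|) ≤ 2^(4|S|) exp(-4|S|-6) ≤ 1/100`. -/
def TaskEnd : Prop :=
  ∀ (I : Type) [Fintype I] [DecidableEq I] (τ t : ℝ) (S : Finset I) (x : Cfg I) (b : Bool),
    0 < τ → τ < 1 → 0 < t → t < 1 →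
    (Fintype.card I : ℝ) * bg τ t (some b) ≤ 1 / 100 →
    8 * (S.card : ℝ) + 12 ≤ ((Fintype.card I : ℝ) - S.card) * bg τ t (some !b) →
    Ex (M0 τ t S x) (fun y => if (∀ i, i ∉ S → y i ≠ some b) ∧
      4 * S.card + 1 ≤ (univ.filter fun i => i ∉ S ∧ y i = some !b).card then 0 else 1) ≤ 1 / 20

/-- Persistence: keep the paths of `w` that avoid the newly planted cells `S' \ S`. -/
def TaskPersist : Prop :=
  ∀ (I T : Type) [Fintype I] [DecidableEq I] [Fintype T] [DecidableEq T]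
    (D : T → Finset I) (L : Bool → T → Cfg I → Bool) (τ t ν η lam : ℝ) (u : Bool)
    (S S' : Finset I) (x x' : Cfg I) (w : T × Cfg I → ℝ) (d : ℕ),
    0 < τ → τ < 1 → 0 < t → t < 1 → 0 ≤ ν → 0 ≤ η → 0 ≤ lam → lam ≤ 1 / 2 →
    (d : ℝ) * (η + ν) ≤ lam → S ⊆ S' → (∀ i ∈ S, x' i = x i) → (S' \ S).card ≤ d →
    IsCore D L u w →
    (∀ i, i ∉ S → NH D (M0 τ t S x) w i ≤ ν * mass D (M0 τ t S x) w) →
    (∀ i ∈ S' \ S, EM D (M0 τ t S x) w i ≤ η * mass D (M0 τ t S x) w) →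
    ∃ w', IsCore D L u w' ∧ (1 - lam) * mass D (M0 τ t S x) w ≤ mass D (M0 τ t S' x') w' ∧
      ∀ i, i ∉ S' → NH D (M0 τ t S' x') w' i ≤ (1 + 2 * lam) * ν * mass D (M0 τ t S' x') w'

open Classical in
/-- The number of cells which carry a fraction `η` of the mass (double counting: every path queries
at most `c` cells); and the loss when the paths with a needle in `F` are removed. -/
def TaskHeavy : Prop :=
  ∀ (I T : Type) [Fintype I] [DecidableEq I] [Fintype T] [DecidableEq T]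
    (D : T → Finset I) (μ : I → Option Bool → ℝ) (η : ℝ) (F : Finset I)
    (w : T × Cfg I → ℝ) (c : ℕ),
    (∀ i a, 0 ≤ μ i a) → 0 < η → (∀ a, (D a).card ≤ c) → (∀ ρ, 0 ≤ w ρ) →
    (0 < mass D μ w →
      η * ((univ.filter fun i => η * mass D μ w ≤ EM D μ w i).card : ℝ) ≤ c) ∧
    mass D μ w - ∑ i ∈ F, NH D μ w i ≤
      mass D μ (res w (fun ρ => ∀ i ∈ F, i ∈ D ρ.1 → ρ.2 i = none))

/-- Chebyshev: `E[(M - X)^2] ≤ M^2 (1 - 2 * 0.98 + 1.05) = 0.09 M^2` and `(M - X)^2 ≥ (9/16) M^2`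
where `X < M / 4`. -/
def TaskLow : Prop :=
  ∀ (I : Type) [Fintype I] [DecidableEq I] (μ : I → Option Bool → ℝ) (X : Cfg I → ℝ) (M : ℝ),
    (∀ i a, 0 ≤ μ i a) → (∀ i, ∑ a, μ i a = 1) → 0 < M →
    98 / 100 * M ≤ Ex μ X → Ex μ (fun y => (X y) ^ 2) ≤ 105 / 100 * M ^ 2 →
    Ex μ (fun y => if X y < M / 4 then 1 else 0) ≤ 1 / 5

section Final

variable {I T : Type} [Fintype I] [DecidableEq I] [Fintype T]

/-- number of realised transcripts with verdict `u`, as a natural number -/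
def cnt (L : Bool → T → Cfg I → Bool) (u : Bool) (y : Cfg I) : ℕ :=
  (univ.filter fun a : T => L u a y = true).card

/-- number of needles with label `u` -/
def nd (u : Bool) (y : Cfg I) : ℕ := (univ.filter fun i : I => y i = some u).card

/-- The machine satisfies the promise on `y` and answers correctly. -/
def Good (L : Bool → T → Cfg I → Bool) (y : Cfg I) : Prop :=
  (3 * cnt L false y < cnt L true y ∨ 3 * cnt L true y < cnt L false y) ∧
  (4 * nd false y ≤ nd true y → 1 ≤ nd true y → 3 * cnt L false y < cnt L true y) ∧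
  (4 * nd true y ≤ nd false y → 1 ≤ nd false y → 3 * cnt L true y < cnt L false y)

/-- verdict `u` with a large gap -/
def Gap (L : Bool → T → Cfg I → Bool) (u : Bool) (y : Cfg I) : Prop :=
  243 * cnt L (!u) y ≤ cnt L u y ∧ 4096 ≤ cnt L u y

end Final

/-- The core statement for amplified machines. -/
def CoreGap : Prop := ∃ C k : ℕ,
  ∀ (I T : Type) [Fintype I] [DecidableEq I] [Fintype T] [DecidableEq T]
    (D : T → Finset I) (L : Bool → T → Cfg I → Bool) (Z : Finset I) (s : ℕ),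
    1 ≤ s → Loc D L → (∀ a, (D a).card ≤ s) → Z.card ≤ s → Fintype.card T ≤ 2 ^ s →
    C * s ^ k ≤ Fintype.card I →
    ¬ ∀ y : Cfg I, (∀ i ∈ Z, y i = none) →
      (Gap L true y ∨ Gap L false y) ∧
      (4 * nd false y ≤ nd true y → 1 ≤ nd true y → Gap L true y) ∧
      (4 * nd true y ≤ nd false y → 1 ≤ nd false y → Gap L false y)

/-- The core statement. -/
def Core : Prop := ∃ C k : ℕ,
  ∀ (I T : Type) [Fintype I] [DecidableEq I] [Fintype T] [DecidableEq T]
    (D : T → Finset I) (L : Bool → T → Cfg I → Bool) (Z : Finset I) (s : ℕ),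
    1 ≤ s → Loc D L → (∀ a, (D a).card ≤ s) → Z.card ≤ s → Fintype.card T ≤ 2 ^ s →
    C * s ^ k ≤ Fintype.card I →
    ∃ y : Cfg I, (∀ i ∈ Z, y i = none) ∧ ¬ Good L y

/-- Amplification: new transcripts `Fin 4096 × (Fin 5 → T)`, with
`L' u (γ, a) y = ∀ i, L u (a i) y`, `D' (γ, a) = ⋃ D (a i)`; so `cnt L' u = 4096 * (cnt L u) ^ 5`,
and the parameter `s' = 17 * s`. -/
def TaskAmp : Prop := CoreGap → Core

end Pool.Agent.H910R3.BP
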